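import Pool.Agent.Lib.MP_a768d2_coD.Geo2

/-! # Step C, part 1: chords and corners of a square in a grid with directional frames -/

namespace Pool.Agent.Lib.MP_a768d2_coT

open Pool.Agent.Lib.MP_a768d2_coG

noncomputable section

variable {P : ℤ → ℤ → ℂ} {ℓ : ℤ → ℤ → ℝ} {N : ℕ} {κ L c : ℝ}

/-- chords of rows -/
theorem DF.chordP (F : DF P ℓ N κ L) (hκ : 0 ≤ κ) (hN : 4 ≤ N) {h : ℕ} (hh : 2 * h ≤ N)
    {e1 e2 g1 g2 x y : ℤ} (hd : Dir e1 e2 g1 g2) (k : ℕ) (hx : |x| ≤ h) (hy : |y| ≤ h)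
    (hx' : |x + k * e1| ≤ h) (hy' : |y + k * e2| ≤ h) :
    ∃ t : ℝ, 1 ≤ t ∧ t ≤ L ∧
      ‖P (x + k * e1) (y + k * e2) - P x y - k * ((t : ℂ) * vec e1 e2)‖ ≤ k * (14 * κ) := by
  have win : ∀ i : ℕ, i < k → 2 * |x + (0 + i) * e1| ≤ N ∧ 2 * |y + (0 + i) * e2| ≤ N := by
    intro i hi
    have a1 := abs_le.mp hx
    have a2 := abs_le.mp hy
    have a3 := abs_le.mp hx'
    have a4 := abs_le.mp hy'
    have key : |x + (0 + i) * e1| ≤ h ∧ |y + (0 + i) * e2| ≤ h := by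
      rw [abs_le, abs_le]
      rcases hd with ⟨rfl, rfl, rfl, rfl⟩ | ⟨rfl, rfl, rfl, rfl⟩ | ⟨rfl, rfl, rfl, rfl⟩ |
        ⟨rfl, rfl, rfl, rfl⟩ | ⟨rfl, rfl, rfl, rfl⟩ | ⟨rfl, rfl, rfl, rfl⟩ |
        ⟨rfl, rfl, rfl, rfl⟩ | ⟨rfl, rfl, rfl, rfl⟩ <;>
        refine ⟨⟨?_, ?_⟩, ?_, ?_⟩ <;> omega
    constructor <;> omega
  have hb := hd.bd
  obtain ⟨t, t1, t2, t3⟩ := lineL (fun z => P (x + z * e1) (y + z * e2))
    (fun z => ℓ (x + z * e1) (y + z * e2)) 0 k (vec e1 e2) (14 * κ) L F.one_le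
    (fun i hi => by
      have w := win i hi
      exact ⟨F.lo _ _ (by omega) (by omega), F.hi _ _ (by omega) (by omega)⟩)
    (fun i hi => by
      have w := win i hi
      have := F.frame hκ hN (abs_le.mpr hb.1) (abs_le.mpr hb.2.1) w.1 w.2
      unfold Fr at this
      have e3 : x + (0 + i + 1) * e1 = x + (0 + i) * e1 + e1 := by ring
      have e4 : y + (0 + i + 1) * e2 = y + (0 + i) * e2 + e2 := by ring
      rw [e3, e4]
      exact this)
  refine ⟨t, t1, t2, ?_⟩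
  simpa using t3

/-- two chords of a straight row are almost parallel -/
theorem Bd.tp {δ : ℝ} {W : ℤ → ℤ → Prop} (B : Bd P δ W) {h : ℕ}
    (hW : ∀ x y : ℤ, |x| ≤ h → |y| ≤ h → W x y) {e1 e2 g1 g2 x y : ℤ} (hd : Dir e1 e2 g1 g2)
    (m k : ℤ) (hx : |x| ≤ h) (hy : |y| ≤ h) (hxm : |x + m * e1| ≤ h) (hym : |y + m * e2| ≤ h)
    (hxk : |x + k * e1| ≤ h) (hyk : |y + k * e2| ≤ h) :
    |det2 (P (x + m * e1) (y + m * e2) - P x y) (P (x + k * e1) (y + k * e2) - P x y)| ≤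
      |(m : ℝ)| * (|(k : ℝ)| * δ) := by
  have conv : ∀ n : ℤ, |x + n * e1| ≤ h → |y + n * e2| ≤ h → ∀ i : ℤ,
      ((0 ≤ i ∧ i < n) ∨ (n ≤ i ∧ i < 0)) → |x + i * e1| ≤ h ∧ |y + i * e2| ≤ h := by
    intro n h1 h2 i hi
    rw [abs_le] at h1 h2 hx hy
    rw [abs_le, abs_le]
    rcases hd with ⟨rfl, rfl, rfl, rfl⟩ | ⟨rfl, rfl, rfl, rfl⟩ | ⟨rfl, rfl, rfl, rfl⟩ |
        ⟨rfl, rfl, rfl, rfl⟩ | ⟨rfl, rfl, rfl, rfl⟩ | ⟨rfl, rfl, rfl, rfl⟩ |
        ⟨rfl, rfl, rfl, rfl⟩ | ⟨rfl, rfl, rfl, rfl⟩ <;>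
        refine ⟨⟨?_, ?_⟩, ?_, ?_⟩ <;> omega
  rw [det2_swap, abs_neg]
  refine chord _ e1 e2 x y m _ (fun i hi => ?_)
  have ci := conv m hxm hym i hi
  rw [det2_swap, abs_neg]
  refine chord _ e1 e2 x y k _ (fun j hj => ?_)
  have cj := conv k hxk hyk j hj
  have := B e1 e2 g1 g2 hd (x + i * e1) (y + i * e2) (j - i) (hW _ _ ci.1 ci.2) (by
    have e3 : x + i * e1 + (j - i) * e1 = x + j * e1 := by ring
    have e4 : y + i * e2 + (j - i) * e2 = y + j * e2 := by ring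
    rw [e3, e4]
    exact hW _ _ cj.1 cj.2)
  have e3 : x + i * e1 + (j - i) * e1 = x + j * e1 := by ring
  have e4 : y + i * e2 + (j - i) * e2 = y + j * e2 := by ring
  rwa [e3, e4] at this

/-- the corners of a square -/
theorem DF.corners (F : DF P ℓ N κ L) (hκ : 0 ≤ κ) (hN : 4 ≤ N) {h : ℕ} (hh : 2 * h ≤ N) :
    ∃ b : ℝ, 1 ≤ b ∧ b ≤ L ∧
      ‖P h (-h) - P (-h) (-h) - ((b * (2 * h : ℕ) : ℝ) : ℂ)‖ ≤ 20 * κ * (2 * h : ℕ) ∧
      ‖P (-h) h - P (-h) (-h) - ((b * (2 * h : ℕ) : ℝ) : ℂ) * Complex.I‖ ≤ 20 * κ * (2 * h : ℕ) ∧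
      ‖P h h - P (-h) (-h) - ((b * (2 * h : ℕ) : ℝ) : ℂ) * (1 + Complex.I)‖ ≤
        20 * κ * (2 * h : ℕ) := by
  have d3 : Dir 1 1 0 1 := Or.inr (Or.inr (Or.inr (Or.inr (Or.inl ⟨rfl, rfl, rfl, rfl⟩))))
  have hh' : |(h : ℤ)| ≤ h := by rw [abs_of_nonneg (by omega)]
  have hn' : |(-h : ℤ)| ≤ h := by rw [abs_neg, abs_of_nonneg (by omega)]
  have wh : |(h : ℤ)| ≤ N := by omega
  have wn : |(-h : ℤ)| ≤ N := by omega
  have e0 : (-h : ℤ) + ((2 * h : ℕ) : ℤ) * 1 = h := by push_cast; ring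
  obtain ⟨a, a1, a2, a3⟩ := F.lipx (x := -h) (x' := h) (y := -h) wn wh wn
  obtain ⟨a', a1', a2', a3'⟩ := F.lipx (x := -h) (x' := h) (y := h) wn wh wh
  obtain ⟨b, b1, b2, b3⟩ := F.lipy (x := -h) (y := -h) (y' := h) wn wh wn
  obtain ⟨b', b1', b2', b3'⟩ := F.lipy (x := h) (y := -h) (y' := h) wn wh wh
  obtain ⟨t, t1, t2, t3⟩ := F.chordP hκ hN hh d3 (2 * h) (x := -h) (y := -h) hn' hn'
    (by rw [e0]; exact hh') (by rw [e0]; exact hh')
  rw [e0] at t3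
  have v3 : vec 1 1 = 1 + Complex.I := by unfold vec; push_cast; ring
  rw [v3] at t3
  set M : ℕ := 2 * h with hM
  have hMr : ((h - (-h) : ℤ) : ℝ) = M := by rw [hM]; push_cast; ring
  have hMc : ((h - (-h) : ℤ) : ℂ) = M := by rw [hM]; push_cast; ring
  rw [hMr, hMc, Nat.abs_cast] at a3 a3' b3 b3'
  rcases Nat.eq_zero_or_pos M with hM0 | hMpos
  · refine ⟨1, le_rfl, F.one_le, ?_⟩
    have h0 : h = 0 := by omega
    rw [hM0, h0]
    simp
  have hM0 : (0 : ℝ) < M := by exact_mod_cast hMpos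
  -- comparison of the scales
  have k1 : ‖(M : ℂ) * ((t : ℂ) * (1 + Complex.I) - a - b' * Complex.I)‖ ≤ M * (16 * κ) := by
    have e : (M : ℂ) * ((t : ℂ) * (1 + Complex.I) - a - b' * Complex.I) =
        (P h (-h) - P (-h) (-h) - (a : ℂ) * M) +
        (P h h - P h (-h) - (b' : ℂ) * (M * Complex.I)) -
        (P h h - P (-h) (-h) - M * ((t : ℂ) * (1 + Complex.I))) := by ring
    rw [e]
    refine (norm_sub_le _ _).trans ?_
    have := norm_add_le (P h (-h) - P (-h) (-h) - (a : ℂ) * M)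
      (P h h - P h (-h) - (b' : ℂ) * (M * Complex.I))
    linarith
  have k2 : ‖(M : ℂ) * ((t : ℂ) * (1 + Complex.I) - a' - b * Complex.I)‖ ≤ M * (16 * κ) := by
    have e : (M : ℂ) * ((t : ℂ) * (1 + Complex.I) - a' - b * Complex.I) =
        (P (-h) h - P (-h) (-h) - (b : ℂ) * (M * Complex.I)) +
        (P h h - P (-h) h - (a' : ℂ) * M) -
        (P h h - P (-h) (-h) - M * ((t : ℂ) * (1 + Complex.I))) := by ring
    rw [e]
    refine (norm_sub_le _ _).trans ?_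
    have := norm_add_le (P (-h) h - P (-h) (-h) - (b : ℂ) * (M * Complex.I))
      (P h h - P (-h) h - (a' : ℂ) * M)
    linarith
  rw [norm_mul, Complex.norm_natCast] at k1 k2
  have k1' := le_of_mul_le_mul_left k1 hM0
  have k2' := le_of_mul_le_mul_left k2 hM0
  have ta : |t - a| ≤ 16 * κ := by
    have := (Complex.abs_re_le_norm _).trans k1'
    simpa using this
  have tb : |t - b| ≤ 16 * κ := by
    have := (Complex.abs_im_le_norm _).trans k2'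
    simpa using this
  refine ⟨t, t1, t2, ?_, ?_, ?_⟩
  · have e : P h (-h) - P (-h) (-h) - ((t * M : ℝ) : ℂ) =
        (P h (-h) - P (-h) (-h) - (a : ℂ) * M) - (((t - a) * M : ℝ) : ℂ) := by
      push_cast; ring
    rw [e]
    refine (norm_sub_le _ _).trans ?_
    rw [Complex.norm_real, Real.norm_eq_abs, abs_mul, abs_of_pos hM0]
    have := mul_le_mul_of_nonneg_right ta hM0.le
    have h0 : 0 ≤ κ * M := by positivity
    linarith
  · have e : P (-h) h - P (-h) (-h) - ((t * M : ℝ) : ℂ) * Complex.I =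
        (P (-h) h - P (-h) (-h) - (b : ℂ) * (M * Complex.I)) -
        (((t - b) * M : ℝ) : ℂ) * Complex.I := by
      push_cast; ring
    rw [e]
    refine (norm_sub_le _ _).trans ?_
    rw [norm_mul, Complex.norm_I, mul_one, Complex.norm_real, Real.norm_eq_abs, abs_mul,
      abs_of_pos hM0]
    have := mul_le_mul_of_nonneg_right tb hM0.le
    have h0 : 0 ≤ κ * M := by positivity
    linarith
  · have e : P h h - P (-h) (-h) - ((t * M : ℝ) : ℂ) * (1 + Complex.I) =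
        P h h - P (-h) (-h) - M * ((t : ℂ) * (1 + Complex.I)) := by
      push_cast; ring
    rw [e]
    have h0 : 0 ≤ κ * M := by positivity
    linarith

end

end Pool.Agent.Lib.MP_a768d2_coT
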