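import Pool.Agent.Lib.MP_a768d2_coD.Geo
import Pool.Agent.Lib.MP_a768d2_coT.Func

/-! # Step C, part 2: rigidity of a normalised grid -/

namespace Pool.Agent.Lib.MP_a768d2_coT

open Pool.Agent.Lib.MP_a768d2_coG

noncomputable section

/-- a grid with corners in place, with straight rows and with directions close to the right ones -/
structure Pre (Q : ℕ → ℕ → ℂ) (M : ℕ) (η χ B : ℝ) : Prop where
  hη : 0 ≤ η
  hχ : 0 ≤ χ
  c00 : Q 0 0 = 0
  cM0 : Q M 0 = M
  c0M : Q 0 M = M * Complex.I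
  cMM : Q M M = M * (1 + Complex.I)
  tpr : ∀ i j, i ≤ M → j ≤ M → |det2 (Q i j - Q 0 j) (Q M j - Q 0 j)| ≤ M * χ
  tpc : ∀ i j, i ≤ M → j ≤ M → |det2 (Q i j - Q i 0) (Q i M - Q i 0)| ≤ M * χ
  tpd : ∀ i j h, i + 2 * h ≤ M → j + 2 * h ≤ M →
    |det2 (Q (i + h) (j + h) - Q i j) (Q (i + 2 * h) (j + 2 * h) - Q i j)| ≤ h * χ
  tpa : ∀ i j h, i + 2 * h ≤ M → j + 2 * h ≤ M →
    |det2 (Q (i + h) (j + h) - Q i (j + 2 * h)) (Q (i + 2 * h) j - Q i (j + 2 * h))| ≤ h * χ
  dr : ∀ i j, i ≤ M → j ≤ M → |(Q i j).im - (Q 0 j).im| ≤ η * i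
  dc : ∀ i j, i ≤ M → j ≤ M → |(Q i j).re - (Q i 0).re| ≤ η * j
  dd : ∀ i j k, i + k ≤ M → j + k ≤ M →
    |((Q (i + k) (j + k)).im - (Q i j).im) - ((Q (i + k) (j + k)).re - (Q i j).re)| ≤ η * k
  da : ∀ i j k, i + k ≤ M → j + k ≤ M →
    |((Q (i + k) j).im - (Q i (j + k)).im) + ((Q (i + k) j).re - (Q i (j + k)).re)| ≤ η * k
  incx : ∀ i j, i + 1 ≤ M → j ≤ M → |(Q (i + 1) j).re - (Q i j).re| ≤ B
  incy : ∀ i j, i ≤ M → j + 1 ≤ M → |(Q i (j + 1)).im - (Q i j).im| ≤ B

theorem abs_mul_le {x y a b : ℝ} (h1 : |x| ≤ a) (h2 : |y| ≤ b) : |x * y| ≤ a * b := by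
  rw [abs_mul]
  exact mul_le_mul h1 h2 (abs_nonneg _) ((abs_nonneg _).trans h1)

/-- row algebra -/
theorem row_alg {x1 y1 x2 y2 s M S η χ : ℝ} (hM : 0 < M) (hη : 0 ≤ η) (hs0 : 0 ≤ s) (hsM : s ≤ M)
    (hd : |x1 * y2 - y1 * x2| ≤ M * χ) (h1 : |x1 - s| ≤ 2 * S) (h2 : |x2 - M| ≤ 2 * S)
    (hy1 : |y1| ≤ η * s) (hy2 : |y2| ≤ η * M) : |y1 - s * (y2 / M)| ≤ χ + 4 * S * η := by
  have hS : 0 ≤ 2 * S := (abs_nonneg _).trans h1
  have e : M * (y1 - s * (y2 / M)) = -(x1 * y2 - y1 * x2) + ((x1 - s) * y2 - y1 * (x2 - M)) := by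
    field_simp
    ring
  have a1 := abs_mul_le h1 hy2
  have a2 := abs_mul_le hy1 h2
  have a3 : η * s ≤ η * M := mul_le_mul_of_nonneg_left hsM hη
  have a4 : η * s * (2 * S) ≤ η * M * (2 * S) := mul_le_mul_of_nonneg_right a3 hS
  have a5 : M * |y1 - s * (y2 / M)| ≤ M * (χ + 4 * S * η) := by
    have e2 : M * |y1 - s * (y2 / M)| = |M * (y1 - s * (y2 / M))| := by
      rw [abs_mul, abs_of_pos hM]
    rw [e2, e]
    rw [abs_le] at hd a1 a2 ⊢
    constructor <;> nlinarith
  exact le_of_mul_le_mul_left a5 hM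

/-- diagonal algebra -/
theorem dia_alg {x1 x2 d1 d2 h S η χ : ℝ} (hh : 0 < h) (hd : |x1 * d2 - d1 * x2| ≤ h * χ)
    (h1 : |x1 - h| ≤ 2 * S) (h2 : |x2 - 2 * h| ≤ 2 * S) (hd1 : |d1| ≤ η * h)
    (hd2 : |d2| ≤ η * (2 * h)) : |d2 - 2 * d1| ≤ χ + 6 * S * η := by
  have e : h * (d2 - 2 * d1) = (x1 * d2 - d1 * x2) - ((x1 - h) * d2 - d1 * (x2 - 2 * h)) := by
    ring
  have a1 := abs_mul_le h1 hd2
  have a2 := abs_mul_le hd1 h2
  have a5 : h * |d2 - 2 * d1| ≤ h * (χ + 6 * S * η) := by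
    have e2 : h * |d2 - 2 * d1| = |h * (d2 - 2 * d1)| := by
      rw [abs_mul, abs_of_pos hh]
    rw [e2, e]
    rw [abs_le] at hd a1 a2 ⊢
    constructor <;> nlinarith
  exact le_of_mul_le_mul_left a5 hh

variable {Q : ℕ → ℕ → ℂ} {M : ℕ} {η χ B : ℝ}

theorem Pre.web (p : Pre Q M η χ B) (hM : 0 < M) {S : ℝ}
    (h1 : ∀ i j, i ≤ M → j ≤ M → |(Q i j).re - i| ≤ S)
    (h2 : ∀ i j, i ≤ M → j ≤ M → |(Q i j).im - j| ≤ S) :
    Web M (χ + 6 * S * η + 2 * (B + 1)) (fun i j => (Q i j).re - i) (fun i j => (Q i j).im - j)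
      (fun i => (Q i 0).re - i) (fun j => (Q 0 j).im - j)
      (fun j => ((Q M j).im - (Q 0 j).im) / M) (fun i => ((Q i M).re - (Q i 0).re) / M) := by
  have hMr : (0 : ℝ) < M := by exact_mod_cast hM
  have hη := p.hη
  have hχ := p.hχ
  have hS : 0 ≤ S := (abs_nonneg _).trans (h1 0 0 (by omega) (by omega))
  have hB : 0 ≤ B := (abs_nonneg _).trans (p.incx 0 0 (by omega) (by omega))
  have hSη : 0 ≤ S * η := mul_nonneg hS hη
  refine ⟨?_, ?_, ?_, ?_, ?_, ?_⟩
  · intro i j hi hj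
    have hi' : (i : ℝ) ≤ M := by exact_mod_cast hi
    have hd := p.tpr i j hi hj
    simp only [det2, Complex.sub_re, Complex.sub_im] at hd
    have a1 := abs_le.mp (h1 i j hi hj)
    have a2 := abs_le.mp (h1 0 j (by omega) hj)
    have a3 := abs_le.mp (h1 M j le_rfl hj)
    push_cast at a2
    have := row_alg hMr hη (Nat.cast_nonneg i) hi' hd (by rw [abs_le]; constructor <;> linarith)
      (S := S) (by rw [abs_le]; constructor <;> linarith) (p.dr i j hi hj) (p.dr M j le_rfl hj)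
    have e : (Q i j).im - j - ((Q 0 j).im - j + i * (((Q M j).im - (Q 0 j).im) / M)) =
        (Q i j).im - (Q 0 j).im - i * (((Q M j).im - (Q 0 j).im) / M) := by ring
    rw [e]
    linarith
  · intro i j hi hj
    have hj' : (j : ℝ) ≤ M := by exact_mod_cast hj
    have hd := p.tpc i j hi hj
    simp only [det2, Complex.sub_re, Complex.sub_im] at hd
    have a1 := abs_le.mp (h2 i j hi hj)
    have a2 := abs_le.mp (h2 i 0 hi (by omega))
    have a3 := abs_le.mp (h2 i M hi le_rfl)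
    push_cast at a2
    have := row_alg (x1 := (Q i j).im - (Q i 0).im) (x2 := (Q i M).im - (Q i 0).im)
      (y1 := (Q i j).re - (Q i 0).re) (y2 := (Q i M).re - (Q i 0).re) hMr hη (Nat.cast_nonneg j)
      hj' (by
        rw [abs_sub_comm]
        refine le_trans (le_of_eq ?_) hd
        congr 1) (by rw [abs_le]; constructor <;> linarith)
      (S := S) (by rw [abs_le]; constructor <;> linarith) (p.dc i j hi hj) (p.dc i M hi le_rfl)
    have e : (Q i j).re - i - ((Q i 0).re - i + j * (((Q i M).re - (Q i 0).re) / M)) =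
        (Q i j).re - (Q i 0).re - j * (((Q i M).re - (Q i 0).re) / M) := by ring
    rw [e]
    linarith
  · intro i j h hi hj
    rcases Nat.eq_zero_or_pos h with h0 | h0
    · subst h0
      simp only [mul_zero, add_zero]
      have e : (Q i j).im - j - ((Q i j).re - i) - 2 * ((Q i j).im - j - ((Q i j).re - i)) +
          ((Q i j).im - j - ((Q i j).re - i)) = 0 := by ring
      rw [e, abs_zero]
      linarith
    have h0r : (0 : ℝ) < h := by exact_mod_cast h0
    have hd := p.tpd i j h hi hj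
    simp only [det2, Complex.sub_re, Complex.sub_im] at hd
    have a1 := abs_le.mp (h1 i j (by omega) (by omega))
    have a2 := abs_le.mp (h1 (i + h) (j + h) (by omega) (by omega))
    have a3 := abs_le.mp (h1 (i + 2 * h) (j + 2 * h) hi hj)
    push_cast at a2 a3
    have d1 := p.dd i j h (by omega) (by omega)
    have d2 := p.dd i j (2 * h) hi hj
    push_cast at d2
    have := dia_alg (x1 := (Q (i + h) (j + h)).re - (Q i j).re)
      (x2 := (Q (i + 2 * h) (j + 2 * h)).re - (Q i j).re) (S := S) h0r (by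
        refine le_trans (le_of_eq ?_) hd
        congr 1
        ring) (by rw [abs_le]; constructor <;> linarith)
      (by rw [abs_le]; constructor <;> linarith) d1 d2
    push_cast
    refine (le_trans (le_of_eq ?_) this).trans (by linarith)
    congr 1
    ring
  · intro i j h hi hj
    rcases Nat.eq_zero_or_pos h with h0 | h0
    · subst h0
      simp only [mul_zero, add_zero]
      have e : (Q i j).re - i + ((Q i j).im - j) - 2 * ((Q i j).re - i + ((Q i j).im - j)) +
          ((Q i j).re - i + ((Q i j).im - j)) = 0 := by ring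
      rw [e, abs_zero]
      linarith
    have h0r : (0 : ℝ) < h := by exact_mod_cast h0
    have hd := p.tpa i j h hi hj
    simp only [det2, Complex.sub_re, Complex.sub_im] at hd
    have a1 := abs_le.mp (h1 i (j + 2 * h) (by omega) (by omega))
    have a2 := abs_le.mp (h1 (i + h) (j + h) (by omega) (by omega))
    have a3 := abs_le.mp (h1 (i + 2 * h) j hi (by omega))
    push_cast at a1 a2 a3
    have d1 := p.da i (j + h) h (by omega) (by omega)
    have d2 := p.da i j (2 * h) hi hj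
    have ej : j + h + h = j + 2 * h := by ring
    rw [ej] at d1
    push_cast at d2
    have := dia_alg (x1 := (Q (i + h) (j + h)).re - (Q i (j + 2 * h)).re)
      (x2 := (Q (i + 2 * h) j).re - (Q i (j + 2 * h)).re) (S := S) h0r (by
        refine le_trans (le_of_eq ?_) hd
        congr 1
        ring) (by rw [abs_le]; constructor <;> linarith)
      (by rw [abs_le]; constructor <;> linarith) d1 d2
    push_cast
    refine (le_trans (le_of_eq ?_) this).trans (by linarith)
    congr 1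
    ring
  · intro j hj
    have i1 := abs_le.mp (p.incy M j le_rfl hj)
    have i2 := abs_le.mp (p.incy 0 j (by omega) hj)
    rw [← sub_div, abs_div, abs_of_pos hMr]
    apply div_le_div_of_nonneg_right _ hMr.le
    rw [abs_le]
    constructor <;> linarith
  · intro i hi
    have i1 := abs_le.mp (p.incx i M hi le_rfl)
    have i2 := abs_le.mp (p.incx i 0 hi (by omega))
    rw [← sub_div, abs_div, abs_of_pos hMr]
    apply div_le_div_of_nonneg_right _ hMr.le
    rw [abs_le]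
    constructor <;> linarith

theorem Pre.bound (p : Pre Q M η χ B) {m : ℕ} (hm : 0 < m) (hM : M = 16 * m)
    (hη : 12 * 10 ^ 6 * η ≤ 1) (i j : ℕ) (hi : i ≤ M) (hj : j ≤ M) :
    ‖Q i j - ((i : ℂ) + (j : ℂ) * Complex.I)‖ ≤ 4 * 10 ^ 6 * (χ + 2 * (B + 1)) := by
  have hM0 : 0 < M := by omega
  -- the largest displacement
  set f : ℕ × ℕ → ℝ := fun q => max |(Q q.1 q.2).re - q.1| |(Q q.1 q.2).im - q.2| with hf
  obtain ⟨q0, hq0, hmax⟩ := Finset.exists_max_image (Finset.range (M + 1) ×ˢ Finset.range (M + 1)) f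
    ⟨(0, 0), by simp⟩
  rw [Finset.mem_product, Finset.mem_range, Finset.mem_range] at hq0
  set S := f q0 with hS
  have hle : ∀ i j, i ≤ M → j ≤ M → f (i, j) ≤ S := fun i j hi hj => hmax (i, j) (by
    rw [Finset.mem_product, Finset.mem_range, Finset.mem_range]
    exact ⟨by simpa using (by omega : i < M + 1), by simpa using (by omega : j < M + 1)⟩)
  have h1 : ∀ i j, i ≤ M → j ≤ M → |(Q i j).re - i| ≤ S :=
    fun i j hi hj => (le_max_left _ _).trans (hle i j hi hj)
  have h2 : ∀ i j, i ≤ M → j ≤ M → |(Q i j).im - j| ≤ S :=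
    fun i j hi hj => (le_max_right _ _).trans (hle i j hi hj)
  have W := p.web hM0 h1 h2
  have hb := fun i j hi hj => W.bound m hm hM (by rw [p.c00]; simp) (by rw [p.cM0]; simp)
    (by rw [p.c0M]; simp) (by rw [p.cMM]; simp) (by rw [p.c00]; simp) (by rw [p.cM0]; simp)
    (by rw [p.c0M]; simp) (by rw [p.cMM]; simp) i j hi hj
  have hq := hb q0.1 q0.2 (by omega) (by omega)
  have hS2 : S ≤ 10 ^ 6 * (χ + 6 * S * η + 2 * (B + 1)) := by
    rw [hS, hf]
    exact max_le hq.1 hq.2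
  have hS0 : 0 ≤ S := (abs_nonneg _).trans (h1 0 0 (by omega) (by omega))
  have hSη : 12 * 10 ^ 6 * η * S ≤ 1 * S := mul_le_mul_of_nonneg_right hη hS0
  have hS3 : S ≤ 2 * 10 ^ 6 * (χ + 2 * (B + 1)) := by linarith
  refine (Complex.norm_le_abs_re_add_abs_im _).trans ?_
  have a1 := h1 i j hi hj
  have a2 := h2 i j hi hj
  simp only [Complex.sub_re, Complex.sub_im, Complex.add_re, Complex.add_im, Complex.natCast_re,
    Complex.natCast_im, Complex.mul_re, Complex.mul_im, Complex.I_re, Complex.I_im, mul_zero,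
    mul_one, zero_mul, sub_zero, add_zero, zero_add, sub_self]
  linarith

end

end Pool.Agent.Lib.MP_a768d2_coT
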