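import Pool.Agent.Lib.MP_a768d2_coG.Grid

/-! # Step C: projective normalisation of a nearly square quadrilateral, normalised form -/

namespace Pool.Agent.Lib.MP_a768d2_coT

open Pool.Agent.Lib.MP_a768d2_coG

noncomputable section

/-- the determinant identity of a projective map, in coordinates -/
theorem ProjCore_det {α β Δ c1 c2 b1 b2 x1 x2 y1 y2 z1 z2 qx qy qz : ℝ} (hΔ0 : Δ ≠ 0) (hΔ : Δ = b1 * c2 - b2 * c1)
    (hqx : qx = 1 + (α - 1) * ((x1 * c2 - x2 * c1) / Δ) + (β - 1) * ((b1 * x2 - b2 * x1) / Δ))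
    (hqy : qy = 1 + (α - 1) * ((y1 * c2 - y2 * c1) / Δ) + (β - 1) * ((b1 * y2 - b2 * y1) / Δ))
    (hqz : qz = 1 + (α - 1) * ((z1 * c2 - z2 * c1) / Δ) + (β - 1) * ((b1 * z2 - b2 * z1) / Δ))
    (hx0 : qx ≠ 0) (hy0 : qy ≠ 0) (hz0 : qz ≠ 0) :
    (α * ((y1 * c2 - y2 * c1) / Δ) / qy - α * ((x1 * c2 - x2 * c1) / Δ) / qx) *
        (β * ((b1 * z2 - b2 * z1) / Δ) / qz - β * ((b1 * x2 - b2 * x1) / Δ) / qx) -
      (β * ((b1 * y2 - b2 * y1) / Δ) / qy - β * ((b1 * x2 - b2 * x1) / Δ) / qx) *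
        (α * ((z1 * c2 - z2 * c1) / Δ) / qz - α * ((x1 * c2 - x2 * c1) / Δ) / qx) =
      α * β / Δ / (qx * qy * qz) * ((y1 - x1) * (z2 - x2) - (y2 - x2) * (z1 - x1)) := by
  -- homogeneous form
  obtain ⟨X1, hX1⟩ : ∃ X1, X1 = (x1 * c2 - x2 * c1) / Δ := ⟨_, rfl⟩
  obtain ⟨X2, hX2⟩ : ∃ X2, X2 = (b1 * x2 - b2 * x1) / Δ := ⟨_, rfl⟩
  obtain ⟨Y1, hY1⟩ : ∃ Y1, Y1 = (y1 * c2 - y2 * c1) / Δ := ⟨_, rfl⟩
  obtain ⟨Y2, hY2⟩ : ∃ Y2, Y2 = (b1 * y2 - b2 * y1) / Δ := ⟨_, rfl⟩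
  obtain ⟨Z1, hZ1⟩ : ∃ Z1, Z1 = (z1 * c2 - z2 * c1) / Δ := ⟨_, rfl⟩
  obtain ⟨Z2, hZ2⟩ : ∃ Z2, Z2 = (b1 * z2 - b2 * z1) / Δ := ⟨_, rfl⟩
  rw [← hX1, ← hX2] at hqx
  rw [← hY1, ← hY2] at hqy
  rw [← hZ1, ← hZ2] at hqz
  rw [← hX1, ← hX2, ← hY1, ← hY2, ← hZ1, ← hZ2]
  have e1 : (α * Y1 / qy - α * X1 / qx) * (β * Z2 / qz - β * X2 / qx) -
      (β * Y2 / qy - β * X2 / qx) * (α * Z1 / qz - α * X1 / qx) =
      α * β / (qx * qy * qz) * ((Y1 - X1) * (Z2 - X2) - (Y2 - X2) * (Z1 - X1)) := by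
    have e2 : (α * Y1 / qy - α * X1 / qx) * (β * Z2 / qz - β * X2 / qx) -
        (β * Y2 / qy - β * X2 / qx) * (α * Z1 / qz - α * X1 / qx) =
        α * β / (qx * qy * qz) * (qx * (Y1 * Z2 - Y2 * Z1) - qy * (X1 * Z2 - X2 * Z1) + qz * (X1 * Y2 - X2 * Y1)) := by
      field_simp
      ring
    rw [e2, hqx, hqy, hqz]
    ring
  rw [e1]
  have e3 : (Y1 - X1) * (Z2 - X2) - (Y2 - X2) * (Z1 - X1) =
      ((y1 - x1) * (z2 - x2) - (y2 - x2) * (z1 - x1)) / Δ := by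
    rw [hX1, hX2, hY1, hY2, hZ1, hZ2]
    field_simp
    rw [hΔ]
    ring
  rw [e3]
  field_simp

theorem ProjCore_lin {η : ℝ} (hη : 0 ≤ η) (hη1 : η ≤ 1 / 1000) {b c : ℂ} (hb : ‖b - 1‖ ≤ η)
    (hc : ‖c - Complex.I‖ ≤ η) :
    |det2 b c - 1| ≤ 3 * η ∧ (∀ u : ℂ, |det2 u c / det2 b c - u.re| ≤ 6 * η * ‖u‖) ∧
      (∀ u : ℂ, |det2 b u / det2 b c - u.im| ≤ 6 * η * ‖u‖) := by
  have hb1 : |b.re - 1| ≤ η := by
    have := Complex.abs_re_le_norm (b - 1)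
    simp at this
    linarith
  have hb2 : |b.im| ≤ η := by
    have := Complex.abs_im_le_norm (b - 1)
    simp at this
    linarith
  have hc1 : |c.re| ≤ η := by
    have := Complex.abs_re_le_norm (c - Complex.I)
    simp at this
    linarith
  have hc2 : |c.im - 1| ≤ η := by
    have := Complex.abs_im_le_norm (c - Complex.I)
    simp at this
    linarith
  have hΔ : |det2 b c - 1| ≤ 3 * η := by
    have e1 : det2 b c - 1 = (b.re - 1) + (c.im - 1) + (b.re - 1) * (c.im - 1) - b.im * c.re := by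
      simp only [det2]; ring
    have p1 : |(b.re - 1) * (c.im - 1)| ≤ η * η := by
      rw [abs_mul]; exact mul_le_mul hb1 hc2 (abs_nonneg _) hη
    have p2 : |b.im * c.re| ≤ η * η := by
      rw [abs_mul]; exact mul_le_mul hb2 hc1 (abs_nonneg _) hη
    have p3 : η * η ≤ 1 / 1000 * η := mul_le_mul_of_nonneg_right hη1 hη
    rw [e1]
    rw [abs_le] at *
    constructor <;> linarith [hb1.1, hb1.2, hc2.1, hc2.2, p1.1, p1.2, p2.1, p2.2]
  have hΔ' := abs_le.mp hΔ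
  have hΔpos : 0 < det2 b c := by linarith [hΔ'.1]
  have hΔlow : 997 / 1000 ≤ det2 b c := by linarith [hΔ'.1]
  refine ⟨hΔ, fun u => ?_, fun u => ?_⟩
  · have e1 : det2 u c / det2 b c - u.re =
        (u.re * (c.im - det2 b c) - u.im * c.re) / det2 b c := by
      field_simp
      simp only [det2]
      ring
    rw [e1, abs_div, abs_of_pos hΔpos, div_le_iff₀ hΔpos]
    have q1 : |u.re * (c.im - det2 b c)| ≤ ‖u‖ * (4 * η) := by
      rw [abs_mul]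
      refine mul_le_mul (Complex.abs_re_le_norm u) ?_ (abs_nonneg _) (norm_nonneg _)
      rw [abs_le] at *
      constructor <;> linarith [hc2.1, hc2.2, hΔ.1, hΔ.2]
    have q2 : |u.im * c.re| ≤ ‖u‖ * η := by
      rw [abs_mul]
      exact mul_le_mul (Complex.abs_im_le_norm u) hc1 (abs_nonneg _) (norm_nonneg _)
    have q3 : |u.re * (c.im - det2 b c) - u.im * c.re| ≤ ‖u‖ * (4 * η) + ‖u‖ * η :=
      (abs_sub _ _).trans (add_le_add q1 q2)
    have q4 : 0 ≤ η * ‖u‖ := by positivity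
    have q5 : 6 * η * ‖u‖ * (997 / 1000) ≤ 6 * η * ‖u‖ * det2 b c :=
      mul_le_mul_of_nonneg_left hΔlow (by positivity)
    linarith
  · have e1 : det2 b u / det2 b c - u.im =
        (u.im * (b.re - det2 b c) - u.re * b.im) / det2 b c := by
      field_simp
      simp only [det2]
      ring
    rw [e1, abs_div, abs_of_pos hΔpos, div_le_iff₀ hΔpos]
    have q1 : |u.im * (b.re - det2 b c)| ≤ ‖u‖ * (4 * η) := by
      rw [abs_mul]
      refine mul_le_mul (Complex.abs_im_le_norm u) ?_ (abs_nonneg _) (norm_nonneg _)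
      rw [abs_le] at *
      constructor <;> linarith [hb1.1, hb1.2, hΔ.1, hΔ.2]
    have q2 : |u.re * b.im| ≤ ‖u‖ * η := by
      rw [abs_mul]
      exact mul_le_mul (Complex.abs_re_le_norm u) hb2 (abs_nonneg _) (norm_nonneg _)
    have q3 : |u.im * (b.re - det2 b c) - u.re * b.im| ≤ ‖u‖ * (4 * η) + ‖u‖ * η :=
      (abs_sub _ _).trans (add_le_add q1 q2)
    have q4 : 0 ≤ η * ‖u‖ := by positivity
    have q5 : 6 * η * ‖u‖ * (997 / 1000) ≤ 6 * η * ‖u‖ * det2 b c :=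
      mul_le_mul_of_nonneg_left hΔlow (by positivity)
    linarith

theorem ProjCore_ab {η : ℝ} (hη : 0 ≤ η) (hη1 : η ≤ 1 / 1000) {X Y : ℝ} (hX : |X - 1| ≤ 10 * η)
    (hY : |Y - 1| ≤ 10 * η) : |(X + Y - 1) / X - 1| ≤ 11 * η := by
  have hX' := abs_le.mp hX
  have hXpos : 0 < X := by linarith [hX'.1]
  have e1 : (X + Y - 1) / X - 1 = (Y - 1) / X := by
    field_simp
    ring
  rw [e1, abs_div, abs_of_pos hXpos, div_le_iff₀ hXpos]
  have h1 : 11 * η * (99 / 100) ≤ 11 * η * X :=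
    mul_le_mul_of_nonneg_left (by linarith [hX'.1]) (by positivity)
  linarith

/-- the map with the coordinates as parameters -/
theorem ProjCore_main {η R : ℝ} (hη : 0 ≤ η) (hR : 1 ≤ R) (hηR : η * R ≤ 1 / 1000) {α β : ℝ}
    (hα : |α - 1| ≤ 11 * η) (hβ : |β - 1| ≤ 11 * η) {X Y : ℂ → ℝ}
    (hX : ∀ u, |X u - u.re| ≤ 6 * η * ‖u‖) (hY : ∀ u, |Y u - u.im| ≤ 6 * η * ‖u‖)
    (hXs : ∀ x y, X (y - x) = X y - X x) (hYs : ∀ x y, Y (y - x) = Y y - Y x) {q : ℂ → ℝ}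
    (hq : ∀ u, q u = 1 + (α - 1) * X u + (β - 1) * Y u) {H : ℂ → ℂ}
    (hH : ∀ u, H u = ((α * X u : ℝ) + (β * Y u : ℝ) * Complex.I) / (q u : ℂ)) :
    (∀ u, ‖u‖ ≤ R → |q u - 1| ≤ 23 * (η * R)) ∧
      (∀ x y, ‖x‖ ≤ R → ‖y‖ ≤ R → ‖H y - H x - (y - x)‖ ≤ 132 * (η * R) * ‖y - x‖) := by
  have hη1 : η ≤ 1 / 1000 := by
    have := mul_le_mul_of_nonneg_left hR hη
    linarith
  have hηR0 : 0 ≤ η * R := mul_nonneg hη (by linarith)
  have hηη : η ≤ η * R := by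
    have := mul_le_mul_of_nonneg_left hR hη
    linarith
  have hXn : ∀ u, |X u| ≤ 1006 / 1000 * ‖u‖ := by
    intro u
    have h1 : |X u| ≤ |X u - u.re| + |u.re| := by
      have := abs_add_le (X u - u.re) u.re
      rwa [sub_add_cancel] at this
    have h2 := Complex.abs_re_le_norm u
    have h3 := hX u
    have h4 : η * ‖u‖ ≤ 1 / 1000 * ‖u‖ := mul_le_mul_of_nonneg_right hη1 (norm_nonneg _)
    linarith
  have hYn : ∀ u, |Y u| ≤ 1006 / 1000 * ‖u‖ := by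
    intro u
    have h1 : |Y u| ≤ |Y u - u.im| + |u.im| := by
      have := abs_add_le (Y u - u.im) u.im
      rwa [sub_add_cancel] at this
    have h2 := Complex.abs_im_le_norm u
    have h3 := hY u
    have h4 : η * ‖u‖ ≤ 1 / 1000 * ‖u‖ := mul_le_mul_of_nonneg_right hη1 (norm_nonneg _)
    linarith
  -- the linear part of `q`
  have hl : ∀ u, |(α - 1) * X u + (β - 1) * Y u| ≤ 22132 / 1000 * (η * ‖u‖) := by
    intro u
    have h1 : |(α - 1) * X u| ≤ 11 * η * (1006 / 1000 * ‖u‖) := by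
      rw [abs_mul]; exact mul_le_mul hα (hXn u) (abs_nonneg _) (by positivity)
    have h2 : |(β - 1) * Y u| ≤ 11 * η * (1006 / 1000 * ‖u‖) := by
      rw [abs_mul]; exact mul_le_mul hβ (hYn u) (abs_nonneg _) (by positivity)
    have h3 := abs_add_le ((α - 1) * X u) ((β - 1) * Y u)
    linarith
  have hqR : ∀ u, ‖u‖ ≤ R → |q u - 1| ≤ 23 * (η * R) := by
    intro u hu
    have h1 : q u - 1 = (α - 1) * X u + (β - 1) * Y u := by rw [hq u]; ring
    rw [h1]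
    have h2 : η * ‖u‖ ≤ η * R := mul_le_mul_of_nonneg_left hu hη
    have h3 := hl u
    linarith
  refine ⟨hqR, fun x y hx hy => ?_⟩
  -- the numerator
  obtain ⟨T, hT⟩ : ∃ T : ℂ → ℂ, ∀ u, T u = (α * X u : ℝ) + (β * Y u : ℝ) * Complex.I :=
    ⟨fun u => (α * X u : ℝ) + (β * Y u : ℝ) * Complex.I, fun u => rfl⟩
  have hTs : T (y - x) = T y - T x := by
    rw [hT, hT, hT, hXs, hYs]
    push_cast
    ring
  have hTn : ∀ u, ‖T u - u‖ ≤ 36 * (η * ‖u‖) := by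
    intro u
    have hηu : 0 ≤ η * ‖u‖ := by positivity
    have h1 : |α * X u - u.re| ≤ 18 * (η * ‖u‖) := by
      have e1 : α * X u - u.re = (α - 1) * X u + (X u - u.re) := by ring
      have h2 : |(α - 1) * X u| ≤ 11 * η * (1006 / 1000 * ‖u‖) := by
        rw [abs_mul]; exact mul_le_mul hα (hXn u) (abs_nonneg _) (by positivity)
      have h3 := abs_add_le ((α - 1) * X u) (X u - u.re)
      have h4 := hX u
      rw [e1]
      linarith
    have h2 : |β * Y u - u.im| ≤ 18 * (η * ‖u‖) := by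
      have e1 : β * Y u - u.im = (β - 1) * Y u + (Y u - u.im) := by ring
      have h2 : |(β - 1) * Y u| ≤ 11 * η * (1006 / 1000 * ‖u‖) := by
        rw [abs_mul]; exact mul_le_mul hβ (hYn u) (abs_nonneg _) (by positivity)
      have h3 := abs_add_le ((β - 1) * Y u) (Y u - u.im)
      have h4 := hY u
      rw [e1]
      linarith
    have h3 := Complex.norm_le_abs_re_add_abs_im (T u - u)
    have h4 : (T u - u).re = α * X u - u.re := by rw [hT]; simp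
    have h5 : (T u - u).im = β * Y u - u.im := by rw [hT]; simp
    rw [h4, h5] at h3
    linarith
  -- denominators
  have hqx := abs_le.mp (hqR x hx)
  have hqy := abs_le.mp (hqR y hy)
  have hx0 : 977 / 1000 ≤ q x := by linarith [hqx.1]
  have hy0 : 977 / 1000 ≤ q y := by linarith [hqy.1]
  have hxp : 0 < q x := by linarith
  have hyp : 0 < q y := by linarith
  have hxc : (q x : ℂ) ≠ 0 := by exact_mod_cast hxp.ne'
  have hyc : (q y : ℂ) ≠ 0 := by exact_mod_cast hyp.ne'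
  -- `‖H x‖`
  have hHx : ‖H x‖ ≤ 11 / 10 * R := by
    rw [hH x, ← hT x, norm_div, Complex.norm_real, Real.norm_of_nonneg hxp.le, div_le_iff₀ hxp]
    have h1 : ‖T x‖ ≤ ‖T x - x‖ + ‖x‖ := by
      have := norm_add_le (T x - x) x
      rwa [sub_add_cancel] at this
    have h2 := hTn x
    have h3 : η * ‖x‖ ≤ 1 / 1000 * R := mul_le_mul hη1 hx (norm_nonneg _) (by norm_num)
    have h4 : 11 / 10 * R * (977 / 1000) ≤ 11 / 10 * R * q x :=
      mul_le_mul_of_nonneg_left hx0 (by positivity)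
    linarith
  have hqd : |q y - q x| ≤ 22132 / 1000 * (η * ‖y - x‖) := by
    have e1 : q y - q x = (α - 1) * X (y - x) + (β - 1) * Y (y - x) := by
      rw [hq, hq, hXs, hYs]; ring
    rw [e1]
    exact hl _
  -- the decomposition
  have key : H y - H x - (y - x) =
      ((T (y - x) - (y - x)) - ((q y - 1 : ℝ) : ℂ) * (y - x) - H x * ((q y - q x : ℝ) : ℂ)) / (q y : ℂ) := by
    rw [hTs, hH y, hH x, ← hT y, ← hT x]
    field_simp
    push_cast
    ring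
  rw [key, norm_div, Complex.norm_real, Real.norm_of_nonneg hyp.le, div_le_iff₀ hyp]
  have hv := norm_nonneg (y - x)
  have hηv : η * ‖y - x‖ ≤ η * R * ‖y - x‖ := mul_le_mul_of_nonneg_right hηη hv
  have n1 := hTn (y - x)
  have n2 : ‖((q y - 1 : ℝ) : ℂ) * (y - x)‖ ≤ 23 * (η * R) * ‖y - x‖ := by
    rw [norm_mul, Complex.norm_real, Real.norm_eq_abs]
    exact mul_le_mul_of_nonneg_right (hqR y hy) hv
  have n3 : ‖H x * ((q y - q x : ℝ) : ℂ)‖ ≤ 11 / 10 * R * (22132 / 1000 * (η * ‖y - x‖)) := by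
    rw [norm_mul, Complex.norm_real, Real.norm_eq_abs]
    exact mul_le_mul hHx hqd (abs_nonneg _) (by positivity)
  have n4 := norm_sub_le ((T (y - x) - (y - x)) - ((q y - 1 : ℝ) : ℂ) * (y - x)) (H x * ((q y - q x : ℝ) : ℂ))
  have n5 := norm_sub_le (T (y - x) - (y - x)) (((q y - 1 : ℝ) : ℂ) * (y - x))
  have n6 : 0 ≤ η * R * ‖y - x‖ := by positivity
  have n7 : 132 * (η * R) * ‖y - x‖ * (977 / 1000) ≤ 132 * (η * R) * ‖y - x‖ * q y :=
    mul_le_mul_of_nonneg_left hy0 (by positivity)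
  have n8 : 11 / 10 * R * (22132 / 1000 * (η * ‖y - x‖)) = 11 / 10 * (22132 / 1000) * (η * R * ‖y - x‖) := by ring
  rw [n8] at n3
  linarith

theorem ProjCore (η R : ℝ) (hη : 0 ≤ η) (hR : 1 ≤ R) (hηR : η * R ≤ 1 / 1000) (b c d : ℂ)
    (hb : ‖b - 1‖ ≤ η) (hc : ‖c - Complex.I‖ ≤ η) (hd : ‖d - (1 + Complex.I)‖ ≤ η) :
    ∃ (H : ℂ → ℂ) (q : ℂ → ℝ) (K : ℝ), H 0 = 0 ∧ H b = 1 ∧ H c = Complex.I ∧ H d = 1 + Complex.I ∧
      9 / 10 ≤ K ∧ K ≤ 11 / 10 ∧
      (∀ u, ‖u‖ ≤ R → |q u - 1| ≤ 23 * (η * R)) ∧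
      (∀ x y z, ‖x‖ ≤ R → ‖y‖ ≤ R → ‖z‖ ≤ R →
        det2 (H y - H x) (H z - H x) = K / (q x * q y * q z) * det2 (y - x) (z - x)) ∧
      (∀ x y, ‖x‖ ≤ R → ‖y‖ ≤ R → ‖H y - H x - (y - x)‖ ≤ 132 * (η * R) * ‖y - x‖) := by
  have hη1 : η ≤ 1 / 1000 := by
    have := mul_le_mul_of_nonneg_left hR hη
    linarith
  obtain ⟨hΔ, hX, hY⟩ := ProjCore_lin hη hη1 hb hc
  have hΔ' := abs_le.mp hΔ
  have hΔpos : 0 < det2 b c := by linarith [hΔ'.1]
  have hΔ0 : det2 b c ≠ 0 := hΔpos.ne'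
  have hdn : ‖d‖ ≤ 3 / 2 := by
    have h1 : ‖d‖ ≤ ‖d - (1 + Complex.I)‖ + ‖1 + Complex.I‖ := by
      have := norm_add_le (d - (1 + Complex.I)) (1 + Complex.I)
      rwa [sub_add_cancel] at this
    have h2 : ‖(1 + Complex.I : ℂ)‖ ≤ 1415 / 1000 := by
      rw [Complex.norm_def]
      apply Real.sqrt_le_iff.mpr
      constructor
      · norm_num
      · simp [Complex.normSq_apply]; norm_num
    linarith
  have hd1 : |d.re - 1| ≤ η := by
    have := Complex.abs_re_le_norm (d - (1 + Complex.I))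
    simp at this
    linarith
  have hd2 : |d.im - 1| ≤ η := by
    have := Complex.abs_im_le_norm (d - (1 + Complex.I))
    simp at this
    linarith
  have hXd : |det2 d c / det2 b c - 1| ≤ 10 * η := by
    have h1 := hX d
    have h2 : 6 * η * ‖d‖ ≤ 6 * η * (3 / 2) := mul_le_mul_of_nonneg_left hdn (by positivity)
    have h3 := abs_add_le (det2 d c / det2 b c - d.re) (d.re - 1)
    rw [sub_add_sub_cancel] at h3
    linarith
  have hYd : |det2 b d / det2 b c - 1| ≤ 10 * η := by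
    have h1 := hY d
    have h2 : 6 * η * ‖d‖ ≤ 6 * η * (3 / 2) := mul_le_mul_of_nonneg_left hdn (by positivity)
    have h3 := abs_add_le (det2 b d / det2 b c - d.im) (d.im - 1)
    rw [sub_add_sub_cancel] at h3
    linarith
  obtain ⟨Xd, hXde⟩ : ∃ Xd, Xd = det2 d c / det2 b c := ⟨_, rfl⟩
  obtain ⟨Yd, hYde⟩ : ∃ Yd, Yd = det2 b d / det2 b c := ⟨_, rfl⟩
  rw [← hXde] at hXd
  rw [← hYde] at hYd
  have hα := ProjCore_ab hη hη1 hXd hYd
  have hβ := ProjCore_ab hη hη1 hYd hXd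
  rw [add_comm Yd Xd] at hβ
  obtain ⟨w, hw⟩ : ∃ w, w = Xd + Yd - 1 := ⟨_, rfl⟩
  rw [← hw] at hα hβ
  obtain ⟨α, hαe⟩ : ∃ α, α = w / Xd := ⟨_, rfl⟩
  obtain ⟨β, hβe⟩ : ∃ β, β = w / Yd := ⟨_, rfl⟩
  rw [← hαe] at hα
  rw [← hβe] at hβ
  have hXd' := abs_le.mp hXd
  have hYd' := abs_le.mp hYd
  have hα' := abs_le.mp hα
  have hβ' := abs_le.mp hβ
  have hXd0 : Xd ≠ 0 := by
    have : 0 < Xd := by linarith [hXd'.1]
    exact this.ne'
  have hYd0 : Yd ≠ 0 := by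
    have : 0 < Yd := by linarith [hYd'.1]
    exact this.ne'
  have hw0 : w ≠ 0 := by
    have : 0 < w := by linarith [hXd'.1, hYd'.1]
    exact this.ne'
  have hα0 : α ≠ 0 := by
    have : 0 < α := by linarith [hα'.1]
    exact this.ne'
  have hβ0 : β ≠ 0 := by
    have : 0 < β := by linarith [hβ'.1]
    exact this.ne'
  obtain ⟨X, hXe⟩ : ∃ X : ℂ → ℝ, ∀ u, X u = det2 u c / det2 b c := ⟨fun u => det2 u c / det2 b c, fun u => rfl⟩
  obtain ⟨Y, hYe⟩ : ∃ Y : ℂ → ℝ, ∀ u, Y u = det2 b u / det2 b c := ⟨fun u => det2 b u / det2 b c, fun u => rfl⟩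
  obtain ⟨q, hq⟩ : ∃ q : ℂ → ℝ, ∀ u, q u = 1 + (α - 1) * X u + (β - 1) * Y u :=
    ⟨fun u => 1 + (α - 1) * X u + (β - 1) * Y u, fun u => rfl⟩
  obtain ⟨H, hH⟩ : ∃ H : ℂ → ℂ, ∀ u, H u = ((α * X u : ℝ) + (β * Y u : ℝ) * Complex.I) / (q u : ℂ) :=
    ⟨fun u => ((α * X u : ℝ) + (β * Y u : ℝ) * Complex.I) / (q u : ℂ), fun u => rfl⟩
  have hX' : ∀ u, |X u - u.re| ≤ 6 * η * ‖u‖ := fun u => by rw [hXe]; exact hX u
  have hY' : ∀ u, |Y u - u.im| ≤ 6 * η * ‖u‖ := fun u => by rw [hYe]; exact hY u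
  have hXs : ∀ x y, X (y - x) = X y - X x := fun x y => by
    rw [hXe, hXe, hXe]; simp only [det2, Complex.sub_re, Complex.sub_im]; ring
  have hYs : ∀ x y, Y (y - x) = Y y - Y x := fun x y => by
    rw [hYe, hYe, hYe]; simp only [det2, Complex.sub_re, Complex.sub_im]; ring
  obtain ⟨m1, m2⟩ := ProjCore_main hη hR hηR hα hβ hX' hY' hXs hYs hq hH
  have X0 : X 0 = 0 := by rw [hXe]; simp [det2]
  have Y0 : Y 0 = 0 := by rw [hYe]; simp [det2]
  have Xb : X b = 1 := by rw [hXe]; exact div_self hΔ0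
  have Yb : Y b = 0 := by
    rw [hYe]
    have : det2 b b = 0 := by simp only [det2]; ring
    rw [this, zero_div]
  have Xc : X c = 0 := by
    rw [hXe]
    have : det2 c c = 0 := by simp only [det2]; ring
    rw [this, zero_div]
  have Yc : Y c = 1 := by rw [hYe]; exact div_self hΔ0
  have XD : X d = Xd := by rw [hXe, hXde]
  have YD : Y d = Yd := by rw [hYe, hYde]
  have qb : q b = α := by rw [hq, Xb, Yb]; ring
  have qc : q c = β := by rw [hq, Xc, Yc]; ring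
  have αX : α * Xd = w := by rw [hαe]; field_simp
  have βY : β * Yd = w := by rw [hβe]; field_simp
  have qd : q d = w := by
    rw [hq, XD, YD]
    have : 1 + (α - 1) * Xd + (β - 1) * Yd = 1 + α * Xd - Xd + β * Yd - Yd := by ring
    rw [this, αX, βY, hw]; ring
  have hαc : (α : ℂ) ≠ 0 := by exact_mod_cast hα0
  have hβc : (β : ℂ) ≠ 0 := by exact_mod_cast hβ0
  have hwc : (w : ℂ) ≠ 0 := by exact_mod_cast hw0
  refine ⟨H, q, α * β / det2 b c, ?_, ?_, ?_, ?_, ?_, ?_, m1, ?_, m2⟩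
  · rw [hH, X0, Y0]; simp
  · rw [hH, Xb, Yb, qb]; simp [hαc]
  · rw [hH, Xc, Yc, qc]; simp [hβc]
  · rw [hH, XD, YD, qd, αX, βY]; field_simp
  · rw [le_div_iff₀ hΔpos]
    have h1 : 989 / 1000 ≤ α := by linarith [hα'.1]
    have h2 : 989 / 1000 ≤ β := by linarith [hβ'.1]
    have h3 : (989 / 1000 : ℝ) * (989 / 1000) ≤ α * β := mul_le_mul h1 h2 (by norm_num) (by linarith)
    linarith [hΔ'.2]
  · rw [div_le_iff₀ hΔpos]
    have h1 : α ≤ 1011 / 1000 := by linarith [hα'.2]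
    have h2 : β ≤ 1011 / 1000 := by linarith [hβ'.2]
    have h3 : α * β ≤ (1011 / 1000 : ℝ) * (1011 / 1000) := mul_le_mul h1 h2 (by linarith [hβ'.1]) (by norm_num)
    linarith [hΔ'.1]
  · intro x y z hx hy hz
    have hqx := abs_le.mp (m1 x hx)
    have hqy := abs_le.mp (m1 y hy)
    have hqz := abs_le.mp (m1 z hz)
    have hx0 : q x ≠ 0 := by
      have : 0 < q x := by linarith [hqx.1]
      exact this.ne'
    have hy0 : q y ≠ 0 := by
      have : 0 < q y := by linarith [hqy.1]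
      exact this.ne'
    have hz0 : q z ≠ 0 := by
      have : 0 < q z := by linarith [hqz.1]
      exact this.ne'
    have hre : ∀ u, (H u).re = α * X u / q u := by
      intro u
      rw [hH, Complex.div_ofReal_re]; simp
    have him : ∀ u, (H u).im = β * Y u / q u := by
      intro u
      rw [hH, Complex.div_ofReal_im]; simp
    have hfin := ProjCore_det (α := α) (β := β) (Δ := det2 b c) (c1 := c.re) (c2 := c.im) (b1 := b.re)
      (b2 := b.im) (x1 := x.re) (x2 := x.im) (y1 := y.re) (y2 := y.im) (z1 := z.re) (z2 := z.im)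
      (qx := q x) (qy := q y) (qz := q z) hΔ0 rfl
      (by rw [hq, hXe, hYe]; simp only [det2]) (by rw [hq, hXe, hYe]; simp only [det2])
      (by rw [hq, hXe, hYe]; simp only [det2]) hx0 hy0 hz0
    have e0 : det2 (H y - H x) (H z - H x) =
        (α * X y / q y - α * X x / q x) * (β * Y z / q z - β * Y x / q x) -
          (β * Y y / q y - β * Y x / q x) * (α * X z / q z - α * X x / q x) := by
      rw [← hre, ← hre, ← hre, ← him, ← him, ← him]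
      simp only [det2, Complex.sub_re, Complex.sub_im]
    have e1 : det2 (y - x) (z - x) =
        (y.re - x.re) * (z.im - x.im) - (y.im - x.im) * (z.re - x.re) := by
      simp only [det2, Complex.sub_re, Complex.sub_im]
    rw [e0, e1, ← hfin, hXe, hXe, hXe, hYe, hYe, hYe]
    simp only [det2]

/-- scaled form -/
theorem ProjCore_scaled (η R : ℝ) (hη : 0 ≤ η) (hR : 1 ≤ R) (hηR : η * R ≤ 1 / 1000)
    (A B C D : ℂ) (s : ℝ) (hs : 0 < s) (hB : ‖B - A - (s : ℂ)‖ ≤ η * s)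
    (hC : ‖C - A - (s : ℂ) * Complex.I‖ ≤ η * s)
    (hD : ‖D - A - (s : ℂ) * (1 + Complex.I)‖ ≤ η * s) :
    ∃ (H : ℂ → ℂ) (q : ℂ → ℝ) (K : ℝ), H A = 0 ∧ H B = 1 ∧ H C = Complex.I ∧
      H D = 1 + Complex.I ∧ 9 / 10 ≤ K * s ^ 2 ∧ K * s ^ 2 ≤ 11 / 10 ∧
      (∀ z, ‖z - A‖ ≤ R * s → |q z - 1| ≤ 23 * (η * R)) ∧
      (∀ x y z, ‖x - A‖ ≤ R * s → ‖y - A‖ ≤ R * s → ‖z - A‖ ≤ R * s →
        det2 (H y - H x) (H z - H x) = K / (q x * q y * q z) * det2 (y - x) (z - x)) ∧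
      (∀ x y, ‖x - A‖ ≤ R * s → ‖y - A‖ ≤ R * s →
        ‖H y - H x - (y - x) / (s : ℂ)‖ ≤ 132 * (η * R) * (‖y - x‖ / s)) := by
  have hsc : (s : ℂ) ≠ 0 := by exact_mod_cast hs.ne'
  have hnd : ∀ v : ℂ, ‖v / (s : ℂ)‖ = ‖v‖ / s := by
    intro v
    rw [norm_div, Complex.norm_real, Real.norm_of_nonneg hs.le]
  have hgen : ∀ (P v : ℂ), ‖P - A - (s : ℂ) * v‖ ≤ η * s → ‖(P - A) / (s : ℂ) - v‖ ≤ η := by
    intro P v h
    have e1 : (P - A) / (s : ℂ) - v = (P - A - (s : ℂ) * v) / (s : ℂ) := by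
      field_simp
    rw [e1, hnd, div_le_iff₀ hs]
    exact h
  have hb : ‖(B - A) / (s : ℂ) - 1‖ ≤ η := hgen B 1 (by rw [mul_one]; exact hB)
  have hc : ‖(C - A) / (s : ℂ) - Complex.I‖ ≤ η := hgen C _ hC
  have hd : ‖(D - A) / (s : ℂ) - (1 + Complex.I)‖ ≤ η := hgen D _ hD
  obtain ⟨H, q, K, h1, h2, h3, h4, h5, h6, h7, h8, h9⟩ := ProjCore η R hη hR hηR _ _ _ hb hc hd
  have hin : ∀ z : ℂ, ‖z - A‖ ≤ R * s → ‖(z - A) / (s : ℂ)‖ ≤ R := by
    intro z hz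
    rw [hnd, div_le_iff₀ hs]
    exact hz
  have hsub : ∀ x y : ℂ, (y - A) / (s : ℂ) - (x - A) / (s : ℂ) = (y - x) / (s : ℂ) := by
    intro x y
    ring
  have hdiv : ∀ v w : ℂ, det2 (v / (s : ℂ)) (w / (s : ℂ)) = det2 v w / s ^ 2 := by
    intro v w
    simp only [det2, Complex.div_ofReal_re, Complex.div_ofReal_im]
    field_simp
  refine ⟨fun z => H ((z - A) / (s : ℂ)), fun z => q ((z - A) / (s : ℂ)), K / s ^ 2, ?_, h2, h3, h4, ?_, ?_, ?_, ?_, ?_⟩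
  · show H ((A - A) / (s : ℂ)) = 0
    rw [sub_self, zero_div, h1]
  · rw [div_mul_cancel₀ _ (by positivity)]
    exact h5
  · rw [div_mul_cancel₀ _ (by positivity)]
    exact h6
  · intro z hz
    exact h7 _ (hin z hz)
  · intro x y z hx hy hz
    have e1 := h8 _ _ _ (hin x hx) (hin y hy) (hin z hz)
    rw [hsub, hsub, hdiv] at e1
    show det2 (H ((y - A) / (s : ℂ)) - H ((x - A) / (s : ℂ))) (H ((z - A) / (s : ℂ)) - H ((x - A) / (s : ℂ))) = _
    rw [e1]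
    ring
  · intro x y hx hy
    have e1 := h9 _ _ (hin x hx) (hin y hy)
    rw [hsub, hnd] at e1
    exact e1

end

end Pool.Agent.Lib.MP_a768d2_coT
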