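import Pool.Agent.Lib.MP_a768d2_coD.Geo
import Pool.Agent.Lib.MP_a768d2_coD.ProjCore

/-! # Projective normalisation of a nearly square quadrilateral

PROOF.  `Δ = det2 (B - A) (C - A)`, `X0 v = det2 v (C - A) / Δ`, `Y0 v = det2 (B - A) v / Δ` (linear in `v`), `X z = X0 (z - A)`, `Y z = Y0 (z - A)`,
`D1 = X D`, `D2 = Y D`, `w = D1 + D2 - 1`, `α = w / D1`, `β = w / D2`, `q z = 1 + (α - 1) X z + (β - 1) Y z`, `H z = M (α X z / q z, β Y z / q z)`.
Corners: `(X, Y) A = (0, 0)`, `B ↦ (1, 0)` (`q = α`), `C ↦ (0, 1)` (`q = β`), `D ↦ (D1, D2)` (`q = 1 + 2 w - D1 - D2 = w`).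
Estimates (`κ L ≤ 10^-6`, `b ≥ 1`): `Δ = b² M² (1 + O(42 κ))`, `b M X0 v = v.re + O(70 κ ‖v‖)`, `b M Y0 v = v.im + O(70 κ ‖v‖)`, `D1, D2 = 1 + O(150 κ)`, `|α - 1|, |β - 1| ≤ 200 κ`,
`|X z|, |Y z| ≤ 5 L`, `|q z - 1| ≤ 2000 κ L`, `‖H z‖ ≤ 11 L M`.
Vertex identity: `H y - H z = (1 / q y) Lz (y - z)`, `Lz v = X0 v • (M α - (α - 1) H z) + Y0 v • (M β i - (β - 1) H z)`, linear in `v`:
`‖b Lz v - v‖ ≤ (140 + 440 + 4900 L) κ ‖v‖`, so the first claim; and `det2 (Lz v) (Lz v') = d det2 v v'` with `d = det2 (M α - (α - 1) H z) (M β i - (β - 1) H z) / Δ`, `b² d ∈ [0.9, 1.1]`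
(or `b² d = det2 (b Lz 1) (b Lz i)`), so `b² |det2 (H y - H x) (H z - H x)| = b² d / (q y q z) |det2 (y - x) (z - x)|`. -/

namespace Pool.Agent.Lib.MP_a768d2_coT

open Pool.Agent.Lib.MP_a768d2_coG

noncomputable section

theorem proj (L b κ M : ℝ) (A B C D : ℂ) (hL : 1 ≤ L) (hb : 1 ≤ b) (hbL : b ≤ L) (hκ : 0 ≤ κ)
    (hκL : 10 ^ 6 * (κ * L) ≤ 1) (hM : 0 < M)
    (hB : ‖B - A - ((b * M : ℝ) : ℂ)‖ ≤ 20 * κ * M)
    (hC : ‖C - A - ((b * M : ℝ) : ℂ) * Complex.I‖ ≤ 20 * κ * M)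
    (hD : ‖D - A - ((b * M : ℝ) : ℂ) * (1 + Complex.I)‖ ≤ 20 * κ * M) :
    ∃ H : ℂ → ℂ, H A = 0 ∧ H B = M ∧ H C = M * Complex.I ∧ H D = M * (1 + Complex.I) ∧
      (∀ y z : ℂ, ‖y - A‖ ≤ 4 * L * M → ‖z - A‖ ≤ 4 * L * M →
        ‖(b : ℂ) * (H y - H z) - (y - z)‖ ≤ 20000 * (κ * L) * ‖y - z‖) ∧
      (∀ x y z : ℂ, ‖x - A‖ ≤ 4 * L * M → ‖y - A‖ ≤ 4 * L * M → ‖z - A‖ ≤ 4 * L * M →
        |det2 (y - x) (z - x)| ≤ 2 * (b ^ 2 * |det2 (H y - H x) (H z - H x)|) ∧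
        b ^ 2 * |det2 (H y - H x) (H z - H x)| ≤ 2 * |det2 (y - x) (z - x)|) := by
  have hbM : 0 < b * M := mul_pos (by linarith) hM
  have hκM : 0 ≤ κ * M := mul_nonneg hκ hM.le
  have hle : 20 * κ * M ≤ 20 * κ * (b * M) := by
    have := mul_le_mul_of_nonneg_right hb (mul_nonneg (mul_nonneg (by norm_num : (0 : ℝ) ≤ 20) hκ) hM.le)
    linarith
  have hR : (1 : ℝ) ≤ 4 * L := by linarith
  have h0 : 0 ≤ κ * L := mul_nonneg hκ (by linarith)
  have e8 : 20 * κ * (4 * L) = 80 * (κ * L) := by ring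
  have hηR : 20 * κ * (4 * L) ≤ 1 / 1000 := by
    rw [e8]
    linarith
  obtain ⟨H, q, K, h1, h2, h3, h4, h5, h6, h7, h8, h9⟩ :=
    ProjCore_scaled (20 * κ) (4 * L) (by positivity) hR hηR A B C D (b * M) hbM
      (hB.trans hle) (hC.trans hle) (hD.trans hle)
  have hin : ∀ z : ℂ, ‖z - A‖ ≤ 4 * L * M → ‖z - A‖ ≤ 4 * L * (b * M) := by
    intro z hz
    have := mul_le_mul_of_nonneg_right hb (mul_nonneg (by linarith : (0 : ℝ) ≤ 4 * L) hM.le)
    linarith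
  have hbc : (b : ℂ) ≠ 0 := by
    have : b ≠ 0 := by linarith
    exact_mod_cast this
  have hMc : (M : ℂ) ≠ 0 := by exact_mod_cast hM.ne'
  refine ⟨fun z => (M : ℂ) * H z, ?_, ?_, ?_, ?_, ?_, ?_⟩
  · show (M : ℂ) * H A = 0
    rw [h1, mul_zero]
  · show (M : ℂ) * H B = M
    rw [h2, mul_one]
  · show (M : ℂ) * H C = _
    rw [h3]
  · show (M : ℂ) * H D = _
    rw [h4]
  · intro y z hy hz
    have e := h9 z y (hin z hz) (hin y hy)
    show ‖(b : ℂ) * ((M : ℂ) * H y - (M : ℂ) * H z) - (y - z)‖ ≤ _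
    have e1 : (b : ℂ) * ((M : ℂ) * H y - (M : ℂ) * H z) - (y - z) =
        ((b * M : ℝ) : ℂ) * (H y - H z - (y - z) / ((b * M : ℝ) : ℂ)) := by
      push_cast
      field_simp
    rw [e1, norm_mul, Complex.norm_real, Real.norm_of_nonneg hbM.le]
    have e2 := mul_le_mul_of_nonneg_left e hbM.le
    have e3 : b * M * (132 * (20 * κ * (4 * L)) * (‖y - z‖ / (b * M))) = 10560 * ((κ * L) * ‖y - z‖) := by
      field_simp
      ring
    rw [e3] at e2
    have e4 : 0 ≤ (κ * L) * ‖y - z‖ := by positivity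
    linarith
  · intro x y z hx hy hz
    have e := h8 x y z (hin x hx) (hin y hy) (hin z hz)
    have qx := abs_le.mp (h7 x (hin x hx))
    have qy := abs_le.mp (h7 y (hin y hy))
    have qz := abs_le.mp (h7 z (hin z hz))
    rw [e8] at qx qy qz
    have x1 : 99 / 100 ≤ q x := by linarith [qx.1]
    have x2 : q x ≤ 101 / 100 := by linarith [qx.2]
    have y1 : 99 / 100 ≤ q y := by linarith [qy.1]
    have y2 : q y ≤ 101 / 100 := by linarith [qy.2]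
    have z1 : 99 / 100 ≤ q z := by linarith [qz.1]
    have z2 : q z ≤ 101 / 100 := by linarith [qz.2]
    have p1 : (99 / 100 : ℝ) * (99 / 100) * (99 / 100) ≤ q x * q y * q z :=
      mul_le_mul (mul_le_mul x1 y1 (by norm_num) (by linarith)) z1 (by norm_num)
        (mul_nonneg (by linarith) (by linarith))
    have p2 : q x * q y * q z ≤ (101 / 100 : ℝ) * (101 / 100) * (101 / 100) :=
      mul_le_mul (mul_le_mul x2 y2 (by linarith) (by norm_num)) z2 (by linarith) (by norm_num)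
    have p0 : 0 < q x * q y * q z := by linarith
    have e1 : det2 ((M : ℂ) * H y - (M : ℂ) * H x) ((M : ℂ) * H z - (M : ℂ) * H x) =
        M ^ 2 * det2 (H y - H x) (H z - H x) := by
      simp only [det2, Complex.sub_re, Complex.sub_im, Complex.mul_re, Complex.mul_im,
        Complex.ofReal_re, Complex.ofReal_im]
      ring
    have e2 : b ^ 2 * |det2 ((M : ℂ) * H y - (M : ℂ) * H x) ((M : ℂ) * H z - (M : ℂ) * H x)| =
        K * (b * M) ^ 2 / (q x * q y * q z) * |det2 (y - x) (z - x)| := by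
      rw [e1, e, abs_mul, abs_mul, abs_div, abs_of_pos p0, abs_of_nonneg (by positivity : 0 ≤ M ^ 2)]
      have hK : 0 ≤ K := by
        by_contra hneg
        push Not at hneg
        have : K * (b * M) ^ 2 < 0 := mul_neg_of_neg_of_pos hneg (by positivity)
        linarith
      rw [abs_of_nonneg hK]
      ring
    show |det2 (y - x) (z - x)| ≤ 2 * (b ^ 2 * |det2 ((M : ℂ) * H y - (M : ℂ) * H x) ((M : ℂ) * H z - (M : ℂ) * H x)|) ∧
      b ^ 2 * |det2 ((M : ℂ) * H y - (M : ℂ) * H x) ((M : ℂ) * H z - (M : ℂ) * H x)| ≤ 2 * |det2 (y - x) (z - x)|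
    rw [e2]
    have r1 : 1 / 2 ≤ K * (b * M) ^ 2 / (q x * q y * q z) := by
      rw [le_div_iff₀ p0]
      linarith
    have r2 : K * (b * M) ^ 2 / (q x * q y * q z) ≤ 2 := by
      rw [div_le_iff₀ p0]
      linarith
    have a0 := abs_nonneg (det2 (y - x) (z - x))
    constructor
    · have := mul_le_mul_of_nonneg_right r1 a0
      linarith
    · exact mul_le_mul_of_nonneg_right r2 a0

end

end Pool.Agent.Lib.MP_a768d2_coT
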