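import Pool.Agent.Lib.MP_a768d2_coD.C1
import Pool.Agent.Lib.MP_a768d2_coD.C2
import Pool.Agent.Lib.MP_a768d2_coD.Proj

/-! # Step C, part 3: the normalised grid -/

namespace Pool.Agent.Lib.MP_a768d2_coT

open Pool.Agent.Lib.MP_a768d2_coG

noncomputable section

/-- a square of a straight grid together with a normalising map -/
structure NS (P : ℤ → ℤ → ℂ) (ℓ : ℤ → ℤ → ℝ) (N : ℕ) (κ L c χ : ℝ) (h : ℕ) (b : ℝ)
    (R : ℤ → ℤ → ℂ) : Prop where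
  F : DF P ℓ N κ L
  V : Void P N c
  S : Bd P (χ / N) (Oct (N / 16))
  hκ : 0 ≤ κ
  hκL : 2 * 10 ^ 12 * (κ * L ^ 2) ≤ 1
  hχ : 0 ≤ χ
  hN : 512 ≤ N
  hh : 32 * h ≤ N
  hh0 : 0 < h
  hb : 1 ≤ b
  eqR : ∀ x y x' y' : ℤ, P x y = P x' y' → R x y = R x' y'
  n1 : ∀ x y x' y' : ℤ, |x| ≤ h → |y| ≤ h → |x'| ≤ h → |y'| ≤ h →
    ‖(b : ℂ) * (R x' y' - R x y) - (P x' y' - P x y)‖ ≤ 20000 * (κ * L) * ‖P x' y' - P x y‖
  n2 : ∀ x y x' y' x'' y'' : ℤ, |x| ≤ h → |y| ≤ h → |x'| ≤ h → |y'| ≤ h → |x''| ≤ h →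
    |y''| ≤ h →
    |det2 (P x' y' - P x y) (P x'' y'' - P x y)| ≤
      2 * (b ^ 2 * |det2 (R x' y' - R x y) (R x'' y'' - R x y)|) ∧
    b ^ 2 * |det2 (R x' y' - R x y) (R x'' y'' - R x y)| ≤
      2 * |det2 (P x' y' - P x y) (P x'' y'' - P x y)|

variable {P : ℤ → ℤ → ℂ} {ℓ : ℤ → ℤ → ℝ} {N : ℕ} {κ L c χ : ℝ} {h : ℕ} {b : ℝ} {R : ℤ → ℤ → ℂ}

theorem NS.small (n : NS P ℓ N κ L c χ h b R) : κ * L ≤ 1 / 10 ^ 12 ∧ κ ≤ 1 / 10 ^ 12 := by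
  have h1 := n.hκL
  have h2 := n.F.one_le
  have h3 := n.hκ
  have h4 : κ * L ≤ κ * L ^ 2 := by
    apply mul_le_mul_of_nonneg_left _ h3
    nlinarith
  have h5 : κ ≤ κ * L := by nlinarith
  constructor <;> linarith

/-- direction of a chord -/
theorem NS.dir (n : NS P ℓ N κ L c χ h b R) {e1 e2 g1 g2 x y : ℤ} (hd : Dir e1 e2 g1 g2) (k : ℕ)
    (hx : |x| ≤ h) (hy : |y| ≤ h) (hx' : |x + k * e1| ≤ h) (hy' : |y + k * e2| ≤ h) :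
    ∃ (t : ℝ) (E : ℂ), R (x + k * e1) (y + k * e2) - R x y = (t : ℂ) * vec e1 e2 + E ∧
      ‖E‖ ≤ k * (50000 * (κ * L ^ 2)) := by
  have hκ := n.hκ
  have hL := n.F.one_le
  have hN := n.hN
  have hh := n.hh
  have hb := n.hb
  have hsm := n.small
  obtain ⟨t, t1, t2, t3⟩ := n.F.chordP hκ (by omega) (by omega) hd k hx hy hx' hy'
  have hn := hd.norm_e
  have hk0 : (0 : ℝ) ≤ k := Nat.cast_nonneg k
  have h1 := n.n1 x y (x + k * e1) (y + k * e2) hx hy hx' hy'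
  set X := P (x + k * e1) (y + k * e2) - P x y with hX
  set Y := R (x + k * e1) (y + k * e2) - R x y with hY
  have hXn : ‖X‖ ≤ k * (2 * L) := by
    have h2 : ‖X‖ ≤ ‖X - k * ((t : ℂ) * vec e1 e2)‖ + ‖(k : ℂ) * ((t : ℂ) * vec e1 e2)‖ := by
      have := norm_add_le (X - k * ((t : ℂ) * vec e1 e2)) (k * ((t : ℂ) * vec e1 e2))
      rwa [sub_add_cancel] at this
    have h3 : ‖(k : ℂ) * ((t : ℂ) * vec e1 e2)‖ ≤ k * (L * (3 / 2)) := by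
      rw [norm_mul, Complex.norm_natCast, norm_real_mul (by linarith)]
      apply mul_le_mul_of_nonneg_left _ hk0
      exact mul_le_mul t2 hn.2.1 (norm_nonneg _) (by linarith)
    have h4 : (k : ℝ) * (14 * κ) ≤ k * (L * (1 / 2)) := by
      apply mul_le_mul_of_nonneg_left _ hk0
      linarith [hsm.2]
    linarith
  refine ⟨k * t / b, Y - ((k * t / b : ℝ) : ℂ) * vec e1 e2, by ring, ?_⟩
  have hb0 : (0 : ℝ) < b := by linarith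
  have hbc : (b : ℂ) ≠ 0 := by exact_mod_cast hb0.ne'
  have e : (b : ℂ) * (Y - ((k * t / b : ℝ) : ℂ) * vec e1 e2) =
      ((b : ℂ) * Y - X) + (X - k * ((t : ℂ) * vec e1 e2)) := by
    push_cast
    field_simp
    ring
  have h5 : b * ‖Y - ((k * t / b : ℝ) : ℂ) * vec e1 e2‖ ≤
      20000 * (κ * L) * (k * (2 * L)) + k * (14 * κ) := by
    rw [← norm_real_mul hb0.le, e]
    refine (norm_add_le _ _).trans ?_
    have h6 : 20000 * (κ * L) * ‖X‖ ≤ 20000 * (κ * L) * (k * (2 * L)) :=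
      mul_le_mul_of_nonneg_left hXn (by positivity)
    linarith
  have h7 : 1 * ‖Y - ((k * t / b : ℝ) : ℂ) * vec e1 e2‖ ≤
      b * ‖Y - ((k * t / b : ℝ) : ℂ) * vec e1 e2‖ :=
    mul_le_mul_of_nonneg_right hb (norm_nonneg _)
  have h8 : κ ≤ κ * L ^ 2 := by
    have : 1 ≤ L ^ 2 := one_le_pow₀ hL
    nlinarith
  have h9 : (k : ℝ) * κ ≤ k * (κ * L ^ 2) := mul_le_mul_of_nonneg_left h8 hk0
  have h10 : 20000 * (κ * L) * (k * (2 * L)) = 40000 * (k * (κ * L ^ 2)) := by ring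
  have h11 : 0 ≤ (k : ℝ) * (κ * L ^ 2) := by positivity
  rw [h10] at h5
  linarith

theorem NS.tp (n : NS P ℓ N κ L c χ h b R) {e1 e2 g1 g2 x y : ℤ} (hd : Dir e1 e2 g1 g2) (m k : ℤ)
    (hx : |x| ≤ h) (hy : |y| ≤ h) (hxm : |x + m * e1| ≤ h) (hym : |y + m * e2| ≤ h)
    (hxk : |x + k * e1| ≤ h) (hyk : |y + k * e2| ≤ h) :
    |det2 (R (x + m * e1) (y + m * e2) - R x y) (R (x + k * e1) (y + k * e2) - R x y)| ≤
      |(m : ℝ)| * (|(k : ℝ)| * (2 * χ / N)) := by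
  have hh := n.hh
  have hb := n.hb
  have h1 := n.S.tp (h := h) (fun x y hx hy => by
    have hx' : |(x : ℝ)| ≤ h := by exact_mod_cast hx
    have hy' : |(y : ℝ)| ≤ h := by exact_mod_cast hy
    have hh' : 32 * (h : ℝ) ≤ N := by exact_mod_cast hh
    have h0 : (0 : ℝ) ≤ h := Nat.cast_nonneg h
    refine ⟨by linarith, by linarith, ?_, ?_⟩
    · have := abs_add_le (x : ℝ) y; linarith
    · have := abs_sub (x : ℝ) y; linarith) hd m k hx hy hxm hym hxk hyk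
  have h2 := (n.n2 x y _ _ _ _ hx hy hxm hym hxk hyk).2
  set D := |det2 (R (x + m * e1) (y + m * e2) - R x y) (R (x + k * e1) (y + k * e2) - R x y)|
  have h3 : 1 * D ≤ b ^ 2 * D := mul_le_mul_of_nonneg_right (one_le_pow₀ hb) (abs_nonneg _)
  have h4 : |(m : ℝ)| * (|(k : ℝ)| * (2 * χ / N)) = 2 * (|(m : ℝ)| * (|(k : ℝ)| * (χ / N))) := by
    ring
  rw [h4]
  linarith

theorem NS.sep (n : NS P ℓ N κ L c χ h b R) (hc : 0 ≤ c) {x y x' y' x'' y'' : ℤ} (h1 : |x| ≤ h)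
    (h2 : |y| ≤ h) (h3 : |x'| ≤ h) (h4 : |y'| ≤ h) (h5 : |x''| ≤ h) (h6 : |y''| ≤ h)
    (hne : R x y ≠ R x' y') (hr : 4 * ‖R x' y' - R x y‖ ≤ ‖R x'' y'' - R x y‖) :
    c / 3 * ‖R x'' y'' - R x y‖ ^ 2 ≤ N ^ 2 * |det2 (R x' y' - R x y) (R x'' y'' - R x y)| := by
  have hκ := n.hκ
  have hL := n.F.one_le
  have hb := n.hb
  have hh := n.hh
  have hsm := n.small
  have a1 := n.n1 x y x' y' h1 h2 h3 h4
  have a2 := n.n1 x y x'' y'' h1 h2 h5 h6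
  have a3 := (n.n2 x y x' y' x'' y'' h1 h2 h3 h4 h5 h6).1
  have hne' : P x y ≠ P x' y' := fun h => hne (n.eqR _ _ _ _ h)
  have hv := n.V x y x' y' x'' y'' (by omega) (by omega) (by omega) (by omega) (by omega)
    (by omega) hne'
  set U := P x' y' - P x y
  set W := P x'' y'' - P x y
  set U' := R x' y' - R x y
  set W' := R x'' y'' - R x y
  have hb0 : (0 : ℝ) < b := by linarith
  have hθ : 20000 * (κ * L) ≤ 1 / 100 := by linarith [hsm.1]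
  have b1 : 20000 * (κ * L) * ‖U‖ ≤ 1 / 100 * ‖U‖ := mul_le_mul_of_nonneg_right hθ (norm_nonneg _)
  have b2 : 20000 * (κ * L) * ‖W‖ ≤ 1 / 100 * ‖W‖ := mul_le_mul_of_nonneg_right hθ (norm_nonneg _)
  have e1 : ‖(b : ℂ) * U'‖ = b * ‖U'‖ := norm_real_mul hb0.le _
  have e2 : ‖(b : ℂ) * W'‖ = b * ‖W'‖ := norm_real_mul hb0.le _
  have c1 : ‖U‖ ≤ b * ‖U'‖ + ‖(b : ℂ) * U' - U‖ := by
    rw [← e1]
    have := norm_sub_le ((b : ℂ) * U') ((b : ℂ) * U' - U)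
    rwa [sub_sub_cancel] at this
  have c2 : b * ‖W'‖ ≤ ‖(b : ℂ) * W' - W‖ + ‖W‖ := by
    rw [← e2]
    have := norm_add_le ((b : ℂ) * W' - W) W
    rwa [sub_add_cancel] at this
  have c3 : b * (4 * ‖U'‖) ≤ b * ‖W'‖ := mul_le_mul_of_nonneg_left hr hb0.le
  have hr' : 2 * ‖U‖ ≤ ‖W‖ := by
    have := norm_nonneg W
    linarith
  have hv' := hv hr'
  have c4 : b * ‖W'‖ ≤ 101 / 100 * ‖W‖ := by linarith
  have c5 : (b * ‖W'‖) ^ 2 ≤ (101 / 100 * ‖W‖) ^ 2 := pow_le_pow_left₀ (by positivity) c4 2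
  have c6 : c * (b * ‖W'‖) ^ 2 ≤ c * (101 / 100 * ‖W‖) ^ 2 := mul_le_mul_of_nonneg_left c5 hc
  have c7 : (N : ℝ) ^ 2 * |det2 U W| ≤ N ^ 2 * (2 * (b ^ 2 * |det2 U' W'|)) :=
    mul_le_mul_of_nonneg_left a3 (by positivity)
  have c8 : b ^ 2 * (c / 3 * ‖W'‖ ^ 2) ≤ b ^ 2 * (N ^ 2 * |det2 U' W'|) := by
    have d1 : b ^ 2 * (c / 3 * ‖W'‖ ^ 2) = c * (b * ‖W'‖) ^ 2 / 3 := by ring
    have d2 : c * (101 / 100 * ‖W‖) ^ 2 = (10201 / 10000) * (c * ‖W‖ ^ 2) := by ring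
    have d3 : (N : ℝ) ^ 2 * (2 * (b ^ 2 * |det2 U' W'|)) = 2 * (b ^ 2 * (N ^ 2 * |det2 U' W'|)) := by
      ring
    have d4 : 0 ≤ b ^ 2 * (N ^ 2 * |det2 U' W'|) := by positivity
    rw [d1]
    rw [d2] at c6
    rw [d3] at c7
    linarith
  exact le_of_mul_le_mul_left c8 (by positivity)

end

end Pool.Agent.Lib.MP_a768d2_coT
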