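import Pool.Agent.Lib.MP_a768d2_coD.Geo
import Pool.Agent.Lib.MP_a768d2_coG.Core

/-! # Almost periodic grids without thin triangles do not exist (area form) -/

namespace Pool.Agent.Lib.MP_a768d2_coT

open Pool.Agent.Lib.MP_a768d2_coG

noncomputable section

variable {p : ℕ → ℕ → ℂ} {u v : ℂ} {a b : ℝ} {N : ℕ}

/-- the final contradiction at a crossing -/
theorem cross_endS (G : Grid p u v a b N) {α : ℝ} (hα : 0 ≤ α) (hang : Sep p N α)
    (k : ℕ) (hk : 1 ≤ k) (R : ℝ) (hR0 : 0 < R) (hΔ : 0 < |det2 u v|)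
    (h6 : 6 * (a * b) ≤ |det2 u v|) (hR : 64 * k * (a * b) * b * R ≤ |det2 u v| ^ 2)
    (hR1 : 8 * (k + 1) * b ≤ R) (hR2 : 8 * (k + 1) ^ 2 * (a * b) < α * R ^ 2)
    (s i0 : ℕ) (τ : ℝ) (hτ : τ = 1 ∨ τ = -1) (hs : 2 ≤ s) (hsk : s * k + 1 ≤ N)
    (hi0 : (i0 : ℝ) = s * k + τ) (hi0N : i0 ≤ N)
    (he : ‖E p u v i0 s - E p u v (s * k) s‖ ≤ a)
    (hf : |det2 (p k 1 - p 0 0) (p (s * k) s - p 0 0) - τ * det2 u v| ≤ 4 * (k + 1) ^ 2 * (a * b))
    (hsκ : |det2 u v| ≤ s * (4 * (k + 1) ^ 2 * (a * b))) : False := by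
  have hk' : (1 : ℝ) ≤ k := by exact_mod_cast hk
  have hs' : (2 : ℝ) ≤ s := by exact_mod_cast hs
  have hkN : k ≤ N := le_trans (by nlinarith) hsk
  have hsN : s ≤ N := le_trans (by nlinarith) hsk
  have hab0 : 0 < a * b := by
    by_contra h
    have h1 : a * b ≤ 0 := not_lt.mp h
    have h2 : s * (4 * ((k:ℝ) + 1) ^ 2 * (a * b)) ≤ 0 := by
      apply mul_nonpos_of_nonneg_of_nonpos (by positivity)
      exact mul_nonpos_of_nonneg_of_nonpos (by positivity) h1
    linarith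
  have hb0 : 0 ≤ b := G.ha.trans G.hab
  have hb : 0 < b := by
    rcases hb0.lt_or_eq with h | h
    · exact h
    · rw [← h, mul_zero] at hab0; exact absurd hab0 (lt_irrefl _)
  have hY := Y_norm G k hk hkN
  have hEk := E_le G k 1 hkN (by omega)
  push_cast at hEk
  have hτ1 : |τ| = 1 := by rcases hτ with h | h <;> simp [h]
  have hτc : (i0 : ℂ) = s * k + (τ : ℂ) := by
    have : ((i0 : ℝ) : ℂ) = ((s * k + τ : ℝ) : ℂ) := by rw [hi0]
    push_cast at this
    exact this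
  -- the displacement of z
  have hz : p i0 s - p 0 0 = (p (s * k) s - p 0 0) + ((τ : ℂ) * u +
      (E p u v i0 s - E p u v (s * k) s)) := by
    simp only [E, hτc]; push_cast; ring
  have hYu : det2 (p k 1 - p 0 0) u = - det2 u v + det2 (E p u v k 1) u := by
    have h1 : p k 1 - p 0 0 = k * u + v + E p u v k 1 := by simp only [E]; push_cast; ring
    rw [h1, det2_add_left, det2_add_left, det2_nat_left, det2_self, det2_swap v u]
    ring
  have hτu : det2 (p k 1 - p 0 0) ((τ : ℂ) * u) = τ * det2 (p k 1 - p 0 0) u := by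
    simp [det2]; ring
  have hdet : |det2 (p k 1 - p 0 0) (p i0 s - p 0 0)| ≤ 8 * (k + 1) ^ 2 * (a * b) := by
    rw [hz, det2_add_right, det2_add_right, hτu, hYu]
    have e1 := det2_le' hEk G.hu
    have e2 := det2_le' hY he
    have e3 : |τ * det2 (E p u v k 1) u| ≤ a * (k + 1) * b := by
      rw [abs_mul, hτ1, one_mul]; exact e1
    have e4 : det2 (p k 1 - p 0 0) (p (s * k) s - p 0 0) +
        (τ * (-det2 u v + det2 (E p u v k 1) u) +
          det2 (p k 1 - p 0 0) (E p u v i0 s - E p u v (s * k) s)) =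
        (det2 (p k 1 - p 0 0) (p (s * k) s - p 0 0) - τ * det2 u v) +
        (τ * det2 (E p u v k 1) u +
        det2 (p k 1 - p 0 0) (E p u v i0 s - E p u v (s * k) s)) := by ring
    rw [e4]
    have e5 := abs_add_le (det2 (p k 1 - p 0 0) (p (s * k) s - p 0 0) - τ * det2 u v)
      (τ * det2 (E p u v k 1) u + det2 (p k 1 - p 0 0) (E p u v i0 s - E p u v (s * k) s))
    have e6 := abs_add_le (τ * det2 (E p u v k 1) u)
      (det2 (p k 1 - p 0 0) (E p u v i0 s - E p u v (s * k) s))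
    have e7 : a * (k + 1) * b + 2 * (k + 1) * b * a ≤ 4 * (k + 1) ^ 2 * (a * b) := by
      have : 0 ≤ (a * b) * (k + 1) * (4 * (k + 1) - 3) := by
        apply mul_nonneg (by positivity); linarith
      nlinarith
    linarith
  -- lower bound for the distance of z
  have hi0lb : (s : ℝ) * k / 2 ≤ i0 := by
    rw [hi0]
    have h1 : -1 ≤ τ := by rcases hτ with h | h <;> rw [h] <;> norm_num
    nlinarith
  have hsi0 : (s : ℝ) ≤ 2 * i0 := by nlinarith
  have hi00 : (0 : ℝ) ≤ i0 := Nat.cast_nonneg _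
  have hEz := E_le G i0 s hi0N hsN
  have hzv : det2 (p i0 s - p 0 0) v = i0 * det2 u v + det2 (E p u v i0 s) v := by
    have h1 : p i0 s - p 0 0 = i0 * u + s * v + E p u v i0 s := by simp only [E]; ring
    rw [h1, det2_add_left, det2_add_left, det2_nat_left, det2_nat_left, det2_self]
    ring
  have hzb : i0 * |det2 u v| / 2 ≤ ‖p i0 s - p 0 0‖ * b := by
    have e1 := det2_le' (le_refl ‖p i0 s - p 0 0‖) G.hv
    have e2 := det2_le' hEz G.hv
    rw [hzv] at e1
    have e3 : |(i0 : ℝ) * det2 u v| ≤ |i0 * det2 u v + det2 (E p u v i0 s) v| +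
        |det2 (E p u v i0 s) v| := by
      have := abs_sub (i0 * det2 u v + det2 (E p u v i0 s) v) (det2 (E p u v i0 s) v)
      rwa [add_sub_cancel_right] at this
    rw [abs_mul, Nat.abs_cast] at e3
    have e4 : a * (i0 + s) * b ≤ i0 * |det2 u v| / 2 := by
      have e5 : (a * b) * (i0 + s) ≤ (a * b) * (3 * i0) :=
        mul_le_mul_of_nonneg_left (by linarith) hab0.le
      have e6 : i0 * (6 * (a * b)) ≤ i0 * |det2 u v| := mul_le_mul_of_nonneg_left h6 hi00
      nlinarith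
    linarith
  have hRz : R ≤ ‖p i0 s - p 0 0‖ := by
    have e1 : (s : ℝ) * k * |det2 u v| / 4 ≤ ‖p i0 s - p 0 0‖ * b := by
      have : (s : ℝ) * k / 2 * |det2 u v| ≤ i0 * |det2 u v| :=
        mul_le_mul_of_nonneg_right hi0lb hΔ.le
      linarith
    set κ : ℝ := 4 * (k + 1) ^ 2 * (a * b) with hκ
    have hκ0 : 0 ≤ κ := by positivity
    have e2 : (s : ℝ) * k * |det2 u v| / 4 * κ ≤ ‖p i0 s - p 0 0‖ * b * κ :=
      mul_le_mul_of_nonneg_right e1 hκ0
    have e3 : |det2 u v| ^ 2 * k / 4 ≤ (s : ℝ) * k * |det2 u v| / 4 * κ := by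
      have := mul_le_mul_of_nonneg_left hsκ (show 0 ≤ (k : ℝ) * |det2 u v| / 4 by positivity)
      linarith
    have e4 : κ ≤ 16 * k ^ 2 * (a * b) := by
      rw [hκ]
      apply mul_le_mul_of_nonneg_right _ hab0.le
      nlinarith
    have e5 : ‖p i0 s - p 0 0‖ * b * κ ≤ ‖p i0 s - p 0 0‖ * b * (16 * k ^ 2 * (a * b)) :=
      mul_le_mul_of_nonneg_left e4 (by positivity)
    have e6 : 64 * k * (a * b) * b * R * k / 4 ≤ |det2 u v| ^ 2 * k / 4 := by
      have := mul_le_mul_of_nonneg_right hR (show (0:ℝ) ≤ k / 4 by positivity)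
      linarith
    have e7 : (16 * k ^ 2 * (a * b) * b) * R ≤ (16 * k ^ 2 * (a * b) * b) * ‖p i0 s - p 0 0‖ := by
      calc (16 * k ^ 2 * (a * b) * b) * R = 64 * k * (a * b) * b * R * k / 4 := by ring
        _ ≤ |det2 u v| ^ 2 * k / 4 := e6
        _ ≤ _ := e3
        _ ≤ _ := e2
        _ ≤ _ := e5
        _ = _ := by ring
    exact le_of_mul_le_mul_left e7 (by positivity)
  -- contradiction
  have hPQ : p 0 0 ≠ p i0 s := by
    intro h
    rw [← h, sub_self, norm_zero] at hRz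
    linarith
  have hYR : 4 * ‖p k 1 - p 0 0‖ ≤ ‖p i0 s - p 0 0‖ := by linarith
  have hPR : p 0 0 ≠ p k 1 := by
    intro h
    have h1 : det2 (p k 1 - p 0 0) v = k * det2 u v + det2 (E p u v k 1) v := by
      have h1 : p k 1 - p 0 0 = k * u + v + E p u v k 1 := by simp only [E]; push_cast; ring
      rw [h1, det2_add_left, det2_add_left, det2_nat_left, det2_self]
      ring
    rw [h, sub_self] at h1
    have h2 : det2 0 v = 0 := by simp [det2]
    rw [h2] at h1
    have e1 := det2_le' hEk G.hv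
    have e2 : det2 (E p u v k 1) v = - (k * det2 u v) := by linarith
    rw [e2, abs_neg, abs_mul, Nat.abs_cast] at e1
    have e3 : (k : ℝ) * (6 * (a * b)) ≤ k * |det2 u v| :=
      mul_le_mul_of_nonneg_left h6 (by positivity)
    nlinarith
  have hT := hang 0 0 k 1 i0 s (by omega) (by omega) hkN (by omega) hi0N hsN hPR hYR
  have h1 : α * R ^ 2 ≤ α * ‖p i0 s - p 0 0‖ ^ 2 := by
    apply mul_le_mul_of_nonneg_left _ hα
    exact pow_le_pow_left₀ hR0.le hRz 2
  linarith

/-- two rows do not cross -/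
theorem noncrossS (G : Grid p u v a b N) {α : ℝ} (hα : 0 ≤ α) (hang : Sep p N α)
    (k : ℕ) (hk : 1 ≤ k) (R : ℝ) (hR0 : 0 < R) (hΔ : 0 < |det2 u v|)
    (h6 : 6 * (a * b) ≤ |det2 u v|) (hR : 64 * k * (a * b) * b * R ≤ |det2 u v| ^ 2)
    (hR1 : 8 * (k + 1) * b ≤ R) (hR2 : 8 * (k + 1) ^ 2 * (a * b) < α * R ^ 2)
    (s : ℕ) (hs1 : 1 ≤ s) (hs : s * k + 1 ≤ N) :
    |det2 (p k 1 - p 0 0) (p (s * k) s - p 0 0)| < |det2 u v| := by
  induction s, hs1 using Nat.le_induction with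
  | base =>
    rw [one_mul, det2_self, abs_zero]
    exact hΔ
  | succ s hs1 ih =>
    have h1 := ih (le_trans (by nlinarith) hs)
    by_contra hcon
    have hcon' := not_lt.mp hcon
    have h2 := f_step G k s hk (by omega)
    have h3 := f_le G k hk (s + 1) (by omega) (by omega)
    set F := det2 (p k 1 - p 0 0) (p ((s + 1) * k) (s + 1) - p 0 0) with hF
    have hsN : s + 1 ≤ N := le_trans (by nlinarith) hs
    have h4 : |F| ≤ |det2 (p k 1 - p 0 0) (p (s * k) s - p 0 0)| + 4 * (k + 1) ^ 2 * (a * b) := by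
      have h3 := abs_sub_abs_le_abs_sub F (det2 (p k 1 - p 0 0) (p (s * k) s - p 0 0))
      linarith
    have h5 : |F| - |det2 u v| ≤ 4 * (k + 1) ^ 2 * (a * b) := by linarith
    have hsκ : |det2 u v| ≤ ((s + 1 : ℕ) : ℝ) * (4 * (k + 1) ^ 2 * (a * b)) := le_trans hcon' h3
    -- the sign
    have hsign : |F - 1 * det2 u v| = |F| - |det2 u v| ∨ |F - (-1) * det2 u v| = |F| - |det2 u v| := by
      rcases le_total 0 F with hF0 | hF0 <;> rcases le_total 0 (det2 u v) with hD | hD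
      · left
        rw [abs_of_nonneg hF0, abs_of_nonneg hD] at *
        rw [one_mul, abs_of_nonneg]; linarith
      · right
        rw [abs_of_nonneg hF0, abs_of_nonpos hD] at *
        rw [abs_of_nonneg (by linarith)]; ring
      · right
        rw [abs_of_nonpos hF0, abs_of_nonneg hD] at *
        rw [abs_of_nonpos (by linarith)]; ring
      · left
        rw [abs_of_nonpos hF0, abs_of_nonpos hD] at *
        rw [one_mul, abs_of_nonpos (by linarith)]; ring
    have hk1 : 1 ≤ (s + 1) * k := by nlinarith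
    rcases hsign with hsg | hsg
    · refine cross_endS G hα hang k hk R hR0 hΔ h6 hR hR1 hR2 (s + 1) ((s + 1) * k + 1) 1 (Or.inl rfl)
        (by omega) hs (by push_cast; ring) hs ?_ (by rw [← hF, hsg]; exact h5) hsκ
      have := E_row G ((s + 1) * k) (s + 1) 1 hs hsN
      simpa using this
    · refine cross_endS G hα hang k hk R hR0 hΔ h6 hR hR1 hR2 (s + 1) ((s + 1) * k - 1) (-1)
        (Or.inr rfl) (by omega) hs ?_ (by omega) ?_ (by rw [← hF, hsg]; exact h5) hsκ
      · rw [Nat.cast_sub hk1]; push_cast; ring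
      · have := E_row G ((s + 1) * k - 1) (s + 1) 1 (by omega) hsN
        rw [Nat.sub_add_cancel hk1] at this
        rw [norm_sub_rev]
        simpa using this

theorem final_stepS (G : Grid p u v a b N) {α : ℝ} (hα : 0 ≤ α) (hang : Sep p N α) (K m : ℕ) (hK : 1 ≤ K)
    (hKm : K ≤ m) (hmN : m ≤ N) (B D : ℝ) (hB0 : 0 < B) (hD : 0 < D)
    (hB : ∀ k ≤ K, |det2 (p k 0 - p 0 0) (p m 0 - p 0 0)| ≤ B)
    (hw : D ≤ ‖p m 0 - p 0 0‖) (hQ : 32 * K * b ≤ D) (hua : a < ‖u‖) :
    α * K * D ^ 2 ≤ 16 * B := by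
  have ha := G.ha
  have hb : 0 ≤ b := ha.trans G.hab
  have hK' : (0 : ℝ) < K := by exact_mod_cast (show 0 < K from hK)
  set w : ℕ → ℂ := fun k => p k 0 - p m 0 with hwdef
  have hw0 : D ≤ ‖w 0‖ := by
    simp only [hwdef]; rw [norm_sub_rev]; exact hw
  have hw00 : 0 < ‖w 0‖ := lt_of_lt_of_le hD hw0
  have hQn : ∀ k ≤ K, ‖w k - w 0‖ ≤ ‖w 0‖ / 16 := by
    intro k hk
    have hk' : (k : ℝ) ≤ K := by exact_mod_cast hk
    have h1 : w k - w 0 = k * u + E p u v k 0 := by
      simp only [hwdef, E]; push_cast; ring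
    have h2 := E_le G k 0 (by omega) (by omega)
    have h3 : ‖(k : ℂ) * u‖ ≤ k * b := by
      rw [norm_mul, Complex.norm_natCast]
      exact mul_le_mul_of_nonneg_left G.hu (Nat.cast_nonneg k)
    rw [h1]
    refine (norm_add_le _ _).trans ?_
    have h4 : a * (k + (0 : ℕ)) ≤ b * k := by
      push_cast
      rw [add_zero]
      exact mul_le_mul_of_nonneg_right G.hab (Nat.cast_nonneg k)
    have h5 : (k : ℝ) * b ≤ K * b := mul_le_mul_of_nonneg_right hk' hb
    linarith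
  have hI : ∀ k ≤ K, ‖w 0‖ ^ 2 / 2 ≤ inner ℝ (w 0) (w k) := by
    intro k hk
    have h1 : inner ℝ (w 0) (w k) = ‖w 0‖ ^ 2 + inner ℝ (w 0) (w k - w 0) := by
      have h0 : w k = w 0 + (w k - w 0) := by ring
      calc inner ℝ (w 0) (w k) = inner ℝ (w 0) (w 0 + (w k - w 0)) := by rw [← h0]
        _ = _ := by rw [inner_add_right, real_inner_self_eq_norm_sq]
    have h2 := abs_le.mp (abs_real_inner_le_norm (w 0) (w k - w 0))
    have h3 : ‖w 0‖ * ‖w k - w 0‖ ≤ ‖w 0‖ * (‖w 0‖ / 16) :=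
      mul_le_mul_of_nonneg_left (hQn k hk) hw00.le
    nlinarith
  have hA : ∀ k, det2 (w 0) (w k) = det2 (p k 0 - p 0 0) (p m 0 - p 0 0) := by
    intro k
    simp only [hwdef, det2, Complex.sub_re, Complex.sub_im]; ring
  set r : ℕ → ℝ := fun k => det2 (w 0) (w k) / inner ℝ (w 0) (w k) with hr
  have hIpos : ∀ k ≤ K, 0 < inner ℝ (w 0) (w k) := fun k hk =>
    lt_of_lt_of_le (by positivity) (hI k hk)
  have hrb : ∀ k ≤ K, |r k| < 4 * B / D ^ 2 := by
    intro k hk
    simp only [hr]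
    rw [abs_div, abs_of_pos (hIpos k hk), hA]
    have h1 : D ^ 2 ≤ ‖w 0‖ ^ 2 := pow_le_pow_left₀ hD.le hw0 2
    have h2 : D ^ 2 / 2 ≤ inner ℝ (w 0) (w k) := le_trans (by linarith) (hI k hk)
    calc |det2 (p k 0 - p 0 0) (p m 0 - p 0 0)| / inner ℝ (w 0) (w k)
        ≤ B / (D ^ 2 / 2) := div_le_div₀ hB0.le (hB k hk) (by positivity) h2
      _ = 2 * B / D ^ 2 := by field_simp
      _ < 4 * B / D ^ 2 := by
          apply div_lt_div_of_pos_right _ (by positivity)
          linarith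
  obtain ⟨k, k', hk, hk', hne, hdiff⟩ := pigeon K hK r (4 * B / D ^ 2) hrb
  have hwk : ∀ k ≤ K, ‖w 0‖ * (15 / 16) ≤ ‖w k‖ := by
    intro k hk
    have h1 : w 0 = w k - (w k - w 0) := by ring
    have h2 : ‖w 0‖ ≤ ‖w k‖ + ‖w k - w 0‖ := by
      calc ‖w 0‖ = ‖w k - (w k - w 0)‖ := by rw [← h1]
        _ ≤ _ := norm_sub_le _ _
    have := hQn k hk
    linarith
  have hclose : ‖w k' - w k‖ ≤ ‖w 0‖ / 8 := by
    have h1 : w k' - w k = (w k' - w 0) - (w k - w 0) := by ring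
    rw [h1]
    have := norm_sub_le (w k' - w 0) (w k - w 0)
    have := hQn k hk
    have := hQn k' hk'
    linarith
  have hlt : ‖w k' - w k‖ < ‖w k‖ := by
    have := hwk k hk
    linarith
  have hwk0 : 0 < ‖w k‖ := by have := hwk k hk; linarith
  have hwk0' : 0 < ‖w k'‖ := by have := hwk k' hk'; linarith
  -- the identity
  have hid : ‖w 0‖ ^ 2 * det2 (w k) (w k') = inner ℝ (w 0) (w k) * inner ℝ (w 0) (w k') *
      (r k' - r k) := by
    have h1 : inner ℝ (w 0) (w k) * inner ℝ (w 0) (w k') * (r k' - r k) =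
        inner ℝ (w 0) (w k) * det2 (w 0) (w k') - inner ℝ (w 0) (w k') * det2 (w 0) (w k) := by
      simp only [hr]
      have e1 := (hIpos k hk).ne'
      have e2 := (hIpos k' hk').ne'
      field_simp
    rw [h1, norm_sq_eq, inner_eq, inner_eq]
    simp only [det2]
    ring
  have hdet : |det2 (w k) (w k')| ≤ ‖w k‖ * ‖w k'‖ * |r k' - r k| := by
    have h1 : ‖w 0‖ ^ 2 * |det2 (w k) (w k')| ≤ ‖w 0‖ ^ 2 * (‖w k‖ * ‖w k'‖ * |r k' - r k|) := by
      calc ‖w 0‖ ^ 2 * |det2 (w k) (w k')| = |‖w 0‖ ^ 2 * det2 (w k) (w k')| := by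
            rw [abs_mul, abs_of_nonneg (by positivity : 0 ≤ ‖w 0‖ ^ 2)]
        _ = |inner ℝ (w 0) (w k)| * |inner ℝ (w 0) (w k')| * |r k' - r k| := by
            rw [hid, abs_mul, abs_mul]
        _ ≤ (‖w 0‖ * ‖w k‖) * (‖w 0‖ * ‖w k'‖) * |r k' - r k| := by
            gcongr
            · exact abs_real_inner_le_norm _ _
            · exact abs_real_inner_le_norm _ _
        _ = _ := by ring
    exact le_of_mul_le_mul_left h1 (by positivity)
  -- distinctness
  have hdist : ∀ i d : ℕ, 1 ≤ d → i + d ≤ N → p (i + d) 0 ≠ p i 0 := by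
    intro i d hd hid heq
    have h1 := E_row G i 0 d hid (by omega)
    have h2 : E p u v (i + d) 0 - E p u v i 0 = - (d * u) := by
      simp only [E]; rw [heq]; push_cast; ring
    rw [h2, norm_neg, norm_mul, Complex.norm_natCast] at h1
    have hd' : (0 : ℝ) < d := by exact_mod_cast (show 0 < d from hd)
    nlinarith
  have hkk' : p k 0 ≠ p k' 0 := by
    rcases lt_or_gt_of_ne hne with h | h
    · have := hdist k (k' - k) (by omega) (by omega)
      rw [Nat.add_sub_cancel' h.le] at this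
      exact this.symm
    · have := hdist k' (k - k') (by omega) (by omega)
      rw [Nat.add_sub_cancel' h.le] at this
      exact this
  have hck : 4 * ‖p k' 0 - p k 0‖ ≤ ‖p m 0 - p k 0‖ := by
    have e1 : p k' 0 - p k 0 = w k' - w k := by simp only [hwdef]; ring
    have e2 : ‖p m 0 - p k 0‖ = ‖w k‖ := by
      simp only [hwdef]; rw [norm_sub_rev]
    rw [e1, e2]
    have h1 : w k' - w k = (w k' - w 0) - (w k - w 0) := by ring
    rw [h1]
    have h2 := norm_sub_le (w k' - w 0) (w k - w 0)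
    have h3 := hQn k hk
    have h4 := hQn k' hk'
    have h5 := hwk k hk
    linarith
  have hfin := hang k 0 k' 0 m 0 (by omega) (by omega) (by omega) (by omega) hmN (by omega)
    hkk' hck
  have e1 : det2 (p k' 0 - p k 0) (p m 0 - p k 0) = det2 (w k) (w k') := by
    simp only [hwdef, det2, Complex.sub_re, Complex.sub_im]; ring
  have e2 : ‖p m 0 - p k 0‖ = ‖w k‖ := by
    simp only [hwdef]; rw [norm_sub_rev]
  rw [e1, e2] at hfin
  have h1 : α * ‖w k‖ ^ 2 ≤ ‖w k‖ * ‖w k'‖ * |r k' - r k| := hfin.trans hdet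
  have h2 : ‖w k'‖ ≤ 2 * ‖w k‖ := by
    have h3 : ‖w k'‖ ≤ ‖w k' - w k‖ + ‖w k‖ := by
      have := norm_add_le (w k' - w k) (w k)
      rwa [sub_add_cancel] at this
    linarith
  have h3 : ‖w k‖ * ‖w k'‖ * |r k' - r k| ≤ ‖w k‖ * (2 * ‖w k‖) * |r k' - r k| := by
    gcongr
  have h4 : α * ‖w k‖ ^ 2 ≤ 2 * |r k' - r k| * ‖w k‖ ^ 2 := by
    refine (h1.trans h3).trans (le_of_eq ?_)
    ring
  have h5 : α ≤ 2 * |r k' - r k| := le_of_mul_le_mul_right h4 (by positivity)
  have h6 : |r k' - r k| ≤ 2 * (4 * B / D ^ 2) / K := by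
    rw [abs_sub_comm]; exact hdiff
  have h7 : α ≤ 2 * (2 * (4 * B / D ^ 2) / K) := h5.trans (by linarith)
  have h8 : 2 * (2 * (4 * B / D ^ 2) / K) * (K * D ^ 2) = 16 * B := by
    field_simp
    norm_num
  calc α * K * D ^ 2 = α * (K * D ^ 2) := by ring
    _ ≤ 2 * (2 * (4 * B / D ^ 2) / K) * (K * D ^ 2) :=
        mul_le_mul_of_nonneg_right h7 (by positivity)
    _ = _ := h8

/-- the numerical core: a grid of size `≥ L / C` with mesh about `1 / L` and increments `A / L ^ 2` -/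
theorem grid_coreS (C A L : ℝ) (p : ℕ → ℕ → ℂ) (u v : ℂ) (N K : ℕ) (hC : 1 ≤ C) (hA : 1 ≤ A)
    (hK : 1 ≤ K) (hL0 : 0 < L) (hN : L ≤ C * N) (hu : ‖u‖ ≤ C / L) (hv : ‖v‖ ≤ C / L)
    (hdet : 1 / (C * L ^ 2) ≤ |det2 u v|)
    (hx : ∀ i j, i < N → j ≤ N → ‖p (i + 1) j - p i j - u‖ ≤ A / L ^ 2)
    (hy : ∀ i j, i ≤ N → j < N → ‖p i (j + 1) - p i j - v‖ ≤ A / L ^ 2)
    (hL : 10 ^ 6 * C ^ 10 * A ^ 2 * K ^ 5 ≤ L)
    (hang : Sep p N (10 ^ 6 * C ^ 10 * A / (K * L ^ 2))) : False := by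
  have hK' : (1 : ℝ) ≤ K := by exact_mod_cast hK
  have hC0 : 0 < C := by linarith
  have hA0 : 0 < A := by linarith
  have hK0 : (0 : ℝ) < K := by linarith
  have mb := fun (c : ℝ) (hc : c ≤ 10 ^ 6) (hc0 : 0 ≤ c) (i j l : ℕ) (hi : i ≤ 10) (hj : j ≤ 2)
    (hl : l ≤ 5) => (mono_bound hC hA hK' hc hc0 hi hj hl).trans hL
  set α : ℝ := 10 ^ 6 * C ^ 10 * A / (K * L ^ 2) with hα
  have hα0 : 0 ≤ α := by positivity
  have hpi := Real.pi_pos
  have hpi4 := Real.pi_le_four
  -- a ≤ b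
  have hab : A / L ^ 2 ≤ C / L := by
    rw [div_le_div_iff₀ (by positivity) hL0]
    have h1 := mb 1 (by norm_num) (by norm_num) 0 1 0 (by norm_num) (by norm_num) (by norm_num)
    have h2 : A ≤ L := by simpa using h1
    have h3 : L * 1 ≤ L * C := mul_le_mul_of_nonneg_left hC hL0.le
    nlinarith
  have G : Grid p u v (A / L ^ 2) (C / L) N := ⟨by positivity, hab, hu, hv, hx, hy⟩
  have hΔ : 0 < |det2 u v| := lt_of_lt_of_le (by positivity) hdet
  have hAC : 12 * C ^ 2 * A ≤ L := by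
    have h1 := mb 12 (by norm_num) (by norm_num) 2 1 0 (by norm_num) (by norm_num) (by norm_num)
    simpa using h1
  have h6 : 6 * (A / L ^ 2 * (C / L)) ≤ |det2 u v| := by
    refine le_trans ?_ hdet
    have h1 : 6 * (A / L ^ 2 * (C / L)) = (6 * C * A / L) / L ^ 2 := by field_simp
    have h2 : 1 / (C * L ^ 2) = (1 / C) / L ^ 2 := by field_simp
    rw [h1, h2]
    apply div_le_div_of_nonneg_right _ (by positivity)
    rw [div_le_div_iff₀ hL0 hC0]
    nlinarith
  -- lower bound for u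
  have hulow : 1 / (C ^ 2 * L) ≤ ‖u‖ := by
    have h1 := det2_le u v
    have h2 : ‖u‖ * ‖v‖ ≤ ‖u‖ * (C / L) := mul_le_mul_of_nonneg_left hv (norm_nonneg _)
    have h3 : 1 / (C * L ^ 2) ≤ ‖u‖ * (C / L) := hdet.trans (h1.trans h2)
    have h4 : 1 / (C ^ 2 * L) = 1 / (C * L ^ 2) / (C / L) := by field_simp
    rw [h4, div_le_iff₀ (by positivity)]
    exact h3
  have hahalf : A / L ^ 2 ≤ 1 / (2 * C ^ 2 * L) := by
    rw [div_le_div_iff₀ (by positivity) (by positivity)]
    nlinarith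
  have hhalf : 1 / (2 * C ^ 2 * L) < ‖u‖ := by
    refine lt_of_lt_of_le ?_ hulow
    apply div_lt_div_of_pos_left one_pos (by positivity)
    have : 0 < C ^ 2 * L := by positivity
    linarith
  have hua : A / L ^ 2 < ‖u‖ := lt_of_le_of_lt hahalf hhalf
  -- the choice of m
  set m : ℕ := min (N - 1) ⌊L⌋₊ with hm
  have hLC : 4 * C ≤ L := by
    have h1 := mb 4 (by norm_num) (by norm_num) 1 0 0 (by norm_num) (by norm_num) (by norm_num)
    simpa using h1
  have hN1 : (1 : ℝ) ≤ N := by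
    by_contra h
    have h1 : C * N < C * 1 := mul_lt_mul_of_pos_left (not_le.mp h) hC0
    linarith
  have hN1' : 1 ≤ N := by exact_mod_cast hN1
  have hm1 : L / (2 * C) ≤ m := by
    rw [hm, Nat.cast_min]
    apply le_min
    · rw [Nat.cast_sub hN1', Nat.cast_one, div_le_iff₀ (by positivity)]
      nlinarith
    · have h1 := Nat.lt_floor_add_one L
      have h2 : L / (2 * C) ≤ L / 2 := by
        apply div_le_div_of_nonneg_left hL0.le (by norm_num)
        linarith
      linarith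
  have hm2 : (m : ℝ) ≤ L := by
    have h1 : m ≤ ⌊L⌋₊ := min_le_right _ _
    exact (Nat.cast_le.mpr h1).trans (Nat.floor_le hL0.le)
  have hmN : m + 1 ≤ N := by
    have h1 : m ≤ N - 1 := min_le_left _ _
    omega
  have hK2m : K ^ 2 ≤ m := by
    have h1 := mb 2 (by norm_num) (by norm_num) 1 0 2 (by norm_num) (by norm_num) (by norm_num)
    have h2 : 2 * C * (K : ℝ) ^ 2 ≤ L := by simpa using h1
    have h3 : (K : ℝ) ^ 2 ≤ m := by
      refine le_trans ?_ hm1
      rw [le_div_iff₀ (by positivity)]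
      linarith
    exact_mod_cast h3
  have hKm : K ≤ m := le_trans (by nlinarith) hK2m
  -- the bound for A_k
  have hB : ∀ k ≤ K, |det2 (p k 0 - p 0 0) (p m 0 - p 0 0)| ≤ 14 * A * C ^ 2 / L ^ 2 := by
    intro k hk
    rcases Nat.eq_zero_or_pos k with h0 | hk1
    · rw [h0, sub_self]
      have h1 : det2 0 (p m 0 - p 0 0) = 0 := by simp [det2]
      rw [h1, abs_zero]; positivity
    have hk' : (k : ℝ) ≤ K := by exact_mod_cast hk
    have hk1' : (1 : ℝ) ≤ k := by exact_mod_cast hk1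
    have hk0 : (0 : ℝ) < k := by linarith
    have hs1 : 1 ≤ m / k := (Nat.one_le_div_iff hk1).mpr (hk.trans hKm)
    have hdiv := Nat.div_add_mod' m k
    have hmod := Nat.mod_lt m hk1
    have hAk2 : 1024 * C ^ 5 * A * (k : ℝ) ^ 2 ≤ L := by
      have h1 := mb 1024 (by norm_num) (by norm_num) 5 1 2 (by norm_num) (by norm_num) (by norm_num)
      rw [pow_one] at h1
      refine le_trans ?_ h1
      gcongr
    have hf := noncrossS G hα0 hang k hk1 (1 / (64 * C ^ 4 * A * k)) (by positivity) hΔ h6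
      (by
        have h1 : (1 / (C * L ^ 2)) ^ 2 ≤ |det2 u v| ^ 2 := pow_le_pow_left₀ (by positivity) hdet 2
        refine le_trans (le_of_eq ?_) h1
        field_simp)
      (by
        rw [le_div_iff₀ (by positivity)]
        have h1 : 8 * ((k : ℝ) + 1) * (C / L) * (64 * C ^ 4 * A * k) =
            (512 * C ^ 5 * A * (k * (k + 1))) / L := by field_simp; ring
        rw [h1, div_le_one hL0]
        refine le_trans ?_ hAk2
        have h2 : (k : ℝ) * (k + 1) ≤ 2 * k ^ 2 := by nlinarith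
        have h3 : 0 ≤ 512 * C ^ 5 * A := by positivity
        nlinarith)
      (by
        have h1 : α * (1 / (64 * C ^ 4 * A * k)) ^ 2 =
            (10 ^ 6 * C ^ 2) / (4096 * A * k ^ 2 * K * L ^ 2) := by
          rw [hα]; field_simp; norm_num
        rw [h1, lt_div_iff₀ (by positivity)]
        have h2 : 8 * ((k : ℝ) + 1) ^ 2 * (A / L ^ 2 * (C / L)) *
            (4096 * A * k ^ 2 * K * L ^ 2) =
            (32768 * C * A ^ 2 * ((k + 1) ^ 2 * k ^ 2 * K)) / L := by
          field_simp; ring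
        rw [h2, div_lt_iff₀ hL0]
        have h3 : ((k : ℝ) + 1) ^ 2 * k ^ 2 * K ≤ 4 * K ^ 5 := by
          have e1 : ((k : ℝ) + 1) ^ 2 ≤ (2 * K) ^ 2 := pow_le_pow_left₀ (by positivity) (by linarith) 2
          have e2 : (k : ℝ) ^ 2 ≤ K ^ 2 := pow_le_pow_left₀ hk0.le hk' 2
          calc ((k : ℝ) + 1) ^ 2 * (k : ℝ) ^ 2 * (K : ℝ) ≤
                (2 * (K : ℝ)) ^ 2 * (K : ℝ) ^ 2 * (K : ℝ) := by gcongr
            _ = 4 * (K : ℝ) ^ 5 := by ring
        have h4 : 32768 * C * A ^ 2 * (((k : ℝ) + 1) ^ 2 * k ^ 2 * K) ≤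
            32768 * C * A ^ 2 * (4 * K ^ 5) := by gcongr
        have h5 := mb 131072 (by norm_num) (by norm_num) 1 2 5 (by norm_num) (by norm_num)
          (by norm_num)
        rw [pow_one] at h5
        have h6 : (1 : ℝ) < 10 ^ 6 * C ^ 2 := by
          have : (1 : ℝ) ≤ C ^ 2 := one_le_pow₀ hC
          linarith
        have h7 : 1 * L < 10 ^ 6 * C ^ 2 * L := mul_lt_mul_of_pos_right h6 hL0
        linarith)
      (m / k) hs1 (by omega)
    have hAk : A / L ^ 2 * k ≤ C / L := by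
      have h1 : A / L ^ 2 * k = (A * k / L) / L := by field_simp
      rw [h1]
      apply div_le_div_of_nonneg_right _ hL0.le
      rw [div_le_iff₀ hL0]
      have h2 := mb 1 (by norm_num) (by norm_num) 0 1 1 (by norm_num) (by norm_num) (by norm_num)
      have h3 : A * K ≤ L := by simpa using h2
      have h4 : A * k ≤ A * K := mul_le_mul_of_nonneg_left hk' hA0.le
      nlinarith
    have hbb := base_bound G k m (m / k) (m % k) hk1 hs1 hdiv.symm hmod.le hmN
      (le_trans (Nat.pow_le_pow_left hk 2) hK2m) hAk hf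
    have h1 : |det2 u v| ≤ C ^ 2 / L ^ 2 := by
      refine (det2_le' hu hv).trans (le_of_eq ?_)
      field_simp
    have h2 : 13 * (A / L ^ 2 * (C / L)) * m ≤ 13 * A * C / L ^ 2 := by
      calc 13 * (A / L ^ 2 * (C / L)) * m ≤ 13 * (A / L ^ 2 * (C / L)) * L := by gcongr
        _ = _ := by field_simp
    refine hbb.trans ?_
    calc |det2 u v| + 13 * (A / L ^ 2 * (C / L)) * m ≤ C ^ 2 / L ^ 2 + 13 * A * C / L ^ 2 := by
          linarith
      _ = (C ^ 2 + 13 * A * C) / L ^ 2 := by ring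
      _ ≤ 14 * A * C ^ 2 / L ^ 2 := by
          apply div_le_div_of_nonneg_right _ (by positivity)
          have e1 : C ^ 2 * 1 ≤ C ^ 2 * A := mul_le_mul_of_nonneg_left hA (by positivity)
          have e2 : A * C * 1 ≤ A * C * C := mul_le_mul_of_nonneg_left hC (by positivity)
          nlinarith
  -- the far point
  have hw : 1 / (4 * C ^ 3) ≤ ‖p m 0 - p 0 0‖ := by
    have h1 : p m 0 - p 0 0 = m * u + E p u v m 0 := by simp only [E]; push_cast; ring
    have h2 := E_le G m 0 (by omega) (by omega)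
    have h3 : ‖(m : ℂ) * u‖ = m * ‖u‖ := by rw [norm_mul, Complex.norm_natCast]
    have h4 : ‖(m : ℂ) * u‖ ≤ ‖p m 0 - p 0 0‖ + ‖E p u v m 0‖ := by
      have : (m : ℂ) * u = (p m 0 - p 0 0) - E p u v m 0 := by rw [h1]; ring
      calc ‖(m : ℂ) * u‖ = ‖(p m 0 - p 0 0) - E p u v m 0‖ := by rw [← this]
        _ ≤ _ := norm_sub_le _ _
    have h5 : (m : ℝ) * (1 / (2 * C ^ 2 * L)) ≤ ‖p m 0 - p 0 0‖ := by
      have e1 : (m : ℝ) * (1 / (C ^ 2 * L)) ≤ m * ‖u‖ :=
        mul_le_mul_of_nonneg_left hulow (Nat.cast_nonneg m)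
      have e2 : A / L ^ 2 * (m + (0 : ℕ)) ≤ m * (1 / (2 * C ^ 2 * L)) := by
        push_cast
        rw [add_zero, mul_comm]
        exact mul_le_mul_of_nonneg_left hahalf (Nat.cast_nonneg m)
      have e3 : (m : ℝ) * (1 / (C ^ 2 * L)) = m * (1 / (2 * C ^ 2 * L)) + m * (1 / (2 * C ^ 2 * L)) := by
        field_simp; ring
      linarith
    refine le_trans ?_ h5
    have h6 : 1 / (4 * C ^ 3) = L / (2 * C) * (1 / (2 * C ^ 2 * L)) := by field_simp; norm_num
    rw [h6]
    exact mul_le_mul_of_nonneg_right hm1 (by positivity)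
  have hQ : 32 * (K : ℝ) * (C / L) ≤ 1 / (4 * C ^ 3) := by
    rw [le_div_iff₀ (by positivity)]
    have h1 : 32 * (K : ℝ) * (C / L) * (4 * C ^ 3) = (128 * C ^ 4 * K) / L := by field_simp; ring
    rw [h1, div_le_one hL0]
    have h2 := mb 128 (by norm_num) (by norm_num) 4 0 1 (by norm_num) (by norm_num) (by norm_num)
    simpa using h2
  have hfin := final_stepS G hα0 hang K m hK hKm (by omega) (14 * A * C ^ 2 / L ^ 2) (1 / (4 * C ^ 3))
    (by positivity) (by positivity) hB hw hQ hua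
  have h1 : α * K * (1 / (4 * C ^ 3)) ^ 2 = 62500 * C ^ 4 * A / L ^ 2 := by
    rw [hα]; field_simp; norm_num
  have h2 : 16 * (14 * A * C ^ 2 / L ^ 2) = 224 * (C ^ 2 * A) / L ^ 2 := by ring
  have h3 : 224 * (C ^ 2 * A) / L ^ 2 < 62500 * C ^ 4 * A / L ^ 2 := by
    apply div_lt_div_of_pos_right _ (by positivity)
    have e1 : C ^ 2 ≤ C ^ 4 := pow_le_pow_right₀ hC (by norm_num)
    have e2 : C ^ 2 * A ≤ C ^ 4 * A := mul_le_mul_of_nonneg_right e1 hA0.le
    have e3 : 0 < C ^ 4 * A := by positivity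
    linarith
  linarith

end

end Pool.Agent.Lib.MP_a768d2_coT
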