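import Pool.Agent.Lib.MP_a768d2_coT.Oct

/-! # Grids with frames of slowly varying scale: basic estimates -/

namespace Pool.Agent.Lib.MP_a768d2_coT

open Pool.Agent.Lib.MP_a768d2_coG

noncomputable section

/-- directional normal form: the frame at `(x, y)` is `ℓ x y • (1, i)` up to `κ`, and the scale `ℓ`
stays between `1` and `L` -/
structure DF (P : ℤ → ℤ → ℂ) (ℓ : ℤ → ℤ → ℝ) (N : ℕ) (κ L : ℝ) : Prop where
  lo : ∀ x y : ℤ, |x| ≤ N → |y| ≤ N → 1 ≤ ℓ x y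
  hi : ∀ x y : ℤ, |x| ≤ N → |y| ≤ N → ℓ x y ≤ L
  fx : ∀ x y : ℤ, |x| ≤ N → |y| ≤ N → ‖P (x + 1) y - P x y - (ℓ x y : ℂ)‖ ≤ κ
  fy : ∀ x y : ℤ, |x| ≤ N → |y| ≤ N → ‖P x (y + 1) - P x y - (ℓ x y : ℂ) * Complex.I‖ ≤ κ

/-- no thin triangle: a near pair is seen from a far point under an angle of at least about `c / N ^ 2`
(area form, ratio `2`) -/
def Void (P : ℤ → ℤ → ℂ) (N : ℕ) (c : ℝ) : Prop :=
  ∀ x y x' y' x'' y'' : ℤ, |x| ≤ N → |y| ≤ N → |x'| ≤ N → |y'| ≤ N → |x''| ≤ N → |y''| ≤ N →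
    P x y ≠ P x' y' → 2 * ‖P x' y' - P x y‖ ≤ ‖P x'' y'' - P x y‖ →
    c * ‖P x'' y'' - P x y‖ ^ 2 ≤ N ^ 2 * |det2 (P x' y' - P x y) (P x'' y'' - P x y)|

/-- the same for a grid indexed by natural numbers, with ratio `4` -/
def Sep (p : ℕ → ℕ → ℂ) (N : ℕ) (γ : ℝ) : Prop :=
  ∀ i j i' j' i'' j'' : ℕ, i ≤ N → j ≤ N → i' ≤ N → j' ≤ N → i'' ≤ N → j'' ≤ N →
    p i j ≠ p i' j' → 4 * ‖p i' j' - p i j‖ ≤ ‖p i'' j'' - p i j‖ →
    γ * ‖p i'' j'' - p i j‖ ^ 2 ≤ |det2 (p i' j' - p i j) (p i'' j'' - p i j)|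

/-- the rows, columns and main diagonals of a normalised grid are straight up to `O(1)` -/
structure Str (Q : ℕ → ℕ → ℂ) (M : ℕ) (χ : ℝ) : Prop where
  row : ∀ i j k : ℕ, i + 1 ≤ M → j ≤ M → k ≤ M → |det2 (Q (i + 1) j - Q i j) (Q k j - Q i j)| ≤ χ
  col : ∀ i j k : ℕ, i ≤ M → j + 1 ≤ M → k ≤ M → |det2 (Q i (j + 1) - Q i j) (Q i k - Q i j)| ≤ χ
  dia : ∀ i j k : ℕ, i + 1 ≤ M → j + 1 ≤ M → i + k ≤ M → j + k ≤ M →
    |det2 (Q (i + 1) (j + 1) - Q i j) (Q (i + k) (j + k) - Q i j)| ≤ χ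

variable {P : ℤ → ℤ → ℂ} {ℓ : ℤ → ℤ → ℝ} {N : ℕ} {κ L c : ℝ}

/-- averages along a line -/
theorem lineL (f : ℤ → ℂ) (g : ℤ → ℝ) (x0 : ℤ) (k : ℕ) (D : ℂ) (ε L : ℝ) (hL : 1 ≤ L)
    (hg : ∀ i : ℕ, i < k → 1 ≤ g (x0 + i) ∧ g (x0 + i) ≤ L)
    (h : ∀ i : ℕ, i < k → ‖f (x0 + i + 1) - f (x0 + i) - (g (x0 + i) : ℂ) * D‖ ≤ ε) :
    ∃ a : ℝ, 1 ≤ a ∧ a ≤ L ∧ ‖f (x0 + k) - f x0 - k * (a * D)‖ ≤ k * ε := by
  induction k with
  | zero => exact ⟨1, le_rfl, hL, by simp⟩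
  | succ k ih =>
    obtain ⟨a, ha1, ha2, ha3⟩ := ih (fun i hi => hg i (by omega)) (fun i hi => h i (by omega))
    obtain ⟨g1, g2⟩ := hg k (by omega)
    have h2 := h k (by omega)
    have hk : (0 : ℝ) < k + 1 := by positivity
    have hk0 : (0 : ℝ) ≤ k := Nat.cast_nonneg k
    refine ⟨(k * a + g (x0 + k)) / (k + 1), ?_, ?_, ?_⟩
    · rw [le_div_iff₀ hk]; nlinarith
    · rw [div_le_iff₀ hk]; nlinarith
    · have e : x0 + ((k + 1 : ℕ) : ℤ) = x0 + k + 1 := by push_cast; ring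
      have hkc : ((k : ℂ) + 1) ≠ 0 := by exact_mod_cast (by positivity : ((k : ℝ) + 1) ≠ 0)
      have e2 : f (x0 + k + 1) - f x0 -
          ((k + 1 : ℕ) : ℂ) * ((((k * a + g (x0 + k)) / (k + 1) : ℝ) : ℂ) * D) =
          (f (x0 + k + 1) - f (x0 + k) - (g (x0 + k) : ℂ) * D) +
          (f (x0 + k) - f x0 - k * (a * D)) := by
        push_cast
        field_simp
        ring
      rw [e, e2]
      refine (norm_add_le _ _).trans ?_
      push_cast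
      linarith

theorem DF.one_le (F : DF P ℓ N κ L) : 1 ≤ L :=
  (F.lo 0 0 (by simp) (by simp)).trans (F.hi 0 0 (by simp) (by simp))

theorem DF.lipx (F : DF P ℓ N κ L) {x x' y : ℤ} (h1 : |x| ≤ N) (h2 : |x'| ≤ N) (h3 : |y| ≤ N) :
    ∃ a : ℝ, 1 ≤ a ∧ a ≤ L ∧
      ‖P x' y - P x y - (a : ℂ) * ((x' - x : ℤ) : ℂ)‖ ≤ κ * |((x' - x : ℤ) : ℝ)| := by
  have h1' := abs_le.mp h1
  have h2' := abs_le.mp h2
  rcases le_total x x' with h | h
  · obtain ⟨a, a1, a2, h4⟩ := lineL (fun z => P z y) (fun z => ℓ z y) x (x' - x).toNat 1 κ L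
      F.one_le
      (fun i hi => ⟨F.lo _ _ (by rw [abs_le]; constructor <;> omega) h3,
        F.hi _ _ (by rw [abs_le]; constructor <;> omega) h3⟩)
      (fun i hi => by
        rw [mul_one]
        exact F.fx _ _ (by rw [abs_le]; constructor <;> omega) h3)
    refine ⟨a, a1, a2, ?_⟩
    have e : x + (((x' - x).toNat : ℕ) : ℤ) = x' := by omega
    have e2 : (((x' - x).toNat : ℕ) : ℝ) = ((x' - x : ℤ) : ℝ) := by
      rw [← Int.cast_natCast, Int.toNat_of_nonneg (by omega)]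
    have e3 : (((x' - x).toNat : ℕ) : ℂ) = ((x' - x : ℤ) : ℂ) := by
      rw [← Int.cast_natCast, Int.toNat_of_nonneg (by omega)]
    rw [e, e2, e3, mul_one] at h4
    have h5 : (0 : ℝ) ≤ ((x' - x : ℤ) : ℝ) := by exact_mod_cast (by omega : 0 ≤ x' - x)
    rw [abs_of_nonneg h5, mul_comm (a : ℂ)]
    linarith
  · obtain ⟨a, a1, a2, h4⟩ := lineL (fun z => P z y) (fun z => ℓ z y) x' (x - x').toNat 1 κ L
      F.one_le
      (fun i hi => ⟨F.lo _ _ (by rw [abs_le]; constructor <;> omega) h3,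
        F.hi _ _ (by rw [abs_le]; constructor <;> omega) h3⟩)
      (fun i hi => by
        rw [mul_one]
        exact F.fx _ _ (by rw [abs_le]; constructor <;> omega) h3)
    refine ⟨a, a1, a2, ?_⟩
    have e : x' + (((x - x').toNat : ℕ) : ℤ) = x := by omega
    have e2 : (((x - x').toNat : ℕ) : ℝ) = ((x - x' : ℤ) : ℝ) := by
      rw [← Int.cast_natCast, Int.toNat_of_nonneg (by omega)]
    have e3 : (((x - x').toNat : ℕ) : ℂ) = ((x - x' : ℤ) : ℂ) := by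
      rw [← Int.cast_natCast, Int.toNat_of_nonneg (by omega)]
    rw [e, e2, e3, mul_one] at h4
    have h5 : (0 : ℝ) ≤ ((x - x' : ℤ) : ℝ) := by exact_mod_cast (by omega : 0 ≤ x - x')
    have e4 : ((x' - x : ℤ) : ℝ) = -((x - x' : ℤ) : ℝ) := by push_cast; ring
    rw [e4, abs_neg, abs_of_nonneg h5]
    have e5 : P x' y - P x y - (a : ℂ) * ((x' - x : ℤ) : ℂ) =
        -(P x y - P x' y - ((x - x' : ℤ) : ℂ) * a) := by
      push_cast; ring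
    rw [e5, norm_neg]
    linarith

theorem DF.lipy (F : DF P ℓ N κ L) {x y y' : ℤ} (h1 : |y| ≤ N) (h2 : |y'| ≤ N) (h3 : |x| ≤ N) :
    ∃ b : ℝ, 1 ≤ b ∧ b ≤ L ∧
      ‖P x y' - P x y - (b : ℂ) * (((y' - y : ℤ) : ℂ) * Complex.I)‖ ≤ κ * |((y' - y : ℤ) : ℝ)| := by
  have h1' := abs_le.mp h1
  have h2' := abs_le.mp h2
  rcases le_total y y' with h | h
  · obtain ⟨a, a1, a2, h4⟩ := lineL (fun z => P x z) (fun z => ℓ x z) y (y' - y).toNat Complex.I κ L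
      F.one_le
      (fun i hi => ⟨F.lo _ _ h3 (by rw [abs_le]; constructor <;> omega),
        F.hi _ _ h3 (by rw [abs_le]; constructor <;> omega)⟩)
      (fun i hi => F.fy _ _ h3 (by rw [abs_le]; constructor <;> omega))
    refine ⟨a, a1, a2, ?_⟩
    have e : y + (((y' - y).toNat : ℕ) : ℤ) = y' := by omega
    have e2 : (((y' - y).toNat : ℕ) : ℝ) = ((y' - y : ℤ) : ℝ) := by
      rw [← Int.cast_natCast, Int.toNat_of_nonneg (by omega)]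
    have e3 : (((y' - y).toNat : ℕ) : ℂ) = ((y' - y : ℤ) : ℂ) := by
      rw [← Int.cast_natCast, Int.toNat_of_nonneg (by omega)]
    rw [e, e2, e3] at h4
    have h5 : (0 : ℝ) ≤ ((y' - y : ℤ) : ℝ) := by exact_mod_cast (by omega : 0 ≤ y' - y)
    rw [abs_of_nonneg h5]
    have e6 : (a : ℂ) * (((y' - y : ℤ) : ℂ) * Complex.I) =
        ((y' - y : ℤ) : ℂ) * (a * Complex.I) := by ring
    rw [e6]
    linarith
  · obtain ⟨a, a1, a2, h4⟩ := lineL (fun z => P x z) (fun z => ℓ x z) y' (y - y').toNat Complex.I κ L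
      F.one_le
      (fun i hi => ⟨F.lo _ _ h3 (by rw [abs_le]; constructor <;> omega),
        F.hi _ _ h3 (by rw [abs_le]; constructor <;> omega)⟩)
      (fun i hi => F.fy _ _ h3 (by rw [abs_le]; constructor <;> omega))
    refine ⟨a, a1, a2, ?_⟩
    have e : y' + (((y - y').toNat : ℕ) : ℤ) = y := by omega
    have e2 : (((y - y').toNat : ℕ) : ℝ) = ((y - y' : ℤ) : ℝ) := by
      rw [← Int.cast_natCast, Int.toNat_of_nonneg (by omega)]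
    have e3 : (((y - y').toNat : ℕ) : ℂ) = ((y - y' : ℤ) : ℂ) := by
      rw [← Int.cast_natCast, Int.toNat_of_nonneg (by omega)]
    rw [e, e2, e3] at h4
    have h5 : (0 : ℝ) ≤ ((y - y' : ℤ) : ℝ) := by exact_mod_cast (by omega : 0 ≤ y - y')
    have e4 : ((y' - y : ℤ) : ℝ) = -((y - y' : ℤ) : ℝ) := by push_cast; ring
    rw [e4, abs_neg, abs_of_nonneg h5]
    have e5 : P x y' - P x y - (a : ℂ) * (((y' - y : ℤ) : ℂ) * Complex.I) =
        -(P x y - P x y' - ((y - y' : ℤ) : ℂ) * (a * Complex.I)) := by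
      push_cast; ring
    rw [e5, norm_neg]
    linarith

/-- displacements between any two points of the window -/
theorem DF.lip (F : DF P ℓ N κ L) {x y x' y' : ℤ} (h1 : |x| ≤ N) (h2 : |y| ≤ N)
    (h3 : |x'| ≤ N) (h4 : |y'| ≤ N) :
    ∃ a b : ℝ, 1 ≤ a ∧ a ≤ L ∧ 1 ≤ b ∧ b ≤ L ∧
    ‖P x' y' - P x y - ((a : ℂ) * ((x' - x : ℤ) : ℂ) + (b : ℂ) * (((y' - y : ℤ) : ℂ) * Complex.I))‖ ≤
      κ * (|((x' - x : ℤ) : ℝ)| + |((y' - y : ℤ) : ℝ)|) := by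
  obtain ⟨a, a1, a2, a3⟩ := F.lipx h1 h3 h2
  obtain ⟨b, b1, b2, b3⟩ := F.lipy h2 h4 h3
  refine ⟨a, b, a1, a2, b1, b2, ?_⟩
  have e : P x' y' - P x y -
      ((a : ℂ) * ((x' - x : ℤ) : ℂ) + (b : ℂ) * (((y' - y : ℤ) : ℂ) * Complex.I)) =
      (P x' y' - P x' y - (b : ℂ) * (((y' - y : ℤ) : ℂ) * Complex.I)) +
      (P x' y - P x y - (a : ℂ) * ((x' - x : ℤ) : ℂ)) := by ring
  rw [e]
  refine (norm_add_le _ _).trans ?_
  linarith

/-- upper bound for distances -/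
theorem DF.upper (F : DF P ℓ N κ L) (hκ1 : κ ≤ 1) {x y x' y' : ℤ} (h1 : |x| ≤ N)
    (h2 : |y| ≤ N) (h3 : |x'| ≤ N) (h4 : |y'| ≤ N) :
    ‖P x' y' - P x y‖ ≤ 2 * L * (|((x' - x : ℤ) : ℝ)| + |((y' - y : ℤ) : ℝ)|) := by
  obtain ⟨a, b, a1, a2, b1, b2, h⟩ := F.lip h1 h2 h3 h4
  have hL := F.one_le
  set m := ((x' - x : ℤ) : ℝ)
  set n := ((y' - y : ℤ) : ℝ)
  have e1 : ‖(a : ℂ) * ((x' - x : ℤ) : ℂ) + (b : ℂ) * (((y' - y : ℤ) : ℂ) * Complex.I)‖ ≤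
      L * (|m| + |n|) := by
    refine (norm_add_le _ _).trans ?_
    rw [norm_mul, norm_mul, norm_mul, Complex.norm_I, mul_one, Complex.norm_intCast,
      Complex.norm_intCast, Complex.norm_real, Complex.norm_real, Real.norm_eq_abs,
      Real.norm_eq_abs, abs_of_pos (by linarith : 0 < a), abs_of_pos (by linarith : 0 < b)]
    have t1 : a * |m| ≤ L * |m| := mul_le_mul_of_nonneg_right a2 (abs_nonneg _)
    have t2 : b * |n| ≤ L * |n| := mul_le_mul_of_nonneg_right b2 (abs_nonneg _)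
    linarith
  have e2 := norm_add_le (P x' y' - P x y - ((a : ℂ) * ((x' - x : ℤ) : ℂ) +
    (b : ℂ) * (((y' - y : ℤ) : ℂ) * Complex.I))) ((a : ℂ) * ((x' - x : ℤ) : ℂ) +
    (b : ℂ) * (((y' - y : ℤ) : ℂ) * Complex.I))
  rw [sub_add_cancel] at e2
  have h0 : 0 ≤ |m| + |n| := by positivity
  have e3 : κ * (|m| + |n|) ≤ L * (|m| + |n|) := mul_le_mul_of_nonneg_right (by linarith) h0
  linarith

/-- the scale varies slowly -/
theorem DF.slow (F : DF P ℓ N κ L) {x y : ℤ} (hx : |x| ≤ N) (hy : |y| ≤ N) (hx' : |x + 1| ≤ N)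
    (hy' : |y + 1| ≤ N) : |ℓ (x + 1) y - ℓ x y| ≤ 4 * κ ∧ |ℓ x (y + 1) - ℓ x y| ≤ 4 * κ := by
  have a1 := F.fx x y hx hy
  have a2 := F.fy (x + 1) y hx' hy
  have a3 := F.fy x y hx hy
  have a4 := F.fx x (y + 1) hx hy'
  have key : ‖((ℓ (x + 1) y : ℂ) - ℓ x y) * Complex.I - ((ℓ x (y + 1) : ℂ) - ℓ x y)‖ ≤ 4 * κ := by
    have e : ((ℓ (x + 1) y : ℂ) - ℓ x y) * Complex.I - ((ℓ x (y + 1) : ℂ) - ℓ x y) =
        ((P x (y + 1) - P x y - (ℓ x y : ℂ) * Complex.I) +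
        (P (x + 1) (y + 1) - P x (y + 1) - (ℓ x (y + 1) : ℂ))) -
        ((P (x + 1) y - P x y - (ℓ x y : ℂ)) +
        (P (x + 1) (y + 1) - P (x + 1) y - (ℓ (x + 1) y : ℂ) * Complex.I)) := by ring
    rw [e]
    refine (norm_sub_le _ _).trans ?_
    have t1 := norm_add_le (P x (y + 1) - P x y - (ℓ x y : ℂ) * Complex.I)
      (P (x + 1) (y + 1) - P x (y + 1) - (ℓ x (y + 1) : ℂ))
    have t2 := norm_add_le (P (x + 1) y - P x y - (ℓ x y : ℂ))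
      (P (x + 1) (y + 1) - P (x + 1) y - (ℓ (x + 1) y : ℂ) * Complex.I)
    linarith
  have r1 := (Complex.abs_im_le_norm _).trans key
  have r2 := (Complex.abs_re_le_norm _).trans key
  simp only [Complex.sub_im, Complex.sub_re, Complex.mul_im, Complex.mul_re, Complex.ofReal_re,
    Complex.ofReal_im, Complex.I_re, Complex.I_im, mul_zero, mul_one, sub_zero, add_zero,
    zero_sub, sub_self] at r1 r2
  rw [abs_neg] at r2
  exact ⟨r1, r2⟩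

end

end Pool.Agent.Lib.MP_a768d2_coT
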