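import Pool.Agent.Lib.MP_a768d2_coD.Geo

/-! # Grids with frames of slowly varying scale: frames -/

namespace Pool.Agent.Lib.MP_a768d2_coT

open Pool.Agent.Lib.MP_a768d2_coG

noncomputable section

variable {P : ℤ → ℤ → ℂ} {ℓ : ℤ → ℤ → ℝ} {N : ℕ} {κ L c : ℝ}

theorem DF.horiz (F : DF P ℓ N κ L) (hκ : 0 ≤ κ) {e x y : ℤ} (he : |e| ≤ 1) (hx : |x| < N)
    (hy : |y| < N) : ‖P (x + e) y - P x y - (ℓ x y : ℂ) * (e : ℂ)‖ ≤ 5 * κ ∧
      |ℓ (x + e) y - ℓ x y| ≤ 4 * κ := by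
  have a1 := abs_le.mp he
  have a2 := abs_lt.mp hx
  have a3 := abs_lt.mp hy
  have he' : e = 1 ∨ e = 0 ∨ e = -1 := by omega
  rcases he' with rfl | rfl | rfl
  · refine ⟨?_, (F.slow hx.le hy.le (by rw [abs_le]; constructor <;> omega)
      (by rw [abs_le]; constructor <;> omega)).1⟩
    have := F.fx x y hx.le hy.le
    have e1 : ((1 : ℤ) : ℂ) = 1 := by norm_num
    rw [e1, mul_one]
    linarith
  · simp only [add_zero, sub_self, Int.cast_zero, mul_zero, sub_zero, norm_zero, abs_zero]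
    constructor <;> linarith
  · have s1 := (F.slow (x := x - 1) (y := y) (by rw [abs_le]; constructor <;> omega) hy.le
      (by rw [abs_le]; constructor <;> omega) (by rw [abs_le]; constructor <;> omega)).1
    have s2 := F.fx (x - 1) y (by rw [abs_le]; constructor <;> omega) hy.le
    rw [sub_add_cancel] at s1 s2
    have e1 : x + -1 = x - 1 := by ring
    rw [e1]
    constructor
    · have e2 : P (x - 1) y - P x y - (ℓ x y : ℂ) * ((-1 : ℤ) : ℂ) =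
          ((ℓ x y - ℓ (x - 1) y : ℝ) : ℂ) - (P x y - P (x - 1) y - (ℓ (x - 1) y : ℂ)) := by
        push_cast; ring
      rw [e2]
      refine (norm_sub_le _ _).trans ?_
      rw [Complex.norm_real, Real.norm_eq_abs]
      linarith
    · rw [abs_sub_comm]; exact s1

theorem DF.vert (F : DF P ℓ N κ L) (hκ : 0 ≤ κ) {e x y : ℤ} (he : |e| ≤ 1) (hx : |x| < N)
    (hy : |y| < N) : ‖P x (y + e) - P x y - (ℓ x y : ℂ) * ((e : ℂ) * Complex.I)‖ ≤ 5 * κ := by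
  have a1 := abs_le.mp he
  have a2 := abs_lt.mp hx
  have a3 := abs_lt.mp hy
  have he' : e = 1 ∨ e = 0 ∨ e = -1 := by omega
  rcases he' with rfl | rfl | rfl
  · have := F.fy x y hx.le hy.le
    have e1 : ((1 : ℤ) : ℂ) = 1 := by norm_num
    rw [e1, one_mul]
    linarith
  · simp only [add_zero, sub_self, Int.cast_zero, mul_zero, zero_mul, sub_zero, norm_zero]
    linarith
  · have s1 := (F.slow (x := x) (y := y - 1) hx.le (by rw [abs_le]; constructor <;> omega)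
      (by rw [abs_le]; constructor <;> omega) (by rw [abs_le]; constructor <;> omega)).2
    have s2 := F.fy x (y - 1) hx.le (by rw [abs_le]; constructor <;> omega)
    rw [sub_add_cancel] at s1 s2
    have e1 : y + -1 = y - 1 := by ring
    rw [e1]
    have e2 : P x (y - 1) - P x y - (ℓ x y : ℂ) * (((-1 : ℤ) : ℂ) * Complex.I) =
        ((ℓ x y - ℓ x (y - 1) : ℝ) : ℂ) * Complex.I -
        (P x y - P x (y - 1) - (ℓ x (y - 1) : ℂ) * Complex.I) := by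
      push_cast; ring
    rw [e2]
    refine (norm_sub_le _ _).trans ?_
    rw [norm_mul, Complex.norm_I, mul_one, Complex.norm_real, Real.norm_eq_abs]
    linarith

theorem DF.frame (F : DF P ℓ N κ L) (hκ : 0 ≤ κ) (hN : 4 ≤ N) {e1 e2 x y : ℤ} (h1 : |e1| ≤ 1)
    (h2 : |e2| ≤ 1) (hx : 2 * |x| ≤ N) (hy : 2 * |y| ≤ N) :
    ‖Fr P e1 e2 x y - (ℓ x y : ℂ) * vec e1 e2‖ ≤ 14 * κ := by
  have a1 := abs_le.mp h1
  have a2 := abs_le.mp (show |x| ≤ (N : ℤ) / 2 by omega)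
  have hx' : |x| < N := by omega
  have hy' : |y| < N := by omega
  obtain ⟨b1, b2⟩ := F.horiz hκ h1 hx' hy'
  have b3 := F.vert hκ h2 (x := x + e1) (y := y) (by rw [abs_lt]; constructor <;> omega) hy'
  have e : Fr P e1 e2 x y - (ℓ x y : ℂ) * vec e1 e2 =
      (P (x + e1) (y + e2) - P (x + e1) y - (ℓ (x + e1) y : ℂ) * ((e2 : ℂ) * Complex.I)) +
      (P (x + e1) y - P x y - (ℓ x y : ℂ) * (e1 : ℂ)) +
      ((ℓ (x + e1) y - ℓ x y : ℝ) : ℂ) * ((e2 : ℂ) * Complex.I) := by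
    unfold Fr vec; push_cast; ring
  rw [e]
  refine (norm_add_le _ _).trans ?_
  have t1 := norm_add_le (P (x + e1) (y + e2) - P (x + e1) y -
    (ℓ (x + e1) y : ℂ) * ((e2 : ℂ) * Complex.I)) (P (x + e1) y - P x y - (ℓ x y : ℂ) * (e1 : ℂ))
  have t2 : ‖((ℓ (x + e1) y - ℓ x y : ℝ) : ℂ) * ((e2 : ℂ) * Complex.I)‖ ≤ 4 * κ := by
    rw [norm_mul, norm_mul, Complex.norm_I, mul_one, Complex.norm_real, Real.norm_eq_abs,
      Complex.norm_intCast]
    have h3 : |(e2 : ℝ)| ≤ 1 := by exact_mod_cast h2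
    have h4 : |ℓ (x + e1) y - ℓ x y| * |(e2 : ℝ)| ≤ |ℓ (x + e1) y - ℓ x y| * 1 :=
      mul_le_mul_of_nonneg_left h3 (abs_nonneg _)
    linarith
  linarith

theorem norm_real_mul {a : ℝ} (ha : 0 ≤ a) (z : ℂ) : ‖(a : ℂ) * z‖ = a * ‖z‖ := by
  rw [norm_mul, Complex.norm_real, Real.norm_eq_abs, abs_of_nonneg ha]

theorem DF.norm_frame (F : DF P ℓ N κ L) (hκ : 0 ≤ κ) (hκ1 : κ ≤ 1 / 100) (hN : 4 ≤ N)
    {e1 e2 g1 g2 x y : ℤ} (hd : Dir e1 e2 g1 g2) (hx : 2 * |x| ≤ N) (hy : 2 * |y| ≤ N) :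
    1 / 2 ≤ ‖Fr P e1 e2 x y‖ ∧ ‖Fr P e1 e2 x y‖ ≤ 2 * L := by
  have hb := hd.bd
  have hL := F.one_le
  have h := F.frame hκ hN (abs_le.mpr hb.1) (abs_le.mpr hb.2.1) hx hy
  have hn := hd.norm_e
  have hlo := F.lo x y (by omega) (by omega)
  have hhi := F.hi x y (by omega) (by omega)
  have hnm : ‖(ℓ x y : ℂ) * vec e1 e2‖ = ℓ x y * ‖vec e1 e2‖ := norm_real_mul (by linarith) _
  have h1 : ‖(ℓ x y : ℂ) * vec e1 e2‖ ≤ ‖Fr P e1 e2 x y‖ +
      ‖Fr P e1 e2 x y - (ℓ x y : ℂ) * vec e1 e2‖ := by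
    have := norm_sub_le (Fr P e1 e2 x y) (Fr P e1 e2 x y - (ℓ x y : ℂ) * vec e1 e2)
    rwa [sub_sub_cancel] at this
  have h2 : ‖Fr P e1 e2 x y‖ ≤ ‖Fr P e1 e2 x y - (ℓ x y : ℂ) * vec e1 e2‖ +
      ‖(ℓ x y : ℂ) * vec e1 e2‖ := by
    have := norm_add_le (Fr P e1 e2 x y - (ℓ x y : ℂ) * vec e1 e2) ((ℓ x y : ℂ) * vec e1 e2)
    rwa [sub_add_cancel] at this
  rw [hnm] at h1 h2
  have h3 : 1 * 1 ≤ ℓ x y * ‖vec e1 e2‖ := mul_le_mul hlo hn.1 (by norm_num) (by linarith)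
  have h4 : ℓ x y * ‖vec e1 e2‖ ≤ L * (3 / 2) :=
    mul_le_mul hhi hn.2.1 (norm_nonneg _) (by linarith)
  constructor <;> linarith

/-- lower bound for distances in a chart -/
theorem DF.far (F : DF P ℓ N κ L) (hκ1 : κ ≤ 1 / 100) {e1 e2 g1 g2 x y s t : ℤ}
    (hd : Dir e1 e2 g1 g2) (hx : |x| ≤ N) (hy : |y| ≤ N) (hx' : |x + s * e1 + t * g1| ≤ N)
    (hy' : |y + s * e2 + t * g2| ≤ N) (hs : 0 ≤ s) (ht : |t| ≤ s) :
    (s : ℝ) / 2 ≤ ‖P (x + s * e1 + t * g1) (y + s * e2 + t * g2) - P x y‖ := by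
  obtain ⟨a, b, a1, a2, b1, b2, h⟩ := F.lip hx hy hx' hy'
  have ex : x + s * e1 + t * g1 - x = s * e1 + t * g1 := by ring
  have ey : y + s * e2 + t * g2 - y = s * e2 + t * g2 := by ring
  rw [ex, ey] at h
  set m := s * e1 + t * g1 with hm
  set n := s * e2 + t * g2 with hn
  have ht' := abs_le.mp ht
  have key : s ≤ max |m| |n| ∧ |m| + |n| ≤ 3 * s := by
    rcases hd with ⟨rfl, rfl, rfl, rfl⟩ | ⟨rfl, rfl, rfl, rfl⟩ | ⟨rfl, rfl, rfl, rfl⟩ |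
      ⟨rfl, rfl, rfl, rfl⟩ | ⟨rfl, rfl, rfl, rfl⟩ | ⟨rfl, rfl, rfl, rfl⟩ | ⟨rfl, rfl, rfl, rfl⟩ |
      ⟨rfl, rfl, rfl, rfl⟩ <;>
    (rcases abs_cases m with ⟨a1, _⟩ | ⟨a1, _⟩ <;> rcases abs_cases n with ⟨a2, _⟩ | ⟨a2, _⟩ <;>
      rw [a1, a2] <;> constructor <;> omega)
  set w : ℂ := (a : ℂ) * (m : ℂ) + (b : ℂ) * ((n : ℂ) * Complex.I) with hw
  have hwre : w.re = a * m := by rw [hw]; simp
  have hwim : w.im = b * n := by rw [hw]; simp
  have hvec : (s : ℝ) ≤ ‖w‖ := by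
    have h1 := Complex.abs_re_le_norm w
    have h2 := Complex.abs_im_le_norm w
    rw [hwre, abs_mul, abs_of_pos (by linarith : 0 < a)] at h1
    rw [hwim, abs_mul, abs_of_pos (by linarith : 0 < b)] at h2
    rcases le_max_iff.mp key.1 with h3 | h3
    · have h4 : (s : ℝ) ≤ |(m : ℝ)| := by exact_mod_cast h3
      have h5 : 1 * |(m : ℝ)| ≤ a * |(m : ℝ)| := mul_le_mul_of_nonneg_right a1 (abs_nonneg _)
      linarith
    · have h4 : (s : ℝ) ≤ |(n : ℝ)| := by exact_mod_cast h3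
      have h5 : 1 * |(n : ℝ)| ≤ b * |(n : ℝ)| := mul_le_mul_of_nonneg_right b1 (abs_nonneg _)
      linarith
  have hsum : |(m : ℝ)| + |(n : ℝ)| ≤ 3 * s := by exact_mod_cast key.2
  have hs' : (0 : ℝ) ≤ s := by exact_mod_cast hs
  have h3 : κ * (|(m : ℝ)| + |(n : ℝ)|) ≤ 1 / 100 * (3 * s) :=
    mul_le_mul hκ1 hsum (by positivity) (by norm_num)
  have h4 : ‖w‖ ≤ ‖P (x + m) (y + n) - P x y‖ + ‖P (x + m) (y + n) - P x y - w‖ := by
    have := norm_sub_le (P (x + m) (y + n) - P x y) (P (x + m) (y + n) - P x y - w)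
    rwa [sub_sub_cancel] at this
  have e3 : x + s * e1 + t * g1 = x + m := by rw [hm]; ring
  have e4 : y + s * e2 + t * g2 = y + n := by rw [hn]; ring
  rw [e3, e4] at h ⊢
  linarith

/-- distance along a row, both signs -/
theorem DF.far_row (F : DF P ℓ N κ L) (hκ1 : κ ≤ 1 / 100) {e1 e2 g1 g2 x y m : ℤ}
    (hd : Dir e1 e2 g1 g2) (hx : |x| ≤ N) (hy : |y| ≤ N) (hx' : |x + m * e1| ≤ N)
    (hy' : |y + m * e2| ≤ N) : |(m : ℝ)| / 2 ≤ ‖P (x + m * e1) (y + m * e2) - P x y‖ := by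
  rcases le_total 0 m with h0 | h0
  · have := F.far hκ1 (s := m) (t := 0) hd hx hy (by simpa using hx') (by simpa using hy') h0
      (by simpa using h0)
    have hm : (0 : ℝ) ≤ m := by exact_mod_cast h0
    rw [abs_of_nonneg hm]
    simpa using this
  · have h1 : x + -m * -e1 + 0 * -g1 = x + m * e1 := by ring
    have h2 : y + -m * -e2 + 0 * -g2 = y + m * e2 := by ring
    have := F.far hκ1 (s := -m) (t := 0) hd.neg hx hy (by rw [h1]; exact hx')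
      (by rw [h2]; exact hy') (by omega) (by simp; omega)
    rw [h1, h2] at this
    have hm : (m : ℝ) ≤ 0 := by exact_mod_cast h0
    rw [abs_of_nonpos hm]
    push_cast at this
    exact this

theorem det2_real (a b : ℝ) (z w : ℂ) :
    det2 ((a : ℂ) * z) ((b : ℂ) * w) = a * b * det2 z w := by
  simp only [det2, Complex.mul_re, Complex.mul_im, Complex.ofReal_re, Complex.ofReal_im, zero_mul,
    sub_zero, add_zero]
  ring

/-- increments of `Ps` -/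
theorem DF.Ps_bd (F : DF P ℓ N κ L) (hκ : 0 ≤ κ) (hκ1 : κ * L ≤ 1 / 1000) (hN : 4 ≤ N)
    {e1 e2 g1 g2 x y s t : ℤ} (hd : Dir e1 e2 g1 g2) (hx : 2 * |x| ≤ N) (hy : 2 * |y| ≤ N)
    (hx' : 2 * |x + s * e1 + t * g1| ≤ N) (hy' : 2 * |y + s * e2 + t * g2| ≤ N) :
    1 / 2 ≤ Ps P e1 e2 g1 g2 x y s (t + 1) - Ps P e1 e2 g1 g2 x y s t ∧
    Ps P e1 e2 g1 g2 x y s (t + 1) - Ps P e1 e2 g1 g2 x y s t ≤ 2 * L ^ 2 := by
  have hb := hd.bd
  have hn := hd.norm_e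
  have hL := F.one_le
  have f0 := F.frame hκ hN (abs_le.mpr hb.1) (abs_le.mpr hb.2.1) hx hy
  have f2 := F.frame hκ hN (abs_le.mpr hb.2.2.1) (abs_le.mpr hb.2.2.2) hx' hy'
  have l0 := F.lo x y (by omega) (by omega)
  have l1 := F.hi x y (by omega) (by omega)
  have l2 := F.lo (x + s * e1 + t * g1) (y + s * e2 + t * g2) (by omega) (by omega)
  have l3 := F.hi (x + s * e1 + t * g1) (y + s * e2 + t * g2) (by omega) (by omega)
  set a := ℓ x y
  set b := ℓ (x + s * e1 + t * g1) (y + s * e2 + t * g2)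
  have d2 := det_close f0 f2
  rw [det2_real, hd.det, norm_real_mul (by linarith), norm_real_mul (by linarith), hn.2.2,
    mul_one, mul_one] at d2
  rw [Ps_t]
  have hκL : κ ≤ κ * L := by nlinarith
  have s1 : a * ‖vec e1 e2‖ ≤ L * (3 / 2) := mul_le_mul l1 hn.2.1 (norm_nonneg _) (by linarith)
  have s2 : 14 * κ * (a * ‖vec e1 e2‖ + b) ≤ 14 * κ * (L * (3 / 2) + L) :=
    mul_le_mul_of_nonneg_left (by linarith) (by linarith)
  have s3 : (14 * κ) ^ 2 ≤ 1 / 100 := by nlinarith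
  have s4 : 14 * κ * (L * (3 / 2) + L) = 35 * (κ * L) := by ring
  have s5 : 14 * κ * (a * ‖vec e1 e2‖ + b) + (14 * κ) ^ 2 ≤ 1 / 8 := by
    rw [s4] at s2
    linarith
  have d3 := abs_le.mp (d2.trans s5)
  have s6 : 1 * 1 ≤ a * b := mul_le_mul l0 l2 (by norm_num) (by linarith)
  have s7 : a * b ≤ L * L := mul_le_mul l1 l3 (by linarith) (by linarith)
  have s8 : L * L = L ^ 2 := by ring
  have s9 : 1 ≤ L ^ 2 := one_le_pow₀ hL
  constructor <;> linarith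

end

end Pool.Agent.Lib.MP_a768d2_coT
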