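import Pool.Agent.Lib.MP_a768d2_coD.Geo2

/-! # Grids with frames of slowly varying scale: step B -/

namespace Pool.Agent.Lib.MP_a768d2_coT

open Pool.Agent.Lib.MP_a768d2_coG

noncomputable section

theorem incL (f : ℤ → ℝ) (Λ : ℝ) (t : ℤ) (k : ℕ)
    (h : ∀ i : ℕ, i < k → 1 / 2 ≤ f (t + i + 1) - f (t + i) ∧ f (t + i + 1) - f (t + i) ≤ Λ) :
    (k : ℝ) / 2 ≤ f (t + k) - f t ∧ f (t + k) - f t ≤ Λ * k := by
  induction k with
  | zero => simp
  | succ k ih =>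
    obtain ⟨h1, h2⟩ := ih (fun i hi => h i (by omega))
    obtain ⟨h3, h4⟩ := h k (by omega)
    have e : t + ((k + 1 : ℕ) : ℤ) = t + k + 1 := by push_cast; ring
    rw [e]
    push_cast
    constructor <;> linarith

/-- rows cannot cross the line once the void is larger than the steps; general size `Λ` of the
transversal increments -/
theorem signsL (Ψ : ℤ → ℤ → ℝ) (S s1 T : ℕ) (δ Λ : ℝ) (hδ : 0 ≤ δ) (hΛ : 2 ≤ Λ) (h0 : Ψ 0 0 = 0)
    (hstep : ∀ s t : ℤ, 0 ≤ s → s < S → |t| ≤ T → |Ψ (s + 1) t - Ψ s t| ≤ δ)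
    (hinc : ∀ s t : ℤ, 0 ≤ s → s ≤ S → |t| ≤ T →
      1 / 2 ≤ Ψ s (t + 1) - Ψ s t ∧ Ψ s (t + 1) - Ψ s t ≤ Λ)
    (hvoid : ∀ s t : ℤ, s1 ≤ s → s ≤ S → |t| ≤ T → δ < |Ψ s t|)
    (hT : 2 * δ * s1 + 1 ≤ T) (s : ℕ) (hs : s ≤ S) : |Ψ s 0| ≤ Λ * (2 * δ * s1 + 1) := by
  have hδs : 0 ≤ δ * s1 := by positivity
  have hΛ2 : 2 * (2 * δ * s1 + 1) ≤ Λ * (2 * δ * s1 + 1) :=
    mul_le_mul_of_nonneg_right hΛ (by linarith)
  rcases Nat.lt_or_ge s s1 with h | h
  · have h1 := step_sum (fun s => Ψ s 0) δ 0 s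
      (fun i hi => hstep _ _ (by omega) (by omega) (by simp))
    simp only [zero_add, h0, sub_zero] at h1
    refine h1.trans ?_
    have h2 : (s : ℝ) * δ ≤ s1 * δ := by
      apply mul_le_mul_of_nonneg_right _ hδ
      exact_mod_cast h.le
    linarith
  · -- position at s1
    have h1 := step_sum (fun s => Ψ s 0) δ 0 s1
      (fun i hi => hstep _ _ (by omega) (by omega) (by simp))
    simp only [zero_add, h0, sub_zero] at h1
    set k : ℕ := ⌊2 * |Ψ s1 0|⌋₊ + 1 with hk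
    have hk1 : 2 * |Ψ s1 0| < k := by
      rw [hk]; push_cast; exact Nat.lt_floor_add_one _
    have hk2 : (k : ℝ) ≤ 2 * |Ψ s1 0| + 1 := by
      rw [hk]; push_cast
      have := Nat.floor_le (show 0 ≤ 2 * |Ψ s1 0| by positivity)
      linarith
    have hk3 : (k : ℝ) ≤ 2 * δ * s1 + 1 := by linarith
    have hk4 : Λ * k ≤ Λ * (2 * δ * s1 + 1) := mul_le_mul_of_nonneg_left hk3 (by linarith)
    have hkT : k ≤ T := by
      have : (k : ℝ) ≤ T := hk3.trans hT
      exact_mod_cast this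
    have hs1S : s1 ≤ S := h.trans hs
    have hv0 := hvoid s1 0 le_rfl (by exact_mod_cast hs1S) (by simp)
    have e1 : (s1 : ℤ) + ((s - s1 : ℕ) : ℤ) = s := by omega
    have pers_pos : ∀ t : ℤ, |t| ≤ T → 0 < Ψ s1 t → 0 < Ψ s t := by
      intro t ht h0
      have := sign_pos (fun s => Ψ s t) δ s1 (s - s1)
        (fun i hi => hstep _ _ (by omega) (by omega) ht)
        (fun i hi => hvoid _ _ (by omega) (by omega) ht) h0
      rwa [e1] at this
    have pers_neg : ∀ t : ℤ, |t| ≤ T → Ψ s1 t < 0 → Ψ s t < 0 := by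
      intro t ht h0
      have := sign_neg (fun s => Ψ s t) δ s1 (s - s1)
        (fun i hi => hstep _ _ (by omega) (by omega) ht)
        (fun i hi => hvoid _ _ (by omega) (by omega) ht) h0
      rwa [e1] at this
    have hT0 : |(0 : ℤ)| ≤ T := by simp
    rcases lt_trichotomy (Ψ s1 0) 0 with hneg | hzero | hpos
    · -- Ψ s1 0 < 0 : use t = k
      have i1 := incL (fun t => Ψ s1 t) Λ 0 k (fun i hi => hinc _ _ (by omega) (by omega)
        (by rw [abs_of_nonneg (by omega)]; omega))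
      have i2 := incL (fun t => Ψ s t) Λ 0 k (fun i hi => hinc _ _ (by omega) (by omega)
        (by rw [abs_of_nonneg (by omega)]; omega))
      simp only [zero_add] at i1 i2
      rw [abs_of_neg hneg] at hk1 hk2
      have p1 := pers_pos k (by rw [abs_of_nonneg (by omega)]; omega) (by linarith [i1.1])
      have p2 := pers_neg 0 hT0 hneg
      rw [abs_of_neg p2]
      linarith [i2.2]
    · rw [hzero, abs_zero] at hv0
      linarith
    · have i1 := incL (fun t => Ψ s1 t) Λ (-k) k (fun i hi => hinc _ _ (by omega) (by omega)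
        (by rw [abs_le]; constructor <;> omega))
      have i2 := incL (fun t => Ψ s t) Λ (-k) k (fun i hi => hinc _ _ (by omega) (by omega)
        (by rw [abs_le]; constructor <;> omega))
      simp only [neg_add_cancel] at i1 i2
      rw [abs_of_pos hpos] at hk1 hk2
      have p1 := pers_neg (-k) (by rw [abs_le]; constructor <;> omega) (by linarith [i1.1])
      have p2 := pers_pos 0 hT0 hpos
      rw [abs_of_pos p2]
      linarith [i2.2]

theorem Oct.win2 {R : ℝ} {x y : ℤ} {N : ℕ} (h : Oct R x y) (hR : 8 * R ≤ N) :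
    2 * |x| ≤ N ∧ 2 * |y| ≤ N := by
  have hN : (0 : ℝ) ≤ N := Nat.cast_nonneg N
  have h1 : 2 * |(x : ℝ)| ≤ N := by linarith [h.1]
  have h2 : 2 * |(y : ℝ)| ≤ N := by linarith [h.2.1]
  exact ⟨by exact_mod_cast h1, by exact_mod_cast h2⟩

variable {P : ℤ → ℤ → ℂ} {ℓ : ℤ → ℤ → ℝ} {N : ℕ} {κ L c : ℝ}

theorem DF.crossRow (F : DF P ℓ N κ L) (hκ : 0 ≤ κ) (hκ1 : κ * L ≤ 1 / 1000) (hN : 4 ≤ N) {R : ℝ}
    (hR : 8 * R ≤ N) {δ : ℝ} (B : Bd P δ (Oct R)) {R1 T : ℝ} (hRT : R1 + T ≤ R) {k : ℤ}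
    (hk0 : 0 < k) (hk : (k : ℝ) ≤ R1 / 4) {e1 e2 g1 g2 x y s t : ℤ} (hd : Dir e1 e2 g1 g2)
    (h : Oct R1 x y) (ht : |(t : ℝ)| ≤ T) (hT : 32 * L ^ 2 * T ≤ δ * k)
    (hz : Oct R (x + s * e1 + t * g1) (y + s * e2 + t * g2)) :
    |det2 (Fr P e1 e2 x y) (Fr P e1 e2 (x + s * e1 + t * g1) (y + s * e2 + t * g2))| ≤
      9 * L * δ := by
  have hL := F.one_le
  have hκL : κ ≤ κ * L := by nlinarith
  have hκ2 : κ ≤ 1 / 100 := by linarith
  have hT0 : 0 ≤ T := (abs_nonneg _).trans ht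
  have hk0' : (0 : ℝ) < k := by exact_mod_cast hk0
  obtain ⟨m, hm, hO⟩ : ∃ m : ℤ, |(m : ℝ)| = k ∧ Oct R1 (x + m * e1) (y + m * e2) := by
    rcases h.long hd k hk0.le hk with h1 | h1
    · exact ⟨k, by rw [abs_of_pos hk0'], h1⟩
    · exact ⟨-k, by push_cast; rw [abs_neg, abs_of_pos hk0'], h1⟩
  have hR1R : R1 ≤ R := by linarith
  -- chords
  have c0 := chord (P := P) (Fr P e1 e2 x y) e1 e2 x y m δ (fun i hi =>
    B e1 e2 g1 g2 hd x y i (h.mono hR1R) ((h.convex hd hO (by omega)).mono hR1R))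
  have hrow : ∀ i : ℤ, (0 ≤ i ∧ i ≤ m) ∨ (m ≤ i ∧ i ≤ 0) →
      Oct R (x + t * g1 + i * e1) (y + t * g2 + i * e2) := by
    intro i hi
    have h1 := ((h.convex hd hO hi).gshift hd ht).mono hRT
    have e3 : x + i * e1 + t * g1 = x + t * g1 + i * e1 := by ring
    have e4 : y + i * e2 + t * g2 = y + t * g2 + i * e2 := by ring
    rwa [e3, e4] at h1
  have c1 := chord (P := P) (Fr P e1 e2 (x + s * e1 + t * g1) (y + s * e2 + t * g2)) e1 e2
    (x + t * g1) (y + t * g2) m δ (fun i hi => by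
      have h1 := B e1 e2 g1 g2 hd (x + s * e1 + t * g1) (y + s * e2 + t * g2) (i - s) hz (by
        have e3 : x + s * e1 + t * g1 + (i - s) * e1 = x + t * g1 + i * e1 := by ring
        have e4 : y + s * e2 + t * g2 + (i - s) * e2 = y + t * g2 + i * e2 := by ring
        rw [e3, e4]
        exact hrow i (by omega))
      have e3 : x + s * e1 + t * g1 + (i - s) * e1 = x + t * g1 + i * e1 := by ring
      have e4 : y + s * e2 + t * g2 + (i - s) * e2 = y + t * g2 + i * e2 := by ring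
      rwa [e3, e4] at h1)
  rw [hm] at c0 c1
  -- windows
  have w0 := (h.mono hR1R).win2 hR
  have w1 := (hO.mono hR1R).win2 hR
  have w2 := (hrow 0 (by omega)).win2 hR
  have w3 := (hrow m (by omega)).win2 hR
  have wz := hz.win2 hR
  simp only [zero_mul, add_zero] at w2
  -- transversal moves
  have v0 := F.upper (by linarith) (x := x) (y := y) (x' := x + t * g1) (y' := y + t * g2)
    (by omega) (by omega) (by omega) (by omega)
  have v1 := F.upper (by linarith) (x := x + m * e1) (y := y + m * e2) (x' := x + t * g1 + m * e1)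
    (y' := y + t * g2 + m * e2) (by omega) (by omega) (by omega) (by omega)
  have e5 : x + t * g1 - x = t * g1 := by ring
  have e6 : y + t * g2 - y = t * g2 := by ring
  have e7 : x + t * g1 + m * e1 - (x + m * e1) = t * g1 := by ring
  have e8 : y + t * g2 + m * e2 - (y + m * e2) = t * g2 := by ring
  rw [e5, e6, hd.g_sum t] at v0
  rw [e7, e8, hd.g_sum t] at v1
  set X0 := P (x + m * e1) (y + m * e2) - P x y with hX0
  set Xt := P (x + t * g1 + m * e1) (y + t * g2 + m * e2) - P (x + t * g1) (y + t * g2) with hXt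
  have hdiff : ‖Xt - X0‖ ≤ 4 * L * T := by
    have e9 : Xt - X0 = (P (x + t * g1 + m * e1) (y + t * g2 + m * e2) -
        P (x + m * e1) (y + m * e2)) - (P (x + t * g1) (y + t * g2) - P x y) := by
      rw [hXt, hX0]; ring
    rw [e9]
    refine (norm_sub_le _ _).trans ?_
    have := mul_le_mul_of_nonneg_left ht (show 0 ≤ 2 * L by linarith)
    linarith
  have hnA := F.norm_frame hκ hκ2 hN hd w0.1 w0.2
  have hnB := F.norm_frame hκ hκ2 hN hd wz.1 wz.2
  set A := Fr P e1 e2 x y with hA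
  set B' := Fr P e1 e2 (x + s * e1 + t * g1) (y + s * e2 + t * g2) with hB
  have hX0n : (k : ℝ) / 2 ≤ ‖X0‖ := by
    have := F.far_row hκ2 hd (x := x) (y := y) (m := m) (by omega) (by omega) (by omega) (by omega)
    rw [hm] at this
    exact this
  have d1 : |det2 X0 B'| ≤ k * δ + 8 * L ^ 2 * T := by
    have e10 : det2 X0 B' = - det2 B' Xt + det2 B' (Xt - X0) := by
      have e11 := det2_sub_right B' Xt X0
      rw [e11, det2_swap X0 B']; ring
    rw [e10]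
    refine (abs_add_le _ _).trans ?_
    rw [abs_neg]
    have := det2_le' hnB.2 hdiff
    have e12 : 2 * L * (4 * L * T) = 8 * L ^ 2 * T := by ring
    rw [e12] at this
    linarith
  have htri := tri A B' X0
  have hδ0 : 0 ≤ δ := by
    have : 0 ≤ (k : ℝ) * δ := (abs_nonneg _).trans c0
    exact nonneg_of_mul_nonneg_right this hk0'
  have t1 : |det2 X0 B'| * ‖A‖ ≤ (k * δ + 8 * L ^ 2 * T) * (2 * L) :=
    mul_le_mul d1 hnA.2 (norm_nonneg _) (by positivity)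
  have t2 : |det2 A X0| * ‖B'‖ ≤ (k * δ) * (2 * L) :=
    mul_le_mul c0 hnB.2 (norm_nonneg _) (by positivity)
  have t3 : |det2 A B'| * (k / 2) ≤ |det2 A B'| * ‖X0‖ :=
    mul_le_mul_of_nonneg_left hX0n (abs_nonneg _)
  have t4 : 32 * L ^ 2 * T * L ≤ δ * k * L := mul_le_mul_of_nonneg_right hT (by linarith)
  have t5 : |det2 A B'| * k ≤ (9 * L * δ) * k := by
    have e13 : (k * δ + 8 * L ^ 2 * T) * (2 * L) + (k * δ) * (2 * L) =
        4 * (L * δ * k) + (32 * L ^ 2 * T * L) / 2 := by ring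
    have e14 : δ * k * L = L * δ * k := by ring
    have e15 : 0 ≤ L * δ * k := by positivity
    rw [e14] at t4
    linarith
  exact le_of_mul_le_mul_right t5 hk0'

/-- the void seen from a near pair -/
theorem DF.Ps_void (F : DF P ℓ N κ L) (K : Void P N c) (hκ : 0 ≤ κ) (hκ1 : κ ≤ 1 / 100)
    (hN : 4 ≤ N) (hc : 0 ≤ c) {e1 e2 g1 g2 x y s t : ℤ} (hd : Dir e1 e2 g1 g2) (hx1 : 2 * |x| ≤ N)
    (hy1 : 2 * |y| ≤ N) (w1 : |x + s * e1 + t * g1| ≤ N) (w2 : |y + s * e2 + t * g2| ≤ N)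
    (h0 : 8 * L ≤ s) (h3 : |t| ≤ s) :
    c / 8 * (s : ℝ) ^ 2 ≤ N ^ 2 * |Ps P e1 e2 g1 g2 x y s t| := by
  have hL := F.one_le
  have hs0 : (0 : ℝ) < s := by linarith
  have h1 : 0 ≤ s := by exact_mod_cast hs0.le
  have hb := hd.bd
  have hw := F.norm_frame hκ hκ1 hN hd hx1 hy1
  have hfar := F.far hκ1 hd (x := x) (y := y) (by omega) (by omega) w1 w2 h1 h3
  have a1 := abs_le.mp (show |x| ≤ (N : ℤ) / 2 by omega)
  have a2 := abs_le.mp (show |y| ≤ (N : ℤ) / 2 by omega)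
  have hne : P x y ≠ P (x + e1) (y + e2) := by
    intro h
    have h5 : ‖Fr P e1 e2 x y‖ = 0 := by
      unfold Fr; rw [h, sub_self, norm_zero]
    linarith [hw.1]
  have hv := K x y (x + e1) (y + e2) (x + s * e1 + t * g1) (y + s * e2 + t * g2)
    (by omega) (by omega) (by rw [abs_le]; constructor <;> omega)
    (by rw [abs_le]; constructor <;> omega) w1 w2 hne (by
      have h5 : ‖P (x + e1) (y + e2) - P x y‖ ≤ 2 * L := hw.2
      linarith)
  have h6 : ((s : ℝ) / 2) ^ 2 ≤ ‖P (x + s * e1 + t * g1) (y + s * e2 + t * g2) - P x y‖ ^ 2 :=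
    pow_le_pow_left₀ (by positivity) hfar 2
  have h7 := mul_le_mul_of_nonneg_left h6 hc
  have h8 : c / 8 * (s : ℝ) ^ 2 ≤ c * ((s : ℝ) / 2) ^ 2 := by
    have : 0 ≤ c * (s : ℝ) ^ 2 := by positivity
    linarith
  exact h8.trans (h7.trans hv)

theorem DF.ray (F : DF P ℓ N κ L) (K : Void P N c) (hκ : 0 ≤ κ) (hκ1 : κ * L ≤ 1 / 1000)
    (hc : 0 ≤ c) (hN : 4 ≤ N) {R : ℝ} (hR : 8 * R ≤ N) {δ : ℝ} (hδ : 0 ≤ δ)
    (B : Bd P δ (Oct R)) {R1 : ℝ} {T s1 : ℕ} (hRT : R1 + T ≤ R) {k : ℤ} (hk0 : 0 < k)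
    (hk : (k : ℝ) ≤ R1 / 4) (hT : 32 * L ^ 2 * T ≤ δ * k) (hTs : T ≤ s1)
    (hs1 : 8 * L ≤ s1) (hv : 9 * L * δ * N ^ 2 < c / 8 * (s1 : ℝ) ^ 2)
    (hT2 : 2 * (9 * L * δ) * s1 + 1 ≤ T) {e1 e2 g1 g2 x y : ℤ} (hd : Dir e1 e2 g1 g2)
    (h : Oct R1 x y) (m : ℕ) (h' : Oct R1 (x + m * e1) (y + m * e2)) :
    |det2 (Fr P e1 e2 x y) (P (x + m * e1) (y + m * e2) - P x y)| ≤
      2 * L ^ 2 * (2 * (9 * L * δ) * s1 + 1) := by
  have hL := F.one_le
  have hκL : κ ≤ κ * L := by nlinarith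
  have hκ2 : κ ≤ 1 / 100 := by linarith
  have hL2 : 1 ≤ L ^ 2 := one_le_pow₀ hL
  have hR1R : R1 ≤ R := by
    have : (0 : ℝ) ≤ T := Nat.cast_nonneg _
    linarith
  have hN' : (0 : ℝ) < N := by
    have : 0 < N := by omega
    exact_mod_cast this
  have rng : ∀ s t : ℤ, 0 ≤ s → s ≤ m → |t| ≤ T →
      Oct R (x + s * e1 + t * g1) (y + s * e2 + t * g2) := by
    intro s t h1 h2 h3
    have h3' : |(t : ℝ)| ≤ T := by exact_mod_cast h3
    exact ((h.convex hd h' (Or.inl ⟨h1, h2⟩)).gshift hd h3').mono hRT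
  have w0 := (h.mono hR1R).win2 hR
  have hs := signsL (fun s t => Ps P e1 e2 g1 g2 x y s t) m s1 T (9 * L * δ) (2 * L ^ 2)
    (by positivity) (by linarith)
    (by simp [Ps, det2]) (by
      intro s t h1 h2 h3
      rw [Ps_s]
      have h3' : |(t : ℝ)| ≤ T := by exact_mod_cast h3
      exact F.crossRow hκ hκ1 hN hR B hRT hk0 hk hd h h3' hT (rng s t h1 h2.le h3))
    (by
      intro s t h1 h2 h3
      have w := (rng s t h1 h2 h3).win2 hR
      exact F.Ps_bd hκ hκ1 hN hd w0.1 w0.2 w.1 w.2)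
    (by
      intro s t h1 h2 h3
      have w := (rng s t (by omega) h2 h3).win2 hR
      have h1r : (s1 : ℝ) ≤ s := by exact_mod_cast h1
      have h4 := F.Ps_void K hκ hκ2 hN hc hd w0.1 w0.2 (by omega) (by omega) (s := s) (t := t)
        (by linarith) (by omega)
      have h5 : (s1 : ℝ) ^ 2 ≤ (s : ℝ) ^ 2 := pow_le_pow_left₀ (by positivity) h1r 2
      have h6 : c / 8 * (s1 : ℝ) ^ 2 ≤ c / 8 * (s : ℝ) ^ 2 :=
        mul_le_mul_of_nonneg_left h5 (by positivity)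
      have h7 : (N : ℝ) ^ 2 * (9 * L * δ) < N ^ 2 * |Ps P e1 e2 g1 g2 x y s t| := by linarith
      exact lt_of_mul_lt_mul_left h7 (by positivity)) hT2 m le_rfl
  unfold Ps at hs
  simpa using hs

end

end Pool.Agent.Lib.MP_a768d2_coT
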