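import Pool.Agent.Lib.MP_a768d2_coD.StepB

/-! # Grids with frames of slowly varying scale: step B, the iteration -/

namespace Pool.Agent.Lib.MP_a768d2_coT

open Pool.Agent.Lib.MP_a768d2_coG

noncomputable section

/-- parameters of one bootstrap step -/
structure ParD (P : ℤ → ℤ → ℂ) (ℓ : ℤ → ℤ → ℝ) (N : ℕ) (κ L c R δ R1 : ℝ) (T s1 : ℕ) (k : ℤ) :
    Prop where
  F : DF P ℓ N κ L
  K : Void P N c
  hκ : 0 ≤ κ
  hκ1 : κ * L ≤ 1 / 1000
  hc : 0 ≤ c
  hN : 4 ≤ N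
  hR : 8 * R ≤ N
  hδ : 0 ≤ δ
  B : Bd P δ (Oct R)
  hRT : R1 + 2 + T ≤ R
  hk0 : 0 < k
  hk : (k : ℝ) ≤ R1 / 4
  hT : 32 * L ^ 2 * T ≤ δ * k
  hTs : T ≤ s1
  hs1 : 8 * L ≤ s1
  hv : 9 * L * δ * N ^ 2 < c / 8 * (s1 : ℝ) ^ 2
  hT2 : 2 * (9 * L * δ) * s1 + 1 ≤ T

variable {P : ℤ → ℤ → ℂ} {ℓ : ℤ → ℤ → ℝ} {N : ℕ} {κ L c R δ R1 : ℝ} {T s1 : ℕ} {k : ℤ}

theorem ParD.ray (p : ParD P ℓ N κ L c R δ R1 T s1 k) {e1 e2 g1 g2 x y : ℤ}
    (hd : Dir e1 e2 g1 g2) (h : Oct (R1 + 2) x y) (m : ℕ)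
    (h' : Oct (R1 + 2) (x + m * e1) (y + m * e2)) :
    |det2 (Fr P e1 e2 x y) (P (x + m * e1) (y + m * e2) - P x y)| ≤
      2 * L ^ 2 * (2 * (9 * L * δ) * s1 + 1) :=
  p.F.ray p.K p.hκ p.hκ1 p.hc p.hN p.hR p.hδ p.B p.hRT p.hk0 (by linarith [p.hk]) p.hT p.hTs
    p.hs1 p.hv p.hT2 hd h m h'

theorem ParD.le (p : ParD P ℓ N κ L c R δ R1 T s1 k) : R1 + 2 ≤ R := by
  have := p.hRT
  have : (0 : ℝ) ≤ T := Nat.cast_nonneg _
  linarith [p.hRT]

theorem ParD.κ2 (p : ParD P ℓ N κ L c R δ R1 T s1 k) : κ ≤ 1 / 100 := by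
  have h1 := p.hκ1
  have h2 := p.F.one_le
  have h3 := p.hκ
  nlinarith

theorem ParD.pairN (p : ParD P ℓ N κ L c R δ R1 T s1 k) {e1 e2 g1 g2 x y : ℤ}
    (hd : Dir e1 e2 g1 g2) (h : Oct R1 x y) (m : ℕ) (h' : Oct R1 (x + m * e1) (y + m * e2)) :
    |det2 (Fr P e1 e2 x y) (Fr P e1 e2 (x + m * e1) (y + m * e2))| * m ≤
      8 * L * (2 * L ^ 2 * (2 * (9 * L * δ) * s1 + 1)) := by
  have hb := hd.bd
  have hle := p.le
  have hκ2 := p.κ2
  have hL := p.F.one_le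
  set T0 := 2 * L ^ 2 * (2 * (9 * L * δ) * s1 + 1) with hT0
  have r1 := p.ray hd (h.mono (by linarith)) m (h'.mono (by linarith))
  have hbase : Oct (R1 + 2) (x + m * e1 + e1) (y + m * e2 + e2) := by
    have b1 : |(e1 : ℝ)| ≤ 1 := by exact_mod_cast abs_le.mpr hb.1
    have b2 : |(e2 : ℝ)| ≤ 1 := by exact_mod_cast abs_le.mpr hb.2.1
    exact h'.shift (by linarith) (by linarith) (by linarith)
  have ex : x + m * e1 + e1 + ((m + 1 : ℕ) : ℤ) * -e1 = x := by push_cast; ring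
  have ey : y + m * e2 + e2 + ((m + 1 : ℕ) : ℤ) * -e2 = y := by push_cast; ring
  have r2 := p.ray hd.neg hbase (m + 1) (by
    rw [ex, ey]; exact h.mono (by linarith))
  rw [ex, ey] at r2
  have w0 := (h.mono (show R1 ≤ R by linarith)).win2 p.hR
  have w1 := (h'.mono (show R1 ≤ R by linarith)).win2 p.hR
  have hnA := p.F.norm_frame p.hκ hκ2 p.hN hd w0.1 w0.2
  have hnB := p.F.norm_frame p.hκ hκ2 p.hN hd w1.1 w1.2
  have hfar := p.F.far_row hκ2 hd (x := x) (y := y) (m := (m : ℤ)) (by omega) (by omega)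
    (by omega) (by omega)
  rw [Int.cast_natCast, Nat.abs_cast] at hfar
  set A := Fr P e1 e2 x y with hA
  set B := Fr P e1 e2 (x + m * e1) (y + m * e2) with hB
  set X := P (x + m * e1) (y + m * e2) - P x y with hX
  have e1' : Fr P (-e1) (-e2) (x + m * e1 + e1) (y + m * e2 + e2) = -B := by
    rw [hB]
    unfold Fr
    have a1 : x + m * e1 + e1 + -e1 = x + m * e1 := by ring
    have a2 : y + m * e2 + e2 + -e2 = y + m * e2 := by ring
    rw [a1, a2]; ring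
  have e2' : P x y - P (x + m * e1 + e1) (y + m * e2 + e2) = -X - B := by
    rw [hX, hB]; unfold Fr; ring
  have e3 : det2 (-B) (-X - B) = - det2 X B := by
    simp only [det2, Complex.sub_re, Complex.sub_im, Complex.neg_re, Complex.neg_im]; ring
  rw [e1', e2', e3, abs_neg] at r2
  have htri := tri A B X
  have hT00 : 0 ≤ T0 := (abs_nonneg _).trans r1
  have t1 : |det2 X B| * ‖A‖ ≤ T0 * (2 * L) := mul_le_mul r2 hnA.2 (norm_nonneg _) hT00
  have t2 : |det2 A X| * ‖B‖ ≤ T0 * (2 * L) := mul_le_mul r1 hnB.2 (norm_nonneg _) hT00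
  have t3 : |det2 A B| * (m / 2) ≤ |det2 A B| * ‖X‖ :=
    mul_le_mul_of_nonneg_left hfar (abs_nonneg _)
  have t4 : 8 * L * T0 = 2 * (T0 * (2 * L) + T0 * (2 * L)) := by ring
  rw [t4]
  linarith

theorem ParD.pair (p : ParD P ℓ N κ L c R δ R1 T s1 k) {e1 e2 g1 g2 x y m : ℤ}
    (hd : Dir e1 e2 g1 g2) (h : Oct R1 x y) (h' : Oct R1 (x + m * e1) (y + m * e2)) :
    |det2 (Fr P e1 e2 x y) (Fr P e1 e2 (x + m * e1) (y + m * e2))| * |(m : ℝ)| ≤
      8 * L * (2 * L ^ 2 * (2 * (9 * L * δ) * s1 + 1)) := by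
  rcases le_total 0 m with h0 | h0
  · obtain ⟨n, rfl⟩ := Int.eq_ofNat_of_zero_le h0
    have := p.pairN hd h n h'
    rw [Int.cast_natCast, Nat.abs_cast]
    exact this
  · obtain ⟨n, hn⟩ := Int.eq_ofNat_of_zero_le (neg_nonneg.mpr h0)
    have hm : m = -(n : ℤ) := by omega
    have ex : x + m * e1 + n * e1 = x := by rw [hm]; ring
    have ey : y + m * e2 + n * e2 = y := by rw [hm]; ring
    have := p.pairN hd h' n (by rw [ex, ey]; exact h)
    rw [ex, ey, det2_swap, abs_neg] at this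
    rw [hm] at this ⊢
    push_cast at this ⊢
    rw [abs_neg, Nat.abs_cast]
    exact this

theorem ParD.out (p : ParD P ℓ N κ L c R δ R1 T s1 k) {k' : ℤ} (hkk : k = 2 * k') :
    Bd P (64 * L ^ 2 * (2 * L ^ 2 * (2 * (9 * L * δ) * s1 + 1)) / k') (Oct R1) := by
  have hk0 := p.hk0
  have hκ2 := p.κ2
  have hL := p.F.one_le
  have hk0' : 0 < k' := by omega
  have hkr : (0 : ℝ) < k' := by exact_mod_cast hk0'
  set T0 := 2 * L ^ 2 * (2 * (9 * L * δ) * s1 + 1) with hT0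
  have hT00 : 0 ≤ T0 := by have := p.hδ; positivity
  have hle := p.le
  -- far pairs
  have farp : ∀ e1 e2 g1 g2 : ℤ, Dir e1 e2 g1 g2 → ∀ x y m : ℤ, Oct R1 x y →
      Oct R1 (x + m * e1) (y + m * e2) → (k' : ℝ) ≤ |(m : ℝ)| →
      |det2 (Fr P e1 e2 x y) (Fr P e1 e2 (x + m * e1) (y + m * e2))| ≤ 8 * L * T0 / k' := by
    intro e1 e2 g1 g2 hd x y m h h' hm
    have h1 := p.pair hd h h'
    rw [le_div_iff₀ hkr]
    refine le_trans ?_ h1
    exact mul_le_mul_of_nonneg_left hm (abs_nonneg _)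
  intro e1 e2 g1 g2 hd x y m h h'
  rcases le_or_gt (k' : ℝ) |(m : ℝ)| with hm | hm
  · refine (farp e1 e2 g1 g2 hd x y m h h' hm).trans ?_
    apply div_le_div_of_nonneg_right _ hkr.le
    apply mul_le_mul_of_nonneg_right _ hT00
    nlinarith
  · obtain ⟨j, hj, hO⟩ : ∃ j : ℤ, |(j : ℝ)| = k ∧ Oct R1 (x + j * e1) (y + j * e2) := by
      rcases h.long hd k hk0.le p.hk with h1 | h1
      · exact ⟨k, by rw [abs_of_pos (by exact_mod_cast hk0)], h1⟩
      · exact ⟨-k, by push_cast; rw [abs_neg, abs_of_pos (by exact_mod_cast hk0)], h1⟩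
    have hkk' : (k : ℝ) = 2 * k' := by rw [hkk]; push_cast; ring
    have f1 := farp e1 e2 g1 g2 hd x y j h hO (by rw [hj, hkk']; linarith)
    have ex : x + j * e1 + (m - j) * e1 = x + m * e1 := by ring
    have ey : y + j * e2 + (m - j) * e2 = y + m * e2 := by ring
    have f2 := farp e1 e2 g1 g2 hd (x + j * e1) (y + j * e2) (m - j) hO
      (by rw [ex, ey]; exact h') (by
        push_cast
        have h1 : |(j : ℝ)| ≤ |(m : ℝ)| + |(m : ℝ) - j| := by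
          have := abs_sub (m : ℝ) ((m : ℝ) - j)
          rwa [sub_sub_cancel] at this
        rw [hj, hkk'] at h1
        linarith)
    rw [ex, ey] at f2
    have w0 := (h.mono (show R1 ≤ R by linarith)).win2 p.hR
    have w1 := (h'.mono (show R1 ≤ R by linarith)).win2 p.hR
    have w2 := (hO.mono (show R1 ≤ R by linarith)).win2 p.hR
    have nA := p.F.norm_frame p.hκ hκ2 p.hN hd w0.1 w0.2
    have nB := p.F.norm_frame p.hκ hκ2 p.hN hd w1.1 w1.2
    have nZ := p.F.norm_frame p.hκ hκ2 p.hN hd w2.1 w2.2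
    have htri := tri (Fr P e1 e2 x y) (Fr P e1 e2 (x + m * e1) (y + m * e2))
      (Fr P e1 e2 (x + j * e1) (y + j * e2))
    have hq : 0 ≤ 8 * L * T0 / k' := by positivity
    have t1 : |det2 (Fr P e1 e2 (x + j * e1) (y + j * e2))
        (Fr P e1 e2 (x + m * e1) (y + m * e2))| * ‖Fr P e1 e2 x y‖ ≤
          (8 * L * T0 / k') * (2 * L) :=
      mul_le_mul f2 nA.2 (norm_nonneg _) hq
    have t2 : |det2 (Fr P e1 e2 x y) (Fr P e1 e2 (x + j * e1) (y + j * e2))| *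
        ‖Fr P e1 e2 (x + m * e1) (y + m * e2)‖ ≤ (8 * L * T0 / k') * (2 * L) :=
      mul_le_mul f1 nB.2 (norm_nonneg _) hq
    have t3 : |det2 (Fr P e1 e2 x y) (Fr P e1 e2 (x + m * e1) (y + m * e2))| * (1 / 2) ≤
        |det2 (Fr P e1 e2 x y) (Fr P e1 e2 (x + m * e1) (y + m * e2))| *
          ‖Fr P e1 e2 (x + j * e1) (y + j * e2)‖ :=
      mul_le_mul_of_nonneg_left nZ.1 (abs_nonneg _)
    have e : 64 * L ^ 2 * T0 / k' = 2 * ((8 * L * T0 / k') * (2 * L) +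
        (8 * L * T0 / k') * (2 * L)) := by ring
    rw [e]
    linarith

/-- one bootstrap step -/
theorem stepBD (c L : ℝ) (hc : 0 < c) (hL : 1 ≤ L) : ∃ δ1, 0 < δ1 ∧ δ1 ≤ 1 / 36 ∧
    ∃ N1 : ℕ, ∀ N : ℕ, N1 ≤ N → ∀ (P : ℤ → ℤ → ℂ) (ℓ : ℤ → ℤ → ℝ) (κ : ℝ), 0 ≤ κ →
      κ * L ≤ 1 / 1000 → DF P ℓ N κ L → Void P N c → ∀ δ R : ℝ, 1200000 * L ^ 4 ≤ δ * N →
        δ ≤ δ1 → 8 * R ≤ N → (N : ℝ) / 16 ≤ R - δ * N / 64 → Bd P δ (Oct R) →
          Bd P (δ / 4) (Oct (R - δ * N / 64)) := by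
  have hL0 : 0 < L := by linarith
  have hL2 : 1 ≤ L ^ 2 := one_le_pow₀ hL
  have hL3 : 1 ≤ L ^ 3 := one_le_pow₀ hL
  have hL4 : 1 ≤ L ^ 4 := one_le_pow₀ hL
  have hL5 : 1 ≤ L ^ 5 := one_le_pow₀ hL
  have hLL4 : L ^ 2 ≤ L ^ 4 := pow_le_pow_right₀ hL (by norm_num)
  set q0 : ℝ := 1 / (21600000 * L ^ 5) with hq0
  have hq00' : 0 < q0 := by positivity
  set L0 : ℕ := ⌈8 * L⌉₊ + 3 with hL0'
  refine ⟨min (1 / (36 * L)) (c * q0 ^ 2 / (72 * L)), lt_min (by positivity) (by positivity),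
    (min_le_left _ _).trans ?_, ⌈21600000 * L ^ 5 * (1 + L0)⌉₊, ?_⟩
  · rw [div_le_div_iff₀ (by positivity) (by norm_num)]; linarith
  intro N hN P ℓ κ hκ hκ1 F K δ R hδN hδ1 hR hR1 B
  have hδa : δ ≤ 1 / (36 * L) := hδ1.trans (min_le_left _ _)
  have hδb : δ ≤ c * q0 ^ 2 / (72 * L) := hδ1.trans (min_le_right _ _)
  have hNL : (21600000 : ℝ) * L ^ 5 * (1 + L0) ≤ N := Nat.ceil_le.mp hN
  have hL0r : (0 : ℝ) ≤ L0 := Nat.cast_nonneg _
  have hNbig : (21600000 : ℝ) ≤ N := by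
    refine le_trans ?_ hNL
    have h1 : (21600000 : ℝ) * 1 ≤ 21600000 * L ^ 5 := by linarith
    have h2 : 21600000 * L ^ 5 * 1 ≤ 21600000 * L ^ 5 * (1 + L0) :=
      mul_le_mul_of_nonneg_left (by linarith) (by positivity)
    linarith
  have hN' : (0 : ℝ) < N := by linarith
  have hN4 : 4 ≤ N := by
    have : (4 : ℝ) ≤ N := by linarith
    exact_mod_cast this
  have hNbig' : 21600000 ≤ N := by exact_mod_cast hNbig
  have hδNp : 0 < δ * N := lt_of_lt_of_le (by positivity) hδN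
  have hδ0 : 0 < δ := by
    by_contra h
    have : δ * N ≤ 0 := mul_nonpos_of_nonpos_of_nonneg (not_lt.mp h) hN'.le
    linarith
  set q : ℝ := Real.sqrt (72 * L * δ / c) with hq
  have hqsq : q ^ 2 = 72 * L * δ / c := Real.sq_sqrt (by positivity)
  have hq00 : 0 < q := Real.sqrt_pos.mpr (by positivity)
  have hqq : q ≤ q0 := by
    rw [hq]
    apply Real.sqrt_le_iff.mpr
    refine ⟨hq00'.le, ?_⟩
    rw [div_le_iff₀ hc]
    have h1 := hδb
    rw [le_div_iff₀ (by positivity : (0 : ℝ) < 72 * L)] at h1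
    calc 72 * L * δ = δ * (72 * L) := by ring
      _ ≤ c * q0 ^ 2 := h1
      _ = q0 ^ 2 * c := by ring
  set s1 : ℕ := ⌈q * N⌉₊ + L0 with hs1
  have hs1a : q * N + L0 ≤ s1 := by
    rw [hs1]; push_cast
    linarith [Nat.le_ceil (q * (N : ℝ))]
  have hs1b : (s1 : ℝ) ≤ q * N + 1 + L0 := by
    rw [hs1]; push_cast
    linarith [Nat.ceil_lt_add_one (show 0 ≤ q * (N : ℝ) by positivity)]
  have hL0c : 8 * L ≤ L0 := by
    rw [hL0']; push_cast
    linarith [Nat.le_ceil (8 * L)]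
  have hs1c : (8 : ℝ) ≤ s1 := by
    have : 0 < q * (N : ℝ) := by positivity
    linarith
  set T : ℕ := ⌈2 * (9 * L * δ) * s1 + 1⌉₊ with hT
  have hTa : 2 * (9 * L * δ) * s1 + 1 ≤ T := Nat.le_ceil _
  have hTb : (T : ℝ) ≤ 18 * (L * δ * s1) + 2 := by
    have := (Nat.ceil_lt_add_one (show 0 ≤ 2 * (9 * L * δ) * (s1 : ℝ) + 1 by positivity)).le
    rw [hT]; linarith
  have hLδs : 0 ≤ L * δ * s1 := by positivity
  -- main numerical fact
  have key : L ^ 4 * (36 * (L * δ * s1)) + 2 * L ^ 4 ≤ δ * N / 200000 := by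
    have h1 : 36 * (L ^ 5 * δ) * s1 ≤ 36 * (L ^ 5 * δ) * (q0 * N + 1 + L0) := by
      apply mul_le_mul_of_nonneg_left _ (by positivity)
      have := mul_le_mul_of_nonneg_right hqq hN'.le
      linarith
    have h2 : 36 * (L ^ 5 * δ) * (q0 * N + 1 + L0) =
        δ * N / 600000 + δ * (36 * (L ^ 5 * (1 + L0))) := by
      rw [hq0]; field_simp; ring
    have h3 : δ * (36 * (L ^ 5 * (1 + L0))) ≤ δ * (N / 600000) :=
      mul_le_mul_of_nonneg_left (by linarith) hδ0.le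
    have h4 : 2 * L ^ 4 ≤ δ * N / 600000 := by linarith
    have h6 : δ * ((N : ℝ) / 600000) = δ * N / 600000 := by ring
    have h7 : δ * (N : ℝ) / 200000 = 3 * (δ * N / 600000) := by ring
    have h8 : L ^ 4 * (36 * (L * δ * (s1 : ℝ))) = 36 * (L ^ 5 * δ) * s1 := by ring
    rw [h6] at h3
    rw [h2] at h1
    rw [h7, h8]
    linarith
  have hTs : T ≤ s1 := by
    have h0 : L * δ ≤ 1 / 36 := by
      have := mul_le_mul_of_nonneg_left hδa hL0.le
      have e : L * (1 / (36 * L)) = 1 / 36 := by field_simp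
      rw [e] at this
      exact this
    have h1 : L * δ * (s1 : ℝ) ≤ 1 / 36 * s1 := mul_le_mul_of_nonneg_right h0 (Nat.cast_nonneg _)
    have h2 : (T : ℝ) ≤ s1 := by linarith
    exact_mod_cast h2
  -- k
  set k' : ℤ := ((N / 256 : ℕ) : ℤ) with hk'
  have hk'a : (k' : ℝ) ≤ N / 256 := by
    rw [hk', Int.cast_natCast]; exact Nat.cast_div_le
  have hk'b : (N : ℝ) / 512 ≤ k' := by
    have h1 : N ≤ 512 * (N / 256) := by omega
    have h2 : (N : ℝ) ≤ 512 * ((N / 256 : ℕ) : ℝ) := by exact_mod_cast h1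
    rw [hk', Int.cast_natCast]; linarith
  have hk'0 : 0 < k' := by
    have : (0 : ℝ) < k' := by linarith
    exact_mod_cast this
  have hk'r : (0 : ℝ) < k' := by exact_mod_cast hk'0
  have hL4s : 36 * (L * δ * s1) ≤ L ^ 4 * (36 * (L * δ * s1)) :=
    le_mul_of_one_le_left (by positivity) hL4
  have par : ParD P ℓ N κ L c R δ (R - δ * N / 64) T s1 (2 * k') := by
    refine ⟨F, K, hκ, hκ1, hc.le, hN4, hR, hδ0.le, B, ?_, by omega, ?_, ?_, hTs, ?_, ?_, hTa⟩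
    · linarith
    · push_cast; linarith
    · -- 32 L^2 T ≤ δ k
      have h1 : 32 * L ^ 2 * T ≤ 32 * L ^ 4 * T := by
        apply mul_le_mul_of_nonneg_right _ (Nat.cast_nonneg _)
        linarith
      have h1' : 32 * L ^ 4 * T ≤ 32 * L ^ 4 * (18 * (L * δ * s1) + 2) :=
        mul_le_mul_of_nonneg_left hTb (by positivity)
      have h2 : δ * (N / 256) ≤ δ * ((2 * k' : ℤ) : ℝ) := by
        apply mul_le_mul_of_nonneg_left _ hδ0.le
        push_cast; linarith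
      have h3 : 32 * L ^ 4 * (18 * (L * δ * s1) + 2) =
          16 * (L ^ 4 * (36 * (L * δ * s1)) + 2 * L ^ 4) + 32 * L ^ 4 := by ring
      have h4 : δ * ((N : ℝ) / 256) = δ * N / 256 := by ring
      rw [h4] at h2
      linarith
    · have : 0 < q * (N : ℝ) := by positivity
      linarith
    · have h1 : q * N < s1 := by linarith
      have h2 : (q * N) ^ 2 < (s1 : ℝ) ^ 2 := pow_lt_pow_left₀ h1 (by positivity) (by norm_num)
      have h3 : c / 8 * (q * N) ^ 2 = 9 * L * δ * N ^ 2 := by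
        rw [mul_pow, hqsq]; field_simp; norm_num
      rw [← h3]
      exact mul_lt_mul_of_pos_left h2 (by positivity)
  have hout := par.out rfl
  have hfin : 64 * L ^ 2 * (2 * L ^ 2 * (2 * (9 * L * δ) * s1 + 1)) / k' ≤ δ / 4 := by
    rw [div_le_iff₀ hk'r]
    have h1 : δ / 4 * (N / 512) ≤ δ / 4 * k' := mul_le_mul_of_nonneg_left hk'b (by positivity)
    have h3 : δ / 4 * ((N : ℝ) / 512) = δ * N / 2048 := by ring
    rw [h3] at h1
    have h4 : 64 * L ^ 2 * (2 * L ^ 2 * (2 * (9 * L * δ) * s1 + 1)) =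
        64 * (L ^ 4 * (36 * (L * δ * s1)) + 2 * L ^ 4) := by ring
    rw [h4]
    linarith
  intro e1 e2 g1 g2 hd x y s h h'
  exact (hout e1 e2 g1 g2 hd x y s h h').trans hfin

/-- the bootstrap: all rows are straight up to `O(1 / N)` -/
theorem bootstrapD (c L : ℝ) (hc : 0 < c) (hL : 1 ≤ L) : ∃ δ1, 0 < δ1 ∧
    ∃ N1 : ℕ, ∀ N : ℕ, N1 ≤ N → ∀ (P : ℤ → ℤ → ℂ) (ℓ : ℤ → ℤ → ℝ) (κ : ℝ), 0 ≤ κ →
      κ * L ≤ 1 / 1000 → DF P ℓ N κ L → Void P N c → Bd P δ1 (Oct (N / 8)) →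
        Bd P (1200000 * L ^ 4 / N) (Oct (N / 16)) := by
  obtain ⟨δ1, hδ1, hδ36, N1, h⟩ := stepBD c L hc hL
  refine ⟨δ1, hδ1, N1 + 1, ?_⟩
  intro N hN P ℓ κ hκ hκ1 F K B
  have hN' : (0 : ℝ) < N := by
    have : 0 < N := by omega
    exact_mod_cast this
  have hL4 : 0 < L ^ 4 := by positivity
  have claim : ∀ j : ℕ, (∀ i < j, 1200000 * L ^ 4 ≤ δ1 / 4 ^ i * N) →
      Bd P (δ1 / 4 ^ j) (Oct (N / 8 - δ1 * N / 48 * (1 - 1 / 4 ^ j))) := by
    intro j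
    induction j with
    | zero => intro _; simpa using B
    | succ j ih =>
      intro hj
      have i1 := ih (fun i hi => hj i (by omega))
      have h4 : (0 : ℝ) < 4 ^ j := by positivity
      have hinv : 1 / (4 : ℝ) ^ j ≤ 1 := by
        rw [div_le_one h4]; exact one_le_pow₀ (by norm_num)
      have hinv0 : 0 < 1 / (4 : ℝ) ^ j := by positivity
      have hδN : 0 < δ1 * N := by positivity
      have hδN2 : δ1 * N ≤ 1 / 36 * N := mul_le_mul_of_nonneg_right hδ36 hN'.le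
      have e1 : δ1 / 4 ^ j * N / 64 = δ1 * N / 64 * (1 / 4 ^ j) := by ring
      have hp := mul_le_mul_of_nonneg_left hinv hδN.le
      have hp0 : 0 < δ1 * N * (1 / 4 ^ j) := by positivity
      have := h N (by omega) P ℓ κ hκ hκ1 F K (δ1 / 4 ^ j) _ (hj j (by omega))
        (by
          rw [div_le_iff₀ h4]
          have : (1 : ℝ) ≤ 4 ^ j := one_le_pow₀ (by norm_num)
          nlinarith)
        (by nlinarith) (by rw [e1]; nlinarith) i1
      have e2 : δ1 / 4 ^ (j + 1) = δ1 / 4 ^ j / 4 := by rw [pow_succ]; field_simp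
      have e3 : (N : ℝ) / 8 - δ1 * N / 48 * (1 - 1 / 4 ^ (j + 1)) =
          N / 8 - δ1 * N / 48 * (1 - 1 / 4 ^ j) - δ1 / 4 ^ j * N / 64 := by
        rw [pow_succ]; field_simp; ring
      rw [e2, e3]
      exact this
  have hex : ∃ j : ℕ, δ1 / 4 ^ j * N < 1200000 * L ^ 4 := by
    obtain ⟨j, hj⟩ := pow_unbounded_of_one_lt (δ1 * N / (1200000 * L ^ 4))
      (show (1 : ℝ) < 4 by norm_num)
    refine ⟨j, ?_⟩
    have h4 : (0 : ℝ) < 4 ^ j := by positivity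
    rw [div_lt_iff₀ (by positivity)] at hj
    rw [div_mul_eq_mul_div, div_lt_iff₀ h4]
    linarith
  classical
  have hfind := Nat.find_spec hex
  have hB := claim (Nat.find hex) (fun i hi => not_lt.mp (Nat.find_min hex hi))
  intro e1 e2 g1 g2 hd x y s hx hx'
  have hinv0 : 0 < 1 / (4 : ℝ) ^ (Nat.find hex) := by positivity
  have hR : (N : ℝ) / 16 ≤ N / 8 - δ1 * N / 48 * (1 - 1 / 4 ^ (Nat.find hex)) := by
    have hδN : 0 < δ1 * N := by positivity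
    have hδN2 : δ1 * N ≤ 1 / 36 * N := mul_le_mul_of_nonneg_right hδ36 hN'.le
    nlinarith
  refine (hB e1 e2 g1 g2 hd x y s (hx.mono hR) (hx'.mono hR)).trans ?_
  rw [le_div_iff₀ hN']
  exact hfind.le

end

end Pool.Agent.Lib.MP_a768d2_coT
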