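import Pool.Agent.Lib.MP_a768d2_coD.C3

/-! # Step C: projective normalisation and rigidity of the 4-web -/

namespace Pool.Agent.Lib.MP_a768d2_coT

open Pool.Agent.Lib.MP_a768d2_coG

noncomputable section

variable {P : ℤ → ℤ → ℂ} {ℓ : ℤ → ℤ → ℝ} {N : ℕ} {κ L c χ : ℝ} {h : ℕ} {b : ℝ} {R : ℤ → ℤ → ℂ}

/-- the grid on `[0, 2 h]²` -/
def sh (R : ℤ → ℤ → ℂ) (h i j : ℕ) : ℂ := R ((i : ℤ) - h) ((j : ℤ) - h)

theorem sq_mem {h i : ℕ} (hi : i ≤ 2 * h) : |(i : ℤ) - h| ≤ h := by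
  rw [abs_le]; constructor <;> omega

theorem dir_x : Dir 1 0 0 1 := Or.inl ⟨rfl, rfl, rfl, rfl⟩

theorem dir_y : Dir 0 1 (-1) 0 := Or.inr (Or.inr (Or.inl ⟨rfl, rfl, rfl, rfl⟩))

theorem dir_d : Dir 1 1 0 1 := Or.inr (Or.inr (Or.inr (Or.inr (Or.inl ⟨rfl, rfl, rfl, rfl⟩))))

theorem dir_a : Dir 1 (-1) 0 1 :=
  Or.inr (Or.inr (Or.inr (Or.inr (Or.inr (Or.inr (Or.inl ⟨rfl, rfl, rfl, rfl⟩))))))

theorem NS.tpx (n : NS P ℓ N κ L c χ h b R) {i m k j : ℕ} (hi : i ≤ 2 * h) (hm : m ≤ 2 * h)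
    (hk : k ≤ 2 * h) (hj : j ≤ 2 * h) :
    |det2 (sh R h m j - sh R h i j) (sh R h k j - sh R h i j)| ≤
      |((m : ℤ) - i : ℤ)| * (|(((k : ℤ) - i : ℤ) : ℝ)| * (2 * χ / N)) := by
  have ex : ∀ z : ℕ, (i : ℤ) - h + ((z : ℤ) - i) * 1 = (z : ℤ) - h := fun z => by ring
  have ey : ∀ z : ℤ, (j : ℤ) - h + z * 0 = (j : ℤ) - h := fun z => by ring
  have := n.tp dir_x ((m : ℤ) - i) ((k : ℤ) - i) (x := (i : ℤ) - h) (y := (j : ℤ) - h)
    (sq_mem hi) (sq_mem hj) (by rw [ex]; exact sq_mem hm) (by rw [ey]; exact sq_mem hj)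
    (by rw [ex]; exact sq_mem hk) (by rw [ey]; exact sq_mem hj)
  rw [ex, ex, ey, ey] at this
  unfold sh
  push_cast at this ⊢
  exact this

theorem NS.tpy (n : NS P ℓ N κ L c χ h b R) {i j m k : ℕ} (hi : i ≤ 2 * h) (hj : j ≤ 2 * h)
    (hm : m ≤ 2 * h) (hk : k ≤ 2 * h) :
    |det2 (sh R h i m - sh R h i j) (sh R h i k - sh R h i j)| ≤
      |((m : ℤ) - j : ℤ)| * (|(((k : ℤ) - j : ℤ) : ℝ)| * (2 * χ / N)) := by
  have ey : ∀ z : ℕ, (j : ℤ) - h + ((z : ℤ) - j) * 1 = (z : ℤ) - h := fun z => by ring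
  have ex : ∀ z : ℤ, (i : ℤ) - h + z * 0 = (i : ℤ) - h := fun z => by ring
  have := n.tp dir_y ((m : ℤ) - j) ((k : ℤ) - j) (x := (i : ℤ) - h) (y := (j : ℤ) - h)
    (sq_mem hi) (sq_mem hj) (by rw [ex]; exact sq_mem hi) (by rw [ey]; exact sq_mem hm)
    (by rw [ex]; exact sq_mem hi) (by rw [ey]; exact sq_mem hk)
  rw [ex, ex, ey, ey] at this
  unfold sh
  push_cast at this ⊢
  exact this

theorem NS.tpd (n : NS P ℓ N κ L c χ h b R) {i j m k : ℕ} (him : i + m ≤ 2 * h)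
    (hjm : j + m ≤ 2 * h) (hik : i + k ≤ 2 * h) (hjk : j + k ≤ 2 * h) :
    |det2 (sh R h (i + m) (j + m) - sh R h i j) (sh R h (i + k) (j + k) - sh R h i j)| ≤
      (m : ℝ) * ((k : ℝ) * (2 * χ / N)) := by
  have ex : ∀ z : ℕ, (i : ℤ) - h + (z : ℤ) * 1 = ((i + z : ℕ) : ℤ) - h := fun z => by
    push_cast; ring
  have ey : ∀ z : ℕ, (j : ℤ) - h + (z : ℤ) * 1 = ((j + z : ℕ) : ℤ) - h := fun z => by
    push_cast; ring
  have := n.tp dir_d (m : ℤ) (k : ℤ) (x := (i : ℤ) - h) (y := (j : ℤ) - h)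
    (sq_mem (by omega)) (sq_mem (by omega)) (by rw [ex]; exact sq_mem him)
    (by rw [ey]; exact sq_mem hjm) (by rw [ex]; exact sq_mem hik) (by rw [ey]; exact sq_mem hjk)
  rw [ex, ex, ey, ey, Int.cast_natCast, Int.cast_natCast, Nat.abs_cast, Nat.abs_cast] at this
  exact this

theorem NS.tpa (n : NS P ℓ N κ L c χ h b R) {i j t : ℕ} (hi : i + 2 * t ≤ 2 * h)
    (hj : j + 2 * t ≤ 2 * h) :
    |det2 (sh R h (i + t) (j + t) - sh R h i (j + 2 * t))
      (sh R h (i + 2 * t) j - sh R h i (j + 2 * t))| ≤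
      (t : ℝ) * (((2 * t : ℕ) : ℝ) * (2 * χ / N)) := by
  have ex : ∀ z : ℕ, (i : ℤ) - h + (z : ℤ) * 1 = ((i + z : ℕ) : ℤ) - h := fun z => by
    push_cast; ring
  have ey1 : ((j + 2 * t : ℕ) : ℤ) - h + (t : ℤ) * (-1) = ((j + t : ℕ) : ℤ) - h := by
    push_cast; ring
  have ey2 : ((j + 2 * t : ℕ) : ℤ) - h + ((2 * t : ℕ) : ℤ) * (-1) = (j : ℤ) - h := by
    push_cast; ring
  have := n.tp dir_a (t : ℤ) ((2 * t : ℕ) : ℤ) (x := (i : ℤ) - h)
    (y := ((j + 2 * t : ℕ) : ℤ) - h) (sq_mem (by omega)) (sq_mem hj)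
    (by rw [ex]; exact sq_mem (by omega)) (by rw [ey1]; exact sq_mem (by omega))
    (by rw [ex]; exact sq_mem hi) (by rw [ey2]; exact sq_mem (by omega))
  rw [ex, ex, ey1, ey2, Int.cast_natCast, Int.cast_natCast, Nat.abs_cast, Nat.abs_cast] at this
  exact this

theorem vec_x : vec 1 0 = 1 := by unfold vec; push_cast; ring

theorem vec_y : vec 0 1 = Complex.I := by unfold vec; push_cast; ring

theorem vec_d : vec 1 1 = 1 + Complex.I := by unfold vec; push_cast; ring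

theorem vec_a : vec 1 (-1) = 1 - Complex.I := by unfold vec; push_cast; ring

/-- the normalised grid satisfies the hypotheses of the rigidity theorem -/
theorem NS.pre (n : NS P ℓ N κ L c χ h b R) (c00 : R (-h) (-h) = 0)
    (cM0 : R h (-h) = ((2 * h : ℕ) : ℂ)) (c0M : R (-h) h = ((2 * h : ℕ) : ℂ) * Complex.I)
    (cMM : R h h = ((2 * h : ℕ) : ℂ) * (1 + Complex.I)) :
    Pre (sh R h) (2 * h) (2 * (50000 * (κ * L ^ 2))) (2 * χ) (3 * L) := by
  have hκ := n.hκ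
  have hL := n.F.one_le
  have hχ := n.hχ
  have hN0 : (0 : ℝ) < N := by
    have : 0 < N := by have := n.hN; omega
    exact_mod_cast this
  have hMN : ((2 * h : ℕ) : ℝ) ≤ N := by
    have : 2 * h ≤ N := by have := n.hh; omega
    exact_mod_cast this
  have hh := n.hh
  have hh0 := n.hh0
  have e0 : ((0 : ℕ) : ℤ) - h = -h := by push_cast; ring
  have eM : ((2 * h : ℕ) : ℤ) - h = h := by push_cast; ring
  have hη : 0 ≤ 50000 * (κ * L ^ 2) := by positivity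
  -- numerical: `m k χ / N ≤ M χ`
  have num : ∀ m k : ℝ, 0 ≤ m → m ≤ ((2 * h : ℕ) : ℝ) → 0 ≤ k →
      m * (k * (2 * χ / N)) ≤ k * (2 * χ) := by
    intro m k hm0 hm hk
    have h1 : m * (2 * χ / N) ≤ 2 * χ := by
      rw [mul_div_assoc', div_le_iff₀ hN0]
      have := mul_le_mul_of_nonneg_right (hm.trans hMN) (show 0 ≤ 2 * χ by positivity)
      linarith
    calc m * (k * (2 * χ / N)) = k * (m * (2 * χ / N)) := by ring
      _ ≤ k * (2 * χ) := mul_le_mul_of_nonneg_left h1 hk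
  -- increments
  have inc : ∀ x y x' y' : ℤ, |x| ≤ h → |y| ≤ h → |x'| ≤ h → |y'| ≤ h → |x' - x| + |y' - y| ≤ 1 →
      ‖R x' y' - R x y‖ ≤ 3 * L := by
    intro x y x' y' h1 h2 h3 h4 h5
    have hb := n.hb
    have hsm := n.small
    have a1 := n.n1 x y x' y' h1 h2 h3 h4
    have a2 := n.F.upper (by linarith [hsm.2]) (x := x) (y := y) (x' := x') (y' := y')
      (by omega) (by omega) (by omega) (by omega)
    have a3 : |((x' - x : ℤ) : ℝ)| + |((y' - y : ℤ) : ℝ)| ≤ 1 := by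
      have : ((|x' - x| + |y' - y| : ℤ) : ℝ) ≤ ((1 : ℤ) : ℝ) := by exact_mod_cast h5
      push_cast at this ⊢
      exact this
    have a4 : ‖P x' y' - P x y‖ ≤ 2 * L := by
      refine a2.trans ?_
      have := mul_le_mul_of_nonneg_left a3 (show 0 ≤ 2 * L by linarith)
      linarith
    have hb0 : (0 : ℝ) < b := by linarith
    have a5 : b * ‖R x' y' - R x y‖ ≤ ‖(b : ℂ) * (R x' y' - R x y) - (P x' y' - P x y)‖ +
        ‖P x' y' - P x y‖ := by
      rw [← norm_real_mul hb0.le]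
      have := norm_add_le ((b : ℂ) * (R x' y' - R x y) - (P x' y' - P x y)) (P x' y' - P x y)
      rwa [sub_add_cancel] at this
    have a6 : 1 * ‖R x' y' - R x y‖ ≤ b * ‖R x' y' - R x y‖ :=
      mul_le_mul_of_nonneg_right hb (norm_nonneg _)
    have a7 : 20000 * (κ * L) * ‖P x' y' - P x y‖ ≤ 1 / 2 * ‖P x' y' - P x y‖ :=
      mul_le_mul_of_nonneg_right (by linarith [hsm.1]) (norm_nonneg _)
    linarith
  refine ⟨by positivity, by positivity, ?_, ?_, ?_, ?_, ?_, ?_, ?_, ?_, ?_, ?_, ?_, ?_, ?_, ?_⟩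
  · unfold sh; rw [e0]; exact c00
  · unfold sh; rw [e0, eM]; exact cM0
  · unfold sh; rw [e0, eM]; exact c0M
  · unfold sh; rw [eM]; exact cMM
  · intro i j hi hj
    have := n.tpx (i := 0) (m := i) (k := 2 * h) (j := j) (by omega) hi le_rfl hj
    have hi' : (i : ℝ) ≤ ((2 * h : ℕ) : ℝ) := by exact_mod_cast hi
    refine this.trans ?_
    have e1 : |(((i : ℤ) - (0 : ℕ) : ℤ) : ℝ)| = i := by push_cast; rw [sub_zero, Nat.abs_cast]
    have e2 : |((((2 * h : ℕ) : ℤ) - (0 : ℕ) : ℤ) : ℝ)| = ((2 * h : ℕ) : ℝ) := by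
      push_cast; rw [sub_zero]; rw [abs_of_nonneg (by positivity)]
    push_cast at e1 e2 ⊢
    rw [e1, e2]
    have := num i ((2 * h : ℕ) : ℝ) (Nat.cast_nonneg _) hi' (Nat.cast_nonneg _)
    push_cast at this
    exact this
  · intro i j hi hj
    have := n.tpy (i := i) (j := 0) (m := j) (k := 2 * h) hi (by omega) hj le_rfl
    have hj' : (j : ℝ) ≤ ((2 * h : ℕ) : ℝ) := by exact_mod_cast hj
    refine this.trans ?_
    have e1 : |(((j : ℤ) - (0 : ℕ) : ℤ) : ℝ)| = j := by push_cast; rw [sub_zero, Nat.abs_cast]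
    have e2 : |((((2 * h : ℕ) : ℤ) - (0 : ℕ) : ℤ) : ℝ)| = ((2 * h : ℕ) : ℝ) := by
      push_cast; rw [sub_zero]; rw [abs_of_nonneg (by positivity)]
    push_cast at e1 e2 ⊢
    rw [e1, e2]
    have := num j ((2 * h : ℕ) : ℝ) (Nat.cast_nonneg _) hj' (Nat.cast_nonneg _)
    push_cast at this
    exact this
  · intro i j t hi hj
    refine (n.tpd (i := i) (j := j) (m := t) (k := 2 * t) (by omega) (by omega) hi hj).trans ?_
    have h2t : ((2 * t : ℕ) : ℝ) ≤ ((2 * h : ℕ) : ℝ) := by exact_mod_cast (by omega : 2 * t ≤ 2 * h)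
    have := num ((2 * t : ℕ) : ℝ) t (Nat.cast_nonneg _) h2t (Nat.cast_nonneg _)
    have e : (t : ℝ) * (((2 * t : ℕ) : ℝ) * (2 * χ / N)) = ((2 * t : ℕ) : ℝ) * (t * (2 * χ / N)) := by
      ring
    rw [e]
    exact this
  · intro i j t hi hj
    refine (n.tpa (i := i) (j := j) (t := t) hi hj).trans ?_
    have h2t : ((2 * t : ℕ) : ℝ) ≤ ((2 * h : ℕ) : ℝ) := by exact_mod_cast (by omega : 2 * t ≤ 2 * h)
    have := num ((2 * t : ℕ) : ℝ) t (Nat.cast_nonneg _) h2t (Nat.cast_nonneg _)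
    have e : (t : ℝ) * (((2 * t : ℕ) : ℝ) * (2 * χ / N)) = ((2 * t : ℕ) : ℝ) * (t * (2 * χ / N)) := by
      ring
    rw [e]
    exact this
  · intro i j hi hj
    have ex : (-h : ℤ) + (i : ℤ) * 1 = (i : ℤ) - h := by ring
    have ey : (j : ℤ) - h + (i : ℤ) * 0 = (j : ℤ) - h := by ring
    obtain ⟨t, E, h1, h2⟩ := n.dir dir_x i (x := -h) (y := (j : ℤ) - h)
      (by rw [← e0]; exact sq_mem (by omega)) (sq_mem hj) (by rw [ex]; exact sq_mem hi)
      (by rw [ey]; exact sq_mem hj)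
    rw [ex, ey, vec_x, mul_one] at h1
    have h3 := congrArg Complex.im h1
    simp only [Complex.sub_im, Complex.add_im, Complex.ofReal_im, zero_add] at h3
    unfold sh
    rw [e0, h3]
    have h4 := Complex.abs_im_le_norm E
    have h5 : 0 ≤ (i : ℝ) * (50000 * (κ * L ^ 2)) := by positivity
    linarith
  · intro i j hi hj
    have ey : (-h : ℤ) + (j : ℤ) * 1 = (j : ℤ) - h := by ring
    have ex : (i : ℤ) - h + (j : ℤ) * 0 = (i : ℤ) - h := by ring
    obtain ⟨t, E, h1, h2⟩ := n.dir dir_y j (x := (i : ℤ) - h) (y := -h) (sq_mem hi)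
      (by rw [← e0]; exact sq_mem (by omega)) (by rw [ex]; exact sq_mem hi)
      (by rw [ey]; exact sq_mem hj)
    rw [ex, ey, vec_y] at h1
    have h3 := congrArg Complex.re h1
    simp only [Complex.sub_re, Complex.add_re, Complex.mul_re, Complex.ofReal_re,
      Complex.ofReal_im, Complex.I_re, Complex.I_im, mul_zero, mul_one, sub_self, zero_add] at h3
    unfold sh
    rw [e0, h3]
    have h4 := Complex.abs_re_le_norm E
    have h5 : 0 ≤ (j : ℝ) * (50000 * (κ * L ^ 2)) := by positivity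
    linarith
  · intro i j k hi hj
    have ex : (i : ℤ) - h + (k : ℤ) * 1 = ((i + k : ℕ) : ℤ) - h := by push_cast; ring
    have ey : (j : ℤ) - h + (k : ℤ) * 1 = ((j + k : ℕ) : ℤ) - h := by push_cast; ring
    obtain ⟨t, E, h1, h2⟩ := n.dir dir_d k (x := (i : ℤ) - h) (y := (j : ℤ) - h)
      (sq_mem (by omega)) (sq_mem (by omega)) (by rw [ex]; exact sq_mem hi)
      (by rw [ey]; exact sq_mem hj)
    rw [ex, ey, vec_d] at h1
    have h3 := congrArg Complex.re h1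
    have h3' := congrArg Complex.im h1
    simp only [Complex.sub_re, Complex.add_re, Complex.mul_re, Complex.ofReal_re,
      Complex.ofReal_im, Complex.I_re, Complex.I_im, Complex.one_re, Complex.one_im, mul_zero,
      mul_one, zero_mul, sub_zero, add_zero, zero_add] at h3
    simp only [Complex.sub_im, Complex.add_im, Complex.mul_im, Complex.ofReal_re,
      Complex.ofReal_im, Complex.I_re, Complex.I_im, Complex.one_re, Complex.one_im, mul_zero,
      mul_one, zero_mul, sub_zero, add_zero, zero_add, Complex.add_re] at h3'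
    unfold sh
    rw [h3, h3']
    have h4 := Complex.abs_re_le_norm E
    have h4' := Complex.abs_im_le_norm E
    have e : t + E.im - (t + E.re) = E.im - E.re := by ring
    rw [e]
    refine (abs_sub _ _).trans ?_
    linarith
  · intro i j k hi hj
    have ex : (i : ℤ) - h + (k : ℤ) * 1 = ((i + k : ℕ) : ℤ) - h := by push_cast; ring
    have ey : ((j + k : ℕ) : ℤ) - h + (k : ℤ) * (-1) = (j : ℤ) - h := by push_cast; ring
    obtain ⟨t, E, h1, h2⟩ := n.dir dir_a k (x := (i : ℤ) - h) (y := ((j + k : ℕ) : ℤ) - h)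
      (sq_mem (by omega)) (sq_mem hj) (by rw [ex]; exact sq_mem hi)
      (by rw [ey]; exact sq_mem (by omega))
    rw [ex, ey, vec_a] at h1
    have h3 := congrArg Complex.re h1
    have h3' := congrArg Complex.im h1
    simp only [Complex.sub_re, Complex.add_re, Complex.mul_re, Complex.ofReal_re,
      Complex.ofReal_im, Complex.I_re, Complex.I_im, Complex.one_re, Complex.one_im,
      Complex.sub_im, zero_mul, sub_zero, mul_one] at h3
    simp only [Complex.sub_im, Complex.add_im, Complex.mul_im, Complex.ofReal_re,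
      Complex.ofReal_im, Complex.I_re, Complex.I_im, Complex.one_re, Complex.one_im,
      Complex.sub_re, zero_mul, add_zero, zero_sub] at h3'
    unfold sh
    rw [h3, h3']
    have h4 := Complex.abs_re_le_norm E
    have h4' := Complex.abs_im_le_norm E
    have e : t * -1 + E.im + (t + E.re) = E.im + E.re := by ring
    rw [e]
    refine (abs_add_le _ _).trans ?_
    linarith
  · intro i j hi hj
    unfold sh
    have := inc ((i : ℤ) - h) ((j : ℤ) - h) (((i + 1 : ℕ) : ℤ) - h) ((j : ℤ) - h)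
      (sq_mem (by omega)) (sq_mem hj) (sq_mem hi) (sq_mem hj) (by
        have e1 : ((i + 1 : ℕ) : ℤ) - h - ((i : ℤ) - h) = 1 := by push_cast; ring
        rw [e1, sub_self]; simp)
    refine le_trans ?_ this
    have h9 := Complex.abs_re_le_norm (R (((i + 1 : ℕ) : ℤ) - h) ((j : ℤ) - h) -
      R ((i : ℤ) - h) ((j : ℤ) - h))
    rwa [Complex.sub_re] at h9
  · intro i j hi hj
    unfold sh
    have := inc ((i : ℤ) - h) ((j : ℤ) - h) ((i : ℤ) - h) (((j + 1 : ℕ) : ℤ) - h)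
      (sq_mem hi) (sq_mem (by omega)) (sq_mem hi) (sq_mem hj) (by
        have e1 : ((j + 1 : ℕ) : ℤ) - h - ((j : ℤ) - h) = 1 := by push_cast; ring
        rw [e1, sub_self]; simp)
    refine le_trans ?_ this
    have h9 := Complex.abs_im_le_norm (R ((i : ℤ) - h) (((j + 1 : ℕ) : ℤ) - h) -
      R ((i : ℤ) - h) ((j : ℤ) - h))
    rwa [Complex.sub_im] at h9

theorem NS.str (n : NS P ℓ N κ L c χ h b R) : Str (sh R h) (2 * h) (2 * χ) := by
  have hχ := n.hχ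
  have hN0 : (0 : ℝ) < N := by
    have : 0 < N := by have := n.hN; omega
    exact_mod_cast this
  have hMN : ((2 * h : ℕ) : ℝ) ≤ N := by
    have : 2 * h ≤ N := by have := n.hh; omega
    exact_mod_cast this
  have num : ∀ k : ℝ, k ≤ ((2 * h : ℕ) : ℝ) → k * (2 * χ / N) ≤ 2 * χ := by
    intro k hk
    rw [mul_div_assoc', div_le_iff₀ hN0]
    have := mul_le_mul_of_nonneg_right (hk.trans hMN) (show 0 ≤ 2 * χ by positivity)
    linarith
  have dist : ∀ k i : ℕ, k ≤ 2 * h → i ≤ 2 * h → |(((k : ℤ) - i : ℤ) : ℝ)| ≤ ((2 * h : ℕ) : ℝ) := by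
    intro k i hk hi
    have h1 : |(k : ℤ) - i| ≤ ((2 * h : ℕ) : ℤ) := by rw [abs_le]; constructor <;> omega
    exact_mod_cast h1
  refine ⟨?_, ?_, ?_⟩
  · intro i j k hi hj hk
    refine (n.tpx (i := i) (m := i + 1) (k := k) (j := j) (by omega) hi hk hj).trans ?_
    have e1 : |((((i + 1 : ℕ) : ℤ) - i : ℤ) : ℝ)| = 1 := by push_cast; simp
    have e2 := num _ (dist k i hk (by omega))
    push_cast at e1 e2 ⊢
    rw [e1, one_mul]
    exact e2
  · intro i j k hi hj hk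
    refine (n.tpy (i := i) (j := j) (m := j + 1) (k := k) hi (by omega) hj hk).trans ?_
    have e1 : |((((j + 1 : ℕ) : ℤ) - j : ℤ) : ℝ)| = 1 := by push_cast; simp
    have e2 := num _ (dist k j hk (by omega))
    push_cast at e1 e2 ⊢
    rw [e1, one_mul]
    exact e2
  · intro i j k hi hj hik hjk
    refine (n.tpd (i := i) (j := j) (m := 1) (k := k) hi hj hik hjk).trans ?_
    rw [Nat.cast_one, one_mul]
    exact num _ (by exact_mod_cast (by omega : k ≤ 2 * h))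

theorem stepC (L : ℝ) (hL : 1 ≤ L) : ∃ κ0 : ℝ, 0 < κ0 ∧ ∀ c χ : ℝ, 0 < c → 0 ≤ χ →
    ∃ C0 c1 : ℝ, 0 < C0 ∧ 0 < c1 ∧ ∃ N1 : ℕ, ∀ N : ℕ, N1 ≤ N → ∀ (P : ℤ → ℤ → ℂ)
      (ℓ : ℤ → ℤ → ℝ) (κ : ℝ), 0 ≤ κ → κ ≤ κ0 → DF P ℓ N κ L → Void P N c →
      Bd P (χ / N) (Oct (N / 16)) →
      ∃ (M : ℕ) (Q : ℕ → ℕ → ℂ), N ≤ 1000 * M ∧
        (∀ i j, i ≤ M → j ≤ M → ‖Q i j - ((i : ℂ) + (j : ℂ) * Complex.I)‖ ≤ C0) ∧
        Str Q M C0 ∧ Sep Q M (c1 / (M : ℝ) ^ 2) := by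
  have hL2 : 1 ≤ L ^ 2 := one_le_pow₀ hL
  refine ⟨1 / (2 * 10 ^ 12 * L ^ 2), by positivity, ?_⟩
  intro c χ hc hχ
  refine ⟨4 * 10 ^ 6 * (2 * χ + 2 * (3 * L + 1)), c / (3 * 10 ^ 6), by positivity, by positivity,
    512, ?_⟩
  intro N hN P ℓ κ hκ hκ0 F V S
  have hκL : 2 * 10 ^ 12 * (κ * L ^ 2) ≤ 1 := by
    rw [le_div_iff₀ (by positivity)] at hκ0
    linarith
  have hκL1 : κ * L ≤ κ * L ^ 2 := mul_le_mul_of_nonneg_left (by nlinarith) hκ
  set h : ℕ := 8 * (N / 256) with hh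
  have hh32 : 32 * h ≤ N := by omega
  have hh0 : 0 < h := by omega
  obtain ⟨b, b1, b2, k1, k2, k3⟩ := F.corners hκ (by omega) (h := h) (by omega)
  have hM0 : (0 : ℝ) < ((2 * h : ℕ) : ℝ) := by exact_mod_cast (by omega : 0 < 2 * h)
  obtain ⟨H, H1, H2, H3, H4, H5, H6⟩ := proj L b κ ((2 * h : ℕ) : ℝ) (P (-h) (-h)) (P h (-h))
    (P (-h) h) (P h h) hL b1 b2 hκ (by linarith) hM0 k1 k2 k3
  have hκ1 : κ ≤ 1 := by
    have : κ ≤ κ * L ^ 2 := by nlinarith
    linarith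
  have inside : ∀ x y : ℤ, |x| ≤ h → |y| ≤ h →
      ‖P x y - P (-h) (-h)‖ ≤ 4 * L * ((2 * h : ℕ) : ℝ) := by
    intro x y hx hy
    have a := F.upper hκ1 (x := -h) (y := -h) (x' := x) (y' := y)
      (by rw [abs_neg, abs_of_nonneg (by omega)]; omega)
      (by rw [abs_neg, abs_of_nonneg (by omega)]; omega) (by omega) (by omega)
    refine a.trans ?_
    have hx' := abs_le.mp hx
    have hy' := abs_le.mp hy
    have b1 : |((x - (-h) : ℤ) : ℝ)| ≤ ((2 * h : ℕ) : ℝ) := by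
      have : |x - (-(h : ℤ))| ≤ ((2 * h : ℕ) : ℤ) := by rw [abs_le]; constructor <;> omega
      exact_mod_cast this
    have b2 : |((y - (-h) : ℤ) : ℝ)| ≤ ((2 * h : ℕ) : ℝ) := by
      have : |y - (-(h : ℤ))| ≤ ((2 * h : ℕ) : ℤ) := by rw [abs_le]; constructor <;> omega
      exact_mod_cast this
    have b3 := mul_le_mul_of_nonneg_left (add_le_add b1 b2) (show 0 ≤ 2 * L by linarith)
    linarith
  have ns : NS P ℓ N κ L c χ h b (fun x y => H (P x y)) := by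
    refine ⟨F, V, S, hκ, hκL, hχ, hN, hh32, hh0, b1, ?_, ?_, ?_⟩
    · intro x y x' y' e
      simp only [e]
    · intro x y x' y' h1 h2 h3 h4
      exact H5 _ _ (inside x' y' h3 h4) (inside x y h1 h2)
    · intro x y x' y' x'' y'' h1 h2 h3 h4 h5 h6
      exact H6 _ _ _ (inside x y h1 h2) (inside x' y' h3 h4) (inside x'' y'' h5 h6)
  have hcast : ((((2 * h : ℕ) : ℝ)) : ℂ) = ((2 * h : ℕ) : ℂ) := Complex.ofReal_natCast _
  have hpre := ns.pre H1 (H2.trans hcast) (by rw [← hcast]; exact H3) (by rw [← hcast]; exact H4)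
  refine ⟨2 * h, sh (fun x y => H (P x y)) h, by omega, ?_, ?_, ?_⟩
  · intro i j hi hj
    exact hpre.bound (m := N / 256) (by omega) (by omega) (by linarith) i j hi hj
  · have hstr := ns.str
    have hle : 2 * χ ≤ 4 * 10 ^ 6 * (2 * χ + 2 * (3 * L + 1)) := by linarith
    exact ⟨fun i j k h1 h2 h3 => (hstr.row i j k h1 h2 h3).trans hle,
      fun i j k h1 h2 h3 => (hstr.col i j k h1 h2 h3).trans hle,
      fun i j k h1 h2 h3 h4 => (hstr.dia i j k h1 h2 h3 h4).trans hle⟩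
  · intro i j i' j' i'' j'' h1 h2 h3 h4 h5 h6 hne hr
    have hs := ns.sep hc.le (sq_mem h1) (sq_mem h2) (sq_mem h3) (sq_mem h4) (sq_mem h5)
      (sq_mem h6) hne hr
    have hNM : (N : ℝ) ≤ 1000 * ((2 * h : ℕ) : ℝ) := by exact_mod_cast (by omega : N ≤ 1000 * (2 * h))
    have hN2 : (N : ℝ) ^ 2 ≤ (1000 * ((2 * h : ℕ) : ℝ)) ^ 2 :=
      pow_le_pow_left₀ (Nat.cast_nonneg _) hNM 2
    unfold sh
    set D := |det2 (H (P ((i' : ℤ) - h) ((j' : ℤ) - h)) - H (P ((i : ℤ) - h) ((j : ℤ) - h)))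
      (H (P ((i'' : ℤ) - h) ((j'' : ℤ) - h)) - H (P ((i : ℤ) - h) ((j : ℤ) - h)))|
    set Z := ‖H (P ((i'' : ℤ) - h) ((j'' : ℤ) - h)) - H (P ((i : ℤ) - h) ((j : ℤ) - h))‖
    have hs' : c / 3 * Z ^ 2 ≤ N ^ 2 * D := hs
    have hD : 0 ≤ D := abs_nonneg _
    have h7 : (N : ℝ) ^ 2 * D ≤ (1000 * ((2 * h : ℕ) : ℝ)) ^ 2 * D :=
      mul_le_mul_of_nonneg_right hN2 hD
    have e : c / (3 * 10 ^ 6) / ((2 * h : ℕ) : ℝ) ^ 2 * Z ^ 2 =
        (c / 3 * Z ^ 2) / (1000 * ((2 * h : ℕ) : ℝ)) ^ 2 := by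
      have e3 : (1000 * ((2 * h : ℕ) : ℝ)) ^ 2 = 10 ^ 6 * ((2 * h : ℕ) : ℝ) ^ 2 := by ring
      rw [e3, div_div, div_mul_eq_mul_div, div_mul_eq_mul_div, div_div]
      congr 1
      ring
    rw [e, div_le_iff₀ (by positivity)]
    linarith

end

end Pool.Agent.Lib.MP_a768d2_coT
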