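import Pool.Agent.Lib.MP_a768d2_coD.Geo

/-! # Step D: the frames of a normalised straight grid are `(1, i)` up to `O(log M / M)` -/

namespace Pool.Agent.Lib.MP_a768d2_coT

open Pool.Agent.Lib.MP_a768d2_coG

noncomputable section

/-- a normalised straight grid -/
structure Nrm (Q : ℕ → ℕ → ℂ) (M : ℕ) (C : ℝ) : Prop where
  hC : 0 < C
  hM : 8 * C ≤ M
  hM2 : 16 ≤ M
  near : ∀ i j, i ≤ M → j ≤ M → ‖Q i j - ((i : ℂ) + (j : ℂ) * Complex.I)‖ ≤ C
  str : Str Q M C

variable {Q : ℕ → ℕ → ℂ} {M : ℕ} {C : ℝ}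

theorem Nrm.re (n : Nrm Q M C) {i j : ℕ} (hi : i ≤ M) (hj : j ≤ M) : |(Q i j).re - i| ≤ C := by
  have h := (Complex.abs_re_le_norm _).trans (n.near i j hi hj)
  simpa using h

theorem Nrm.im (n : Nrm Q M C) {i j : ℕ} (hi : i ≤ M) (hj : j ≤ M) : |(Q i j).im - j| ≤ C := by
  have h := (Complex.abs_im_le_norm _).trans (n.near i j hi hj)
  simpa using h

/-- algebra: a frame that is almost parallel to a long vector in the first direction -/
theorem slope_aux {F1 F2 X1 X2 C m : ℝ} (hC : 0 < C) (hm : 8 * C ≤ m)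
    (hdet : |F1 * X2 - F2 * X1| ≤ C) (hX1 : m / 2 - 2 * C ≤ |X1|) (hX2 : |X2| ≤ 2 * C)
    (hF1 : |F1| ≤ 1 + 2 * C) : |F2| ≤ (20 * C + 32 * C ^ 2) / m := by
  have hm0 : 0 < m := by linarith
  rw [le_div_iff₀ hm0]
  have h1 : m / 4 ≤ |X1| := by linarith
  have h2 : |F2| * |X1| ≤ C + (1 + 2 * C) * (2 * C) := by
    have e : F2 * X1 = F1 * X2 - (F1 * X2 - F2 * X1) := by ring
    have h3 : |F2 * X1| ≤ |F1 * X2| + |F1 * X2 - F2 * X1| := by
      rw [e]
      have := abs_sub (F1 * X2) (F1 * X2 - F2 * X1)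
      rw [← e] at this ⊢
      exact this
    rw [abs_mul, abs_mul] at h3
    have h4 : |F1| * |X2| ≤ (1 + 2 * C) * (2 * C) :=
      mul_le_mul hF1 hX2 (abs_nonneg _) (by linarith)
    linarith
  have h5 : |F2| * (m / 4) ≤ |F2| * |X1| := mul_le_mul_of_nonneg_left h1 (abs_nonneg _)
  have h6 : 0 ≤ C ^ 2 := by positivity
  nlinarith

/-- the size of the transversal increments -/
def eta (M : ℕ) (C : ℝ) : ℝ := (20 * C + 32 * C ^ 2) / M

theorem Nrm.row1 (n : Nrm Q M C) {i j : ℕ} (hi : i + 1 ≤ M) (hj : j ≤ M) :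
    |(Q (i + 1) j).im - (Q i j).im| ≤ eta M C := by
  have hC := n.hC
  have a1 := abs_le.mp (n.re (i := i + 1) (j := j) hi hj)
  have a2 := abs_le.mp (n.re (i := i) (j := j) (by omega) hj)
  have a3 := abs_le.mp (n.im (i := i + 1) (j := j) hi hj)
  have a4 := abs_le.mp (n.im (i := i) (j := j) (by omega) hj)
  push_cast at a1 a3
  have key : ∀ k : ℕ, k ≤ M → (M : ℝ) / 2 ≤ |(k : ℝ) - i| →
      |(Q (i + 1) j).im - (Q i j).im| ≤ eta M C := by
    intro k hk hki
    have a5 := n.re (i := k) (j := j) hk hj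
    have a6 := abs_le.mp (n.im (i := k) (j := j) hk hj)
    have hd := n.str.row i j k hi hj hk
    simp only [det2, Complex.sub_re, Complex.sub_im] at hd
    refine slope_aux hC n.hM hd ?_ ?_ ?_
    · have e : (k : ℝ) - i = ((Q k j).re - (Q i j).re) - (((Q k j).re - k) - ((Q i j).re - i)) := by
        ring
      have h1 : |(k : ℝ) - i| ≤ |(Q k j).re - (Q i j).re| + |((Q k j).re - k) - ((Q i j).re - i)| := by
        rw [e]; exact abs_sub _ _
      have h2 : |((Q k j).re - k) - ((Q i j).re - i)| ≤ 2 * C := by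
        have := abs_sub ((Q k j).re - k) ((Q i j).re - i)
        have h3 := n.re (i := i) (j := j) (by omega) hj
        linarith
      linarith
    · rw [abs_le]; constructor <;> linarith
    · rw [abs_le]; constructor <;> linarith
  rcases Nat.le_total (2 * i) M with h | h
  · refine key M le_rfl ?_
    have h1 : (2 : ℝ) * i ≤ M := by exact_mod_cast h
    rw [abs_of_nonneg (by linarith)]
    linarith
  · refine key 0 (by omega) ?_
    have h1 : (M : ℝ) ≤ 2 * i := by exact_mod_cast h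
    push_cast
    rw [zero_sub, abs_neg, Nat.abs_cast]
    linarith

theorem Nrm.col1 (n : Nrm Q M C) {i j : ℕ} (hi : i ≤ M) (hj : j + 1 ≤ M) :
    |(Q i (j + 1)).re - (Q i j).re| ≤ eta M C := by
  have hC := n.hC
  have a1 := abs_le.mp (n.re (i := i) (j := j + 1) hi hj)
  have a2 := abs_le.mp (n.re (i := i) (j := j) hi (by omega))
  have a3 := abs_le.mp (n.im (i := i) (j := j + 1) hi hj)
  have a4 := abs_le.mp (n.im (i := i) (j := j) hi (by omega))
  push_cast at a1 a3
  have key : ∀ k : ℕ, k ≤ M → (M : ℝ) / 2 ≤ |(k : ℝ) - j| →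
      |(Q i (j + 1)).re - (Q i j).re| ≤ eta M C := by
    intro k hk hki
    have a5 := n.im (i := i) (j := k) hi hk
    have a6 := abs_le.mp (n.re (i := i) (j := k) hi hk)
    have hd := n.str.col i j k hi hj hk
    simp only [det2, Complex.sub_re, Complex.sub_im] at hd
    refine slope_aux (F1 := (Q i (j + 1)).im - (Q i j).im) (X2 := (Q i k).re - (Q i j).re)
      (X1 := (Q i k).im - (Q i j).im) hC n.hM ?_ ?_ ?_ ?_
    · rw [abs_sub_comm]
      refine le_trans (le_of_eq ?_) hd
      congr 1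
    · have e : (k : ℝ) - j = ((Q i k).im - (Q i j).im) - (((Q i k).im - k) - ((Q i j).im - j)) := by
        ring
      have h1 : |(k : ℝ) - j| ≤ |(Q i k).im - (Q i j).im| + |((Q i k).im - k) - ((Q i j).im - j)| := by
        rw [e]; exact abs_sub _ _
      have h2 : |((Q i k).im - k) - ((Q i j).im - j)| ≤ 2 * C := by
        have := abs_sub ((Q i k).im - k) ((Q i j).im - j)
        have h3 := n.im (i := i) (j := j) hi (by omega)
        linarith
      linarith
    · rw [abs_le]; constructor <;> linarith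
    · rw [abs_le]; constructor <;> linarith
  rcases Nat.le_total (2 * j) M with h | h
  · refine key M le_rfl ?_
    have h1 : (2 : ℝ) * j ≤ M := by exact_mod_cast h
    rw [abs_of_nonneg (by linarith)]
    linarith
  · refine key 0 (by omega) ?_
    have h1 : (M : ℝ) ≤ 2 * j := by exact_mod_cast h
    push_cast
    rw [zero_sub, abs_neg, Nat.abs_cast]
    linarith

theorem Nrm.dia1 (n : Nrm Q M C) {i j : ℕ} (hi : i + M / 2 ≤ M) (hj : j + M / 2 ≤ M) :
    |((Q (i + 1) (j + 1)).re - (Q (i + 1) (j + 1)).im) - ((Q i j).re - (Q i j).im)| ≤ eta M C := by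
  have hC := n.hC
  have hM2 := n.hM2
  have hi1 : i + 1 ≤ M := by omega
  have hj1 : j + 1 ≤ M := by omega
  have a1 := abs_le.mp (n.re (i := i + 1) (j := j + 1) hi1 hj1)
  have a2 := abs_le.mp (n.re (i := i) (j := j) (by omega) (by omega))
  have a3 := abs_le.mp (n.im (i := i + 1) (j := j + 1) hi1 hj1)
  have a4 := abs_le.mp (n.im (i := i) (j := j) (by omega) (by omega))
  have a5 := abs_le.mp (n.re (i := i + M / 2) (j := j + M / 2) hi hj)
  have a6 := abs_le.mp (n.im (i := i + M / 2) (j := j + M / 2) hi hj)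
  have hd := n.str.dia i j (M / 2) hi1 hj1 hi hj
  simp only [det2, Complex.sub_re, Complex.sub_im] at hd
  set h : ℝ := ((M / 2 : ℕ) : ℝ) with hh
  have hh4 : (M : ℝ) / 4 ≤ h := by
    have h1 : M ≤ 4 * (M / 2) := by omega
    have h2 : (M : ℝ) ≤ 4 * h := by rw [hh]; exact_mod_cast h1
    linarith
  push_cast at a1 a3 a5 a6
  set F1 := (Q (i + 1) (j + 1)).re - (Q i j).re with hF1
  set F2 := (Q (i + 1) (j + 1)).im - (Q i j).im with hF2
  set E1 := (Q (i + M / 2) (j + M / 2)).re - (Q i j).re - h with hE1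
  set E2 := (Q (i + M / 2) (j + M / 2)).im - (Q i j).im - h with hE2
  have b1 : |F1| ≤ 1 + 2 * C := by rw [hF1, abs_le]; constructor <;> linarith
  have b2 : |F2| ≤ 1 + 2 * C := by rw [hF2, abs_le]; constructor <;> linarith
  have b3 : |E1| ≤ 2 * C := by rw [hE1, abs_le]; constructor <;> linarith
  have b4 : |E2| ≤ 2 * C := by rw [hE2, abs_le]; constructor <;> linarith
  have e : F1 * ((Q (i + M / 2) (j + M / 2)).im - (Q i j).im) -
      F2 * ((Q (i + M / 2) (j + M / 2)).re - (Q i j).re) = h * (F1 - F2) + F1 * E2 - F2 * E1 := by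
    rw [hE1, hE2]; ring
  rw [e] at hd
  have c1 : |F1 * E2| ≤ (1 + 2 * C) * (2 * C) := by
    rw [abs_mul]; exact mul_le_mul b1 b4 (abs_nonneg _) (by linarith)
  have c2 : |F2 * E1| ≤ (1 + 2 * C) * (2 * C) := by
    rw [abs_mul]; exact mul_le_mul b2 b3 (abs_nonneg _) (by linarith)
  have hM0 : (0 : ℝ) < M := by
    have : 0 < M := by omega
    exact_mod_cast this
  have hh0 : 0 < h := by linarith
  have c3 : h * |F1 - F2| ≤ 5 * C + 8 * C ^ 2 := by
    have e2 : h * |F1 - F2| = |h * (F1 - F2)| := by rw [abs_mul, abs_of_pos hh0]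
    rw [e2]
    rw [abs_le] at hd c1 c2 ⊢
    constructor <;> nlinarith
  have c4 : M / 4 * |F1 - F2| ≤ h * |F1 - F2| := mul_le_mul_of_nonneg_right hh4 (abs_nonneg _)
  have e3 : (Q (i + 1) (j + 1)).re - (Q (i + 1) (j + 1)).im - ((Q i j).re - (Q i j).im) =
      F1 - F2 := by rw [hF1, hF2]; ring
  rw [e3]
  unfold eta
  rw [le_div_iff₀ hM0]
  linarith

theorem eta_nonneg {M : ℕ} {C : ℝ} (hC : 0 < C) : 0 ≤ eta M C := by
  unfold eta; positivity

/-- generic summation -/
theorem sum_steps (f : ℕ → ℝ) (ε : ℝ) (d : ℕ) (h : ∀ k, k < d → |f (k + 1) - f k| ≤ ε) :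
    |f d - f 0| ≤ d * ε := by
  induction d with
  | zero => simp
  | succ d ih =>
    have h1 := abs_le.mp (ih (fun k hk => h k (by omega)))
    have h2 := abs_le.mp (h d (by omega))
    push_cast
    rw [abs_le]
    constructor <;> nlinarith

theorem Nrm.rowd (n : Nrm Q M C) {i j d : ℕ} (hi : i + d ≤ M) (hj : j ≤ M) :
    |(Q (i + d) j).im - (Q i j).im| ≤ d * eta M C := by
  have := sum_steps (fun k => (Q (i + k) j).im) (eta M C) d (fun k hk => by
    have := n.row1 (i := i + k) (j := j) (by omega) hj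
    rwa [add_assoc] at this)
  simpa using this

theorem Nrm.cold (n : Nrm Q M C) {i j d : ℕ} (hi : i ≤ M) (hj : j + d ≤ M) :
    |(Q i (j + d)).re - (Q i j).re| ≤ d * eta M C := by
  have := sum_steps (fun k => (Q i (j + k)).re) (eta M C) d (fun k hk => by
    have := n.col1 (i := i) (j := j + k) hi (by omega)
    rwa [add_assoc] at this)
  simpa using this

theorem Nrm.diad (n : Nrm Q M C) {i j d : ℕ} (hi : i + d + M / 2 ≤ M) (hj : j + d + M / 2 ≤ M) :
    |((Q (i + d) (j + d)).re - (Q (i + d) (j + d)).im) - ((Q i j).re - (Q i j).im)| ≤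
      d * eta M C := by
  have := sum_steps (fun k => (Q (i + k) (j + k)).re - (Q (i + k) (j + k)).im) (eta M C) d
    (fun k hk => by
      have := n.dia1 (i := i + k) (j := j + k) (by omega) (by omega)
      rwa [add_assoc, add_assoc] at this)
  simpa using this

/-- horizontal increments equal vertical increments -/
theorem Nrm.AB (n : Nrm Q M C) {i j d : ℕ} (hi : i + d + M / 2 ≤ M) (hj : j + d + M / 2 ≤ M) :
    |((Q (i + d) j).re - (Q i j).re) - ((Q i (j + d)).im - (Q i j).im)| ≤ 3 * (d * eta M C) := by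
  have h1 := abs_le.mp (n.diad hi hj)
  have h2 := abs_le.mp (n.cold (i := i + d) (j := j) (d := d) (by omega) (by omega))
  have h3 := abs_le.mp (n.rowd (i := i) (j := j + d) (d := d) (by omega) (by omega))
  rw [abs_le]
  constructor <;> linarith

/-- the Zygmund condition, horizontally -/
theorem Nrm.zygx (n : Nrm Q M C) {i j d : ℕ} (hi : i + d + d + M / 2 ≤ M)
    (hj : j + d + M / 2 ≤ M) :
    |((Q (i + d + d) j).re - (Q (i + d) j).re) - ((Q (i + d) j).re - (Q i j).re)| ≤
      8 * (d * eta M C) := by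
  have h1 := abs_le.mp (n.AB (i := i) (j := j) (d := d) (by omega) hj)
  have h2 := abs_le.mp (n.AB (i := i + d) (j := j) (d := d) hi hj)
  have h3 := abs_le.mp (n.rowd (i := i) (j := j + d) (d := d) (by omega) (by omega))
  have h4 := abs_le.mp (n.rowd (i := i) (j := j) (d := d) (by omega) (by omega))
  rw [abs_le]
  constructor <;> linarith

/-- the Zygmund condition, vertically -/
theorem Nrm.zygy (n : Nrm Q M C) {i j d : ℕ} (hi : i + d + M / 2 ≤ M)
    (hj : j + d + d + M / 2 ≤ M) :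
    |((Q i (j + d + d)).im - (Q i (j + d)).im) - ((Q i (j + d)).im - (Q i j).im)| ≤
      8 * (d * eta M C) := by
  have h1 := abs_le.mp (n.AB (i := i) (j := j) (d := d) hi (by omega))
  have h2 := abs_le.mp (n.AB (i := i) (j := j + d) (d := d) hi hj)
  have h3 := abs_le.mp (n.cold (i := i + d) (j := j) (d := d) (by omega) (by omega))
  have h4 := abs_le.mp (n.cold (i := i) (j := j) (d := d) (by omega) (by omega))
  rw [abs_le]
  constructor <;> linarith

/-- doubling: from the Zygmund condition to a bound for the single increments -/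
theorem dyadic (f : ℕ → ℝ) (ε B : ℝ) (k : ℕ)
    (hz : ∀ l, l < k → |(f (2 ^ l + 2 ^ l) - f (2 ^ l)) - (f (2 ^ l) - f 0)| ≤ 8 * (2 ^ l * ε))
    (hB : |f (2 ^ k) - f 0| ≤ B) : |f 1 - f 0| ≤ B / 2 ^ k + 4 * k * ε := by
  have claim : ∀ l, l ≤ k → |(f 1 - f 0) - (f (2 ^ l) - f 0) / 2 ^ l| ≤ 4 * l * ε := by
    intro l
    induction l with
    | zero => intro _; simp
    | succ l ih =>
      intro hl
      have h1 := abs_le.mp (ih (by omega))
      have h2 := abs_le.mp (hz l (by omega))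
      have h3 : (0 : ℝ) < 2 ^ l := by positivity
      have e : (2 : ℕ) ^ (l + 1) = 2 ^ l + 2 ^ l := by rw [pow_succ]; ring
      have e2 : (2 : ℝ) ^ (l + 1) = 2 ^ l * 2 := pow_succ _ _
      have h4 : |(f (2 ^ l) - f 0) / 2 ^ l - (f (2 ^ (l + 1)) - f 0) / 2 ^ (l + 1)| ≤ 4 * ε := by
        have e3 : (f (2 ^ l) - f 0) / 2 ^ l - (f (2 ^ (l + 1)) - f 0) / 2 ^ (l + 1) =
            -((f (2 ^ l + 2 ^ l) - f (2 ^ l)) - (f (2 ^ l) - f 0)) / (2 ^ l * 2) := by
          rw [e2, e]; field_simp; ring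
        rw [e3, abs_div, abs_neg, abs_of_pos (by positivity : (0 : ℝ) < 2 ^ l * 2),
          div_le_iff₀ (by positivity), abs_le]
        constructor <;> linarith
      have h5 := abs_le.mp h4
      push_cast
      rw [abs_le]
      constructor <;> linarith
  have h1 := claim k le_rfl
  have h2 : |(f (2 ^ k) - f 0) / 2 ^ k| ≤ B / 2 ^ k := by
    rw [abs_div, abs_of_pos (by positivity : (0 : ℝ) < 2 ^ k)]
    exact div_le_div_of_nonneg_right hB (by positivity)
  have h3 := abs_le.mp h1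
  have h4 := abs_le.mp h2
  rw [abs_le]
  constructor <;> linarith

/-- `2 ^ k` is the dyadic scale: `M / 16 < 2 ^ k ≤ M / 8` -/
theorem Nrm.incx (n : Nrm Q M C) {i j k : ℕ} (hk1 : 8 * 2 ^ k ≤ M) (hk2 : M ≤ 16 * 2 ^ k)
    (hi : 8 * i ≤ M) (hj : 8 * j ≤ M) :
    |(Q (i + 1) j).re - (Q i j).re - 1| ≤ (32 * C + 4 * k * (20 * C + 32 * C ^ 2)) / M := by
  have hC := n.hC
  have hM0 : (0 : ℝ) < M := by
    have : 0 < M := by have := n.hM2; omega
    exact_mod_cast this
  have hd := dyadic (fun t => (Q (i + t) j).re - t) (eta M C) (2 * C) k (by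
    intro l hl
    have hlk : 2 ^ l ≤ 2 ^ k := Nat.pow_le_pow_right (by norm_num) hl.le
    have hlk2 : 2 ^ l + 2 ^ l ≤ 2 ^ k := by
      have : 2 ^ (l + 1) ≤ 2 ^ k := Nat.pow_le_pow_right (by norm_num) hl
      rw [pow_succ] at this
      omega
    have := n.zygx (i := i) (j := j) (d := 2 ^ l) (by omega) (by omega)
    push_cast at this ⊢
    refine le_trans (le_of_eq ?_) this
    congr 1
    rw [add_assoc]
    simp only [add_zero]
    ring) (by
    have h1 := abs_le.mp (n.re (i := i + 2 ^ k) (j := j) (by omega) (by omega))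
    have h2 := abs_le.mp (n.re (i := i) (j := j) (by omega) (by omega))
    push_cast at h1 ⊢
    simp only [add_zero]
    rw [abs_le]
    constructor <;> linarith)
  simp only [add_zero, Nat.cast_one, Nat.cast_zero, sub_zero] at hd
  have e1 : (Q (i + 1) j).re - 1 - (Q i j).re = (Q (i + 1) j).re - (Q i j).re - 1 := by ring
  rw [e1] at hd
  refine hd.trans ?_
  have h3 : 2 * C / 2 ^ k ≤ 32 * C / M := by
    have h4 : (M : ℝ) ≤ 16 * 2 ^ k := by exact_mod_cast hk2
    rw [div_le_div_iff₀ (by positivity) hM0]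
    nlinarith
  have h5 : 4 * k * eta M C = 4 * k * (20 * C + 32 * C ^ 2) / M := by unfold eta; ring
  rw [h5, add_div]
  linarith

theorem Nrm.incy (n : Nrm Q M C) {i j k : ℕ} (hk1 : 8 * 2 ^ k ≤ M) (hk2 : M ≤ 16 * 2 ^ k)
    (hi : 8 * i ≤ M) (hj : 8 * j ≤ M) :
    |(Q i (j + 1)).im - (Q i j).im - 1| ≤ (32 * C + 4 * k * (20 * C + 32 * C ^ 2)) / M := by
  have hC := n.hC
  have hM0 : (0 : ℝ) < M := by
    have : 0 < M := by have := n.hM2; omega
    exact_mod_cast this
  have hd := dyadic (fun t => (Q i (j + t)).im - t) (eta M C) (2 * C) k (by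
    intro l hl
    have hlk : 2 ^ l ≤ 2 ^ k := Nat.pow_le_pow_right (by norm_num) hl.le
    have hlk2 : 2 ^ l + 2 ^ l ≤ 2 ^ k := by
      have : 2 ^ (l + 1) ≤ 2 ^ k := Nat.pow_le_pow_right (by norm_num) hl
      rw [pow_succ] at this
      omega
    have := n.zygy (i := i) (j := j) (d := 2 ^ l) (by omega) (by omega)
    push_cast at this ⊢
    refine le_trans (le_of_eq ?_) this
    congr 1
    rw [add_assoc]
    simp only [add_zero]
    ring) (by
    have h1 := abs_le.mp (n.im (i := i) (j := j + 2 ^ k) (by omega) (by omega))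
    have h2 := abs_le.mp (n.im (i := i) (j := j) (by omega) (by omega))
    push_cast at h1 ⊢
    simp only [add_zero]
    rw [abs_le]
    constructor <;> linarith)
  simp only [add_zero, Nat.cast_one, Nat.cast_zero, sub_zero] at hd
  have e1 : (Q i (j + 1)).im - 1 - (Q i j).im = (Q i (j + 1)).im - (Q i j).im - 1 := by ring
  rw [e1] at hd
  refine hd.trans ?_
  have h3 : 2 * C / 2 ^ k ≤ 32 * C / M := by
    have h4 : (M : ℝ) ≤ 16 * 2 ^ k := by exact_mod_cast hk2
    rw [div_le_div_iff₀ (by positivity) hM0]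
    nlinarith
  have h5 : 4 * k * eta M C = 4 * k * (20 * C + 32 * C ^ 2) / M := by unfold eta; ring
  rw [h5, add_div]
  linarith

/-- the frames of a normalised straight grid -/
theorem Nrm.fram (n : Nrm Q M C) {i j k : ℕ} (hk0 : 1 ≤ k) (hk1 : 8 * 2 ^ k ≤ M)
    (hk2 : M ≤ 16 * 2 ^ k) (hi : 8 * i ≤ M) (hj : 8 * j ≤ M) :
    ‖Q (i + 1) j - Q i j - 1‖ ≤ 160 * (C + C ^ 2) * k / M ∧
    ‖Q i (j + 1) - Q i j - Complex.I‖ ≤ 160 * (C + C ^ 2) * k / M := by
  have hC := n.hC
  have hM2 := n.hM2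
  have hM0 : (0 : ℝ) < M := by
    have : 0 < M := by omega
    exact_mod_cast this
  have hk0' : (1 : ℝ) ≤ k := by exact_mod_cast hk0
  have key : (32 * C + 4 * k * (20 * C + 32 * C ^ 2)) / M + eta M C ≤
      160 * (C + C ^ 2) * k / M := by
    unfold eta
    rw [← add_div]
    apply div_le_div_of_nonneg_right _ hM0.le
    have h1 : C * 1 ≤ C * k := mul_le_mul_of_nonneg_left hk0' hC.le
    have h2 : C ^ 2 * 1 ≤ C ^ 2 * k := mul_le_mul_of_nonneg_left hk0' (by positivity)
    have h3 : 0 ≤ C * k := by positivity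
    linarith
  constructor
  · refine (Complex.norm_le_abs_re_add_abs_im _).trans ?_
    have h1 := n.incx hk1 hk2 hi hj
    have h2 := n.row1 (i := i) (j := j) (by omega) (by omega)
    simp only [Complex.sub_re, Complex.sub_im, Complex.one_re, Complex.one_im, sub_zero]
    linarith
  · refine (Complex.norm_le_abs_re_add_abs_im _).trans ?_
    have h1 := n.incy hk1 hk2 hi hj
    have h2 := n.col1 (i := i) (j := j) (by omega) (by omega)
    simp only [Complex.sub_re, Complex.sub_im, Complex.I_re, Complex.I_im, sub_zero]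
    linarith

end

end Pool.Agent.Lib.MP_a768d2_coT
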