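import Pool.Agent.Lib.MP_a768d2_coD.StepD
import Pool.Agent.Lib.MP_a768d2_coD.Core

/-! # Step E: a normalised straight grid has a thin triangle -/

namespace Pool.Agent.Lib.MP_a768d2_coT

open Pool.Agent.Lib.MP_a768d2_coG

noncomputable section

/-- powers of two beat powers -/
theorem pow_beats (B : ℝ) : ∃ k0 : ℕ, ∀ k : ℕ, k0 ≤ k → B * (k : ℝ) ^ 7 ≤ 2 ^ k / 2 := by
  have h := tendsto_pow_const_div_const_pow_of_one_lt 7 (show (1 : ℝ) < 2 by norm_num)
  have h2 : ∀ᶠ n : ℕ in Filter.atTop, (n : ℝ) ^ 7 / 2 ^ n < 1 / (2 * (|B| + 1)) :=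
    h.eventually_lt_const (by positivity)
  obtain ⟨k0, hk0⟩ := Filter.eventually_atTop.mp h2
  refine ⟨k0, fun k hk => ?_⟩
  have h3 := hk0 k hk
  have h4 : (0 : ℝ) < 2 ^ k := by positivity
  have hB : 0 ≤ |B| := abs_nonneg B
  rw [div_lt_div_iff₀ h4 (by positivity)] at h3
  have h5 : B * (k : ℝ) ^ 7 ≤ (|B| + 1) * (k : ℝ) ^ 7 :=
    mul_le_mul_of_nonneg_right (by linarith [le_abs_self B]) (by positivity)
  linarith

theorem stepDE (C c1 : ℝ) (hC : 0 < C) (hc1 : 0 < c1) : ∃ M0 : ℕ, ∀ M : ℕ, M0 ≤ M →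
    ∀ Q : ℕ → ℕ → ℂ, (∀ i j, i ≤ M → j ≤ M → ‖Q i j - ((i : ℂ) + (j : ℂ) * Complex.I)‖ ≤ C) →
      Str Q M C → Sep Q M (c1 / (M : ℝ) ^ 2) → False := by
  set a1 : ℝ := 160 * (C + C ^ 2) + 1 with ha1
  have ha1p : 1 ≤ a1 := by rw [ha1]; have : 0 < C ^ 2 := by positivity
                           linarith
  set a2 : ℝ := 2.56e8 * a1 / c1 + 2 with ha2
  have ha2p : 0 < a2 := by positivity
  obtain ⟨k0, hk0⟩ := pow_beats (10 ^ 6 * a1 ^ 2 * a2 ^ 5)
  refine ⟨max (8 * 2 ^ (k0 + 1)) (⌈8 * C⌉₊ + 16), ?_⟩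
  intro M hM Q hnear hstr hsep
  have hM1 : 8 * 2 ^ (k0 + 1) ≤ M := (le_max_left _ _).trans hM
  have hM2 : ⌈8 * C⌉₊ + 16 ≤ M := (le_max_right _ _).trans hM
  have hCM : 8 * C ≤ M := by
    refine (Nat.le_ceil _).trans ?_
    exact_mod_cast (by omega : ⌈8 * C⌉₊ ≤ M)
  have nrm : Nrm Q M C := ⟨hC, hCM, by omega, hnear, hstr⟩
  -- the dyadic scale
  have hM8 : M / 8 ≠ 0 := by omega
  set k : ℕ := Nat.log 2 (M / 8) with hk
  have hkle : 2 ^ k ≤ M / 8 := Nat.pow_log_le_self 2 hM8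
  have hklt : M / 8 < 2 ^ (k + 1) := Nat.lt_pow_succ_log_self (by norm_num) _
  have hk1 : 8 * 2 ^ k ≤ M := by omega
  have hk2 : M ≤ 16 * 2 ^ k := by rw [pow_succ] at hklt; omega
  have hkk0 : k0 + 1 ≤ k := by
    rw [hk]
    apply Nat.le_log_of_pow_le (by norm_num)
    omega
  have hk1' : 1 ≤ k := by omega
  have hkr : (1 : ℝ) ≤ k := by exact_mod_cast hk1'
  have hbig := hk0 k (by omega)
  -- parameters
  set N' : ℕ := M / 8 with hN'
  set L : ℝ := (N' : ℝ) with hL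
  have hN0 : 0 < N' := Nat.pos_of_ne_zero hM8
  have hL0 : 0 < L := by rw [hL]; exact_mod_cast hN0
  have hMr : (0 : ℝ) < M := by
    have : 0 < M := by omega
    exact_mod_cast this
  have hLM : L ≤ M := by rw [hL]; exact_mod_cast (Nat.div_le_self M 8)
  have hML : (M : ℝ) ≤ 16 * L := by
    have : M ≤ 16 * N' := by omega
    rw [hL]; exact_mod_cast this
  have h2L : (2 : ℝ) ^ k / 2 ≤ L := by
    have h1 : ((2 ^ k : ℕ) : ℝ) ≤ L := by rw [hL]; exact_mod_cast hkle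
    push_cast at h1
    have : (0 : ℝ) < 2 ^ k := by positivity
    linarith
  set A : ℝ := 160 * (C + C ^ 2) * k + 1 with hA
  have hCk : 0 < (C + C ^ 2) * k := by positivity
  have hA1 : 1 ≤ A := by rw [hA]; nlinarith
  have hAk : A ≤ a1 * k := by rw [hA, ha1]; nlinarith
  set K : ℕ := ⌈2.56e8 * A / c1⌉₊ + 1 with hK
  have hK1 : 1 ≤ K := by omega
  have hKlow : 2.56e8 * A / c1 ≤ K := by
    rw [hK]; push_cast
    linarith [Nat.le_ceil (2.56e8 * A / c1)]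
  have hA0 : 0 < A := by linarith
  have hKup : (K : ℝ) ≤ a2 * k := by
    rw [hK]; push_cast
    have h1 := (Nat.ceil_lt_add_one (show 0 ≤ 2.56e8 * A / c1 by positivity)).le
    have h2 : 2.56e8 * A / c1 ≤ 2.56e8 * (a1 * k) / c1 := by gcongr
    have h3 : 2.56e8 * (a1 * k) / c1 = (2.56e8 * a1 / c1) * k := by ring
    rw [ha2]
    rw [h3] at h2
    linarith
  have hKr : (0 : ℝ) < K := by exact_mod_cast hK1
  have hcond : 10 ^ 6 * (1 : ℝ) ^ 10 * A ^ 2 * (K : ℝ) ^ 5 ≤ L := by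
    have h1 : A ^ 2 ≤ (a1 * k) ^ 2 := pow_le_pow_left₀ hA0.le hAk 2
    have h2 : (K : ℝ) ^ 5 ≤ (a2 * k) ^ 5 := pow_le_pow_left₀ hKr.le hKup 5
    calc 10 ^ 6 * (1 : ℝ) ^ 10 * A ^ 2 * (K : ℝ) ^ 5 = 10 ^ 6 * (A ^ 2 * (K : ℝ) ^ 5) := by ring
      _ ≤ 10 ^ 6 * ((a1 * k) ^ 2 * (a2 * k) ^ 5) := by gcongr
      _ = 10 ^ 6 * a1 ^ 2 * a2 ^ 5 * (k : ℝ) ^ 7 := by ring
      _ ≤ 2 ^ k / 2 := hbig
      _ ≤ L := h2L
  have hLc : (L : ℂ) ≠ 0 := by exact_mod_cast hL0.ne'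
  have nL : ‖(L : ℂ)‖ = L := by rw [Complex.norm_real, Real.norm_eq_abs, abs_of_pos hL0]
  -- frames of the scaled grid
  have fr : ∀ F D : ℂ, ‖F - D‖ ≤ 160 * (C + C ^ 2) * k / M → ‖F / (L : ℂ) - D / L‖ ≤ A / L ^ 2 := by
    intro F D h
    rw [← sub_div, norm_div, nL, div_le_iff₀ hL0]
    refine h.trans ?_
    have e : A / L ^ 2 * L = A / L := by field_simp
    rw [e, div_le_div_iff₀ hMr hL0]
    have h1 : 160 * (C + C ^ 2) * k ≤ A := by rw [hA]; linarith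
    calc 160 * (C + C ^ 2) * k * L ≤ A * L := mul_le_mul_of_nonneg_right h1 hL0.le
      _ ≤ A * M := mul_le_mul_of_nonneg_left hLM hA0.le
  refine grid_coreS 1 A L (fun i j => Q i j / (L : ℂ)) ((1 : ℂ) / L) (Complex.I / L) N' K le_rfl
    hA1 hK1 hL0 (by rw [one_mul]) ?_ ?_ ?_ ?_ ?_ hcond ?_
  · rw [norm_div, nL, norm_one]
  · rw [norm_div, nL, Complex.norm_I]
  · have e : det2 ((1 : ℂ) / L) (Complex.I / L) = 1 / L ^ 2 := by
      have e1 : (1 : ℂ) / L = ((1 / L : ℝ) : ℂ) * 1 := by push_cast; ring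
      have e2 : Complex.I / (L : ℂ) = ((1 / L : ℝ) : ℂ) * Complex.I := by push_cast; ring
      rw [e1, e2]
      simp only [det2, Complex.mul_re, Complex.mul_im, Complex.ofReal_re, Complex.ofReal_im,
        Complex.one_re, Complex.one_im, Complex.I_re, Complex.I_im]
      field_simp
      ring
    rw [e, one_mul, abs_of_pos (by positivity)]
  · intro i j hi hj
    have := fr (Q (i + 1) j - Q i j) 1
      (nrm.fram hk1' hk1 hk2 (i := i) (j := j) (by omega) (by omega)).1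
    rw [sub_div] at this
    exact this
  · intro i j hi hj
    have := fr (Q i (j + 1) - Q i j) Complex.I
      (nrm.fram hk1' hk1 hk2 (i := i) (j := j) (by omega) (by omega)).2
    rw [sub_div] at this
    exact this
  · intro i j i' j' i'' j'' h1 h2 h3 h4 h5 h6 hne h4r
    have hN'M : N' ≤ M := Nat.div_le_self M 8
    have hne' : Q i j ≠ Q i' j' := by
      intro h; exact hne (by simp only [h])
    have sc : ∀ x y : ℂ, ‖x / (L : ℂ) - y / L‖ = ‖x - y‖ / L := by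
      intro x y; rw [← sub_div, norm_div, nL]
    simp only [sc] at h4r ⊢
    have h4r' : 4 * ‖Q i' j' - Q i j‖ ≤ ‖Q i'' j'' - Q i j‖ := by
      have := mul_le_mul_of_nonneg_right h4r hL0.le
      have e1 : 4 * (‖Q i' j' - Q i j‖ / L) * L = 4 * ‖Q i' j' - Q i j‖ := by field_simp
      have e2 : ‖Q i'' j'' - Q i j‖ / L * L = ‖Q i'' j'' - Q i j‖ := by field_simp
      rwa [e1, e2] at this
    have hs := hsep i j i' j' i'' j'' (by omega) (by omega) (by omega) (by omega) (by omega)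
      (by omega) hne' h4r'
    have ed : det2 (Q i' j' / (L : ℂ) - Q i j / L) (Q i'' j'' / (L : ℂ) - Q i j / L) =
        det2 (Q i' j' - Q i j) (Q i'' j'' - Q i j) / L ^ 2 := by
      have e1 : Q i' j' / (L : ℂ) - Q i j / L = ((1 / L : ℝ) : ℂ) * (Q i' j' - Q i j) := by
        push_cast; ring
      have e2 : Q i'' j'' / (L : ℂ) - Q i j / L = ((1 / L : ℝ) : ℂ) * (Q i'' j'' - Q i j) := by
        push_cast; ring
      rw [e1, e2]
      simp only [det2, Complex.mul_re, Complex.mul_im, Complex.ofReal_re, Complex.ofReal_im]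
      field_simp
      ring
    rw [ed, abs_div, abs_of_pos (by positivity : (0 : ℝ) < L ^ 2), div_pow, ← mul_div_assoc]
    apply div_le_div_of_nonneg_right _ (by positivity)
    refine le_trans ?_ hs
    apply mul_le_mul_of_nonneg_right _ (by positivity)
    rw [one_pow, mul_one, div_le_div_iff₀ (by positivity) (by positivity)]
    have h7 : (M : ℝ) ^ 2 ≤ (16 * L) ^ 2 := pow_le_pow_left₀ hMr.le hML 2
    have h8 : 2.56e8 * A ≤ K * c1 := by rwa [div_le_iff₀ hc1] at hKlow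
    calc 10 ^ 6 * A * (M : ℝ) ^ 2 ≤ 10 ^ 6 * A * (16 * L) ^ 2 :=
          mul_le_mul_of_nonneg_left h7 (by positivity)
      _ = 2.56e8 * A * L ^ 2 := by ring
      _ ≤ K * c1 * L ^ 2 := mul_le_mul_of_nonneg_right h8 (by positivity)
      _ = c1 * (K * L ^ 2) := by ring

end

end Pool.Agent.Lib.MP_a768d2_coT
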