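import Pool.Agent.Lib.MP_a768d2_coD.StepB2
import Pool.Agent.Lib.MP_a768d2_coD.StepC
import Pool.Agent.Lib.MP_a768d2_coD.StepE

/-! # Nearly straight grids with directional frames have a thin triangle -/

namespace Pool.Agent.Lib.MP_a768d2_coT

open Pool.Agent.Lib.MP_a768d2_coG

noncomputable section

theorem webD (L : ℝ) (hL : 1 ≤ L) : ∃ κ0 : ℝ, 0 < κ0 ∧ ∀ c : ℝ, 0 < c → ∃ δ1 : ℝ, 0 < δ1 ∧
    ∃ N1 : ℕ, ∀ N : ℕ, N1 ≤ N → ∀ (P : ℤ → ℤ → ℂ) (ℓ : ℤ → ℤ → ℝ) (κ : ℝ), 0 ≤ κ → κ ≤ κ0 →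
      DF P ℓ N κ L → Void P N c → Bd P δ1 (Oct (N / 8)) → False := by
  obtain ⟨κ0, hκ0, hC⟩ := stepC L hL
  have hL0 : 0 < L := by linarith
  refine ⟨min κ0 (1 / (1000 * L)), lt_min hκ0 (by positivity), ?_⟩
  intro c hc
  obtain ⟨δ1, hδ1, N1, hB⟩ := bootstrapD c L hc hL
  obtain ⟨C0, c1, hC0, hc1, N2, hC'⟩ := hC c (1200000 * L ^ 4) hc (by positivity)
  obtain ⟨M0, hE⟩ := stepDE C0 c1 hC0 hc1
  refine ⟨δ1, hδ1, max N1 (max N2 (1000 * M0)), ?_⟩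
  intro N hN P ℓ κ hκ hκ1 F V B
  have h1 : N1 ≤ N := (le_max_left _ _).trans hN
  have h2 : N2 ≤ N := ((le_max_left _ _).trans (le_max_right _ _)).trans hN
  have h3 : 1000 * M0 ≤ N := ((le_max_right _ _).trans (le_max_right _ _)).trans hN
  have hκL : κ * L ≤ 1 / 1000 := by
    have h4 : κ ≤ 1 / (1000 * L) := hκ1.trans (min_le_right _ _)
    have h5 := mul_le_mul_of_nonneg_right h4 hL0.le
    have h6 : 1 / (1000 * L) * L = 1 / 1000 := by field_simp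
    rwa [h6] at h5
  have hS := hB N h1 P ℓ κ hκ hκL F V B
  obtain ⟨M, Q, hM, hnear, hstr, hsep⟩ := hC' N h2 P ℓ κ hκ (hκ1.trans (min_le_left _ _)) F V hS
  exact hE M (by omega) Q hnear hstr hsep

end

end Pool.Agent.Lib.MP_a768d2_coT
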